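import Mathlib
import Pool.Agent.CDom.Defs
import Pool.Agent.CDom.Basic

/-!
# The connecting lemma

Let `G[S ∪ X]` be connected, let `C ⊆ X`, and let `I ⊆ S ∪ C` have `r + 1` elements such that every
vertex of `X` outside `C` is adjacent to a component of `G[S ∪ C]` which meets `I`.  Then `2 r`
further vertices of `X` join all these components.

Proof: induction on `r`.  If no two elements of `I` can be joined by adding two vertices `w, w'` of
`X`, then everything reachable from `j ∈ I` inside `S ∪ X` is reachable inside `S ∪ C ∪ {w}` for one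
vertex `w` adjacent to the component of `j`, so all of `I` is already connected to `j`.
-/

set_option autoImplicit false

namespace Pool.Agent.CDH

open Finset Pool.Agent.CDom

variable {V : Type*} [Fintype V] [LinearOrder V] {G : SimpleGraph V}

theorem conn_trans {X : Finset V} {a b c : V} (h : Conn G X a b) (h' : Conn G X b c) :
    Conn G X a c := Relation.ReflTransGen.trans h h'

/-- if nothing can be joined by two vertices, everything is joined -/
theorem connect_aux {S X I C : Finset V} {j : V} (hj : j ∈ I) (hI : I ⊆ S ∪ C)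
    (hX : ∀ x ∈ X, x ∉ C → x ∉ S → ∃ i ∈ I, ∃ a, Conn G (S ∪ C) i a ∧ G.Adj a x)
    (hno : ∀ w ∈ X, ∀ w' ∈ X, ∀ i ∈ I, Conn G (S ∪ insert w (insert w' C)) j i →
      Conn G (S ∪ C) j i) :
    ∀ p, Conn G (S ∪ X) j p → ∃ w, (w ∈ X ∨ w = j) ∧ Conn G (S ∪ insert w C) j p := by
  have hjC : j ∈ S ∪ C := hI hj
  have hins : ∀ w, (w ∈ X ∨ w = j) → ∀ w', w' ∈ X → ∀ i ∈ I,
      Conn G (S ∪ insert w (insert w' C)) j i → Conn G (S ∪ C) j i := by
    rintro w (hw | rfl) w' hw' i hi h
    · exact hno w hw w' hw' i hi h
    · refine hno w' hw' w' hw' i hi (conn_mono ?_ h)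
      intro x hx
      rw [Finset.mem_union, Finset.mem_insert, Finset.mem_insert] at hx
      rw [Finset.mem_union, Finset.mem_insert, Finset.mem_insert]
      rcases hx with hx | rfl | rfl | hx
      · exact Or.inl hx
      · rw [Finset.mem_union] at hjC
        rcases hjC with h1 | h1
        · exact Or.inl h1
        · exact Or.inr (Or.inr (Or.inr h1))
      · exact Or.inr (Or.inl rfl)
      · exact Or.inr (Or.inr (Or.inr hx))
  intro p hp
  unfold Conn at hp
  induction hp with
  | refl => exact ⟨j, Or.inr rfl, Relation.ReflTransGen.refl⟩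
  | @tail b c _ hbc ih =>
    obtain ⟨w, hw, hwb⟩ := ih
    obtain ⟨hadj, hc⟩ := hbc
    by_cases hcC : c ∈ S ∪ C
    · refine ⟨w, hw, Relation.ReflTransGen.tail hwb ⟨hadj, ?_⟩⟩
      rw [Finset.mem_union] at hcC
      rw [Finset.mem_union, Finset.mem_insert]
      rcases hcC with h1 | h1
      · exact Or.inl h1
      · exact Or.inr (Or.inr h1)
    · rw [Finset.mem_union, not_or] at hcC
      have hcX : c ∈ X := (Finset.mem_union.1 hc).resolve_left hcC.1
      obtain ⟨i, hi, a, hia, hac⟩ := hX c hcX hcC.2 hcC.1
      -- everything in `S ∪ {w, c} ∪ C`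
      have hsub1 : S ∪ insert w C ⊆ S ∪ insert w (insert c C) := by
        intro x hx
        rw [Finset.mem_union, Finset.mem_insert] at hx
        rw [Finset.mem_union, Finset.mem_insert, Finset.mem_insert]
        tauto
      have hsub2 : S ∪ C ⊆ S ∪ insert w (insert c C) := by
        intro x hx
        rw [Finset.mem_union] at hx
        rw [Finset.mem_union, Finset.mem_insert, Finset.mem_insert]
        tauto
      have hsub3 : S ∪ C ⊆ S ∪ insert c C := by
        intro x hx
        rw [Finset.mem_union] at hx
        rw [Finset.mem_union, Finset.mem_insert]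
        tauto
      have haC : a ∈ S ∪ C := conn_mem (hI hi) hia
      have hji : Conn G (S ∪ insert w (insert c C)) j i := by
        refine conn_trans (conn_mono hsub1 hwb) ?_
        refine Relation.ReflTransGen.head (b := c) ⟨hadj, ?_⟩ ?_
        · rw [Finset.mem_union, Finset.mem_insert, Finset.mem_insert]
          exact Or.inr (Or.inr (Or.inl rfl))
        · refine Relation.ReflTransGen.head (b := a) ⟨hac.symm, hsub2 haC⟩ ?_
          exact conn_mono hsub2 (conn_symm (hI hi) hia)
      have hji' := hins w hw c hcX i hi hji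
      refine ⟨c, Or.inl hcX, ?_⟩
      refine Relation.ReflTransGen.tail (conn_mono hsub3 (conn_trans hji' hia)) ⟨hac, ?_⟩
      rw [Finset.mem_union, Finset.mem_insert]
      exact Or.inr (Or.inl rfl)

/-- **connecting lemma** -/
theorem connect {S X : Finset V} (hconn : ∀ a ∈ S ∪ X, ∀ b ∈ S ∪ X, Conn G (S ∪ X) a b) :
    ∀ (r : ℕ) (I C : Finset V), I.card = r + 1 → C ⊆ X → I ⊆ S ∪ C →
      (∀ x ∈ X, x ∉ C → x ∉ S → ∃ i ∈ I, ∃ a, Conn G (S ∪ C) i a ∧ G.Adj a x) →
      ∃ C', C ⊆ C' ∧ C' ⊆ X ∧ C'.card ≤ C.card + 2 * r ∧ ∃ j ∈ I,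
        (∀ i ∈ I, Conn G (S ∪ C') j i) ∧
        ∀ x ∈ X, x ∉ C' → x ∉ S → ∃ a, Conn G (S ∪ C') j a ∧ G.Adj a x := by
  classical
  intro r
  induction r with
  | zero =>
    intro I C hcard hC hI hX
    obtain ⟨j, rfl⟩ := Finset.card_eq_one.1 hcard
    refine ⟨C, Finset.Subset.refl _, hC, by omega, j, Finset.mem_singleton_self j, ?_, ?_⟩
    · intro i hi
      rw [Finset.mem_singleton] at hi
      rw [hi]
      exact Relation.ReflTransGen.refl
    · intro x hx hxC hxS
      obtain ⟨i, hi, a, ha⟩ := hX x hx hxC hxS
      rw [Finset.mem_singleton] at hi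
      rw [hi] at ha
      exact ⟨a, ha⟩
  | succ r ih =>
    intro I C hcard hC hI hX
    have hne : I.Nonempty := by
      rw [← Finset.card_pos]
      omega
    obtain ⟨j, hj⟩ := hne
    by_cases hall : ∀ i ∈ I, Conn G (S ∪ C) j i
    · refine ⟨C, Finset.Subset.refl _, hC, by omega, j, hj, hall, ?_⟩
      intro x hx hxC hxS
      obtain ⟨i, hi, a, h1, h2⟩ := hX x hx hxC hxS
      exact ⟨a, conn_trans (hall i hi) h1, h2⟩
    · -- two elements can be joined
      have hex : ∃ w ∈ X, ∃ w' ∈ X, ∃ i ∈ I, Conn G (S ∪ insert w (insert w' C)) j i ∧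
          ¬ Conn G (S ∪ C) j i := by
        by_contra hcon
        push Not at hcon
        refine hall fun i hi => ?_
        have haux := connect_aux hj hI hX (fun w hw w' hw' i hi h => hcon w hw w' hw' i hi h)
        have hCX : S ∪ C ⊆ S ∪ X := by
          intro x hx
          rw [Finset.mem_union] at hx
          rw [Finset.mem_union]
          exact hx.imp id fun h => hC h
        obtain ⟨w, hw, hwi⟩ := haux i (hconn j (hCX (hI hj)) i (hCX (hI hi)))
        rcases hw with hw | rfl
        · refine hcon w hw w hw i hi (conn_mono ?_ hwi)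
          intro x hx
          rw [Finset.mem_union, Finset.mem_insert] at hx
          rw [Finset.mem_union, Finset.mem_insert, Finset.mem_insert]
          tauto
        · refine conn_mono ?_ hwi
          intro x hx
          rw [Finset.mem_union, Finset.mem_insert] at hx
          rcases hx with hx | rfl | hx
          · exact Finset.mem_union_left _ hx
          · exact hI hj
          · exact Finset.mem_union_right _ hx
      obtain ⟨w, hw, w', hw', i, hi, h1, h2⟩ := hex
      have hij : i ≠ j := by
        rintro rfl
        exact h2 Relation.ReflTransGen.refl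
      have hsub : S ∪ C ⊆ S ∪ insert w (insert w' C) := by
        intro x hx
        rw [Finset.mem_union] at hx
        rw [Finset.mem_union, Finset.mem_insert, Finset.mem_insert]
        tauto
      obtain ⟨C', h3, h4, h5, j', hj', h6, h7⟩ := ih (I.erase i) (insert w (insert w' C))
        (by rw [Finset.card_erase_of_mem hi]; omega)
        (by
          intro x hx
          rw [Finset.mem_insert, Finset.mem_insert] at hx
          rcases hx with rfl | rfl | hx
          · exact hw
          · exact hw'
          · exact hC hx)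
        (fun x hx => hsub (hI (Finset.mem_of_mem_erase hx)))
        (by
          intro x hx hxC hxS
          obtain ⟨i', hi', a, h8, h9⟩ := hX x hx (fun h => hxC (by
            rw [Finset.mem_insert, Finset.mem_insert]
            exact Or.inr (Or.inr h))) hxS
          by_cases hii : i' = i
          · subst hii
            exact ⟨j, Finset.mem_erase.2 ⟨hij.symm, hj⟩, a,
              conn_trans h1 (conn_mono hsub h8), h9⟩
          · exact ⟨i', Finset.mem_erase.2 ⟨hii, hi'⟩, a, conn_mono hsub h8, h9⟩)
      have hcC : (insert w (insert w' C)).card ≤ C.card + 2 := by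
        refine (Finset.card_insert_le _ _).trans ?_
        have := Finset.card_insert_le w' C
        omega
      refine ⟨C', fun x hx => h3 (by
        rw [Finset.mem_insert, Finset.mem_insert]
        exact Or.inr (Or.inr hx)), h4, by omega, j', Finset.mem_of_mem_erase hj', ?_, h7⟩
      intro i' hi'
      by_cases hii : i' = i
      · subst hii
        have h8 := h6 j (Finset.mem_erase.2 ⟨hij.symm, hj⟩)
        refine conn_trans h8 (conn_mono ?_ h1)
        intro x hx
        rw [Finset.mem_union] at hx
        rw [Finset.mem_union]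
        exact hx.imp id fun h => h3 h
      · exact h6 i' (Finset.mem_erase.2 ⟨hii, hi'⟩)

end Pool.Agent.CDH
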