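import Mathlib
import Pool.Agent.CDom.Defs
import Pool.Agent.CDom.Basic
import Pool.Agent.CDH.Connect

/-!
# Stars with legs through components

`StarS G S v X`: the vertices of `X` are pairwise nonadjacent, and each of them is adjacent to `v`
or to a component of `G[S]` which is adjacent to `v` and to no other member of `X`.
-/

set_option autoImplicit false

namespace Pool.Agent.CDH

open Finset Pool.Agent.CDom

variable {V : Type*} [Fintype V] [LinearOrder V] {G : SimpleGraph V}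

/-- star with centre `v`, leaves `X`, and legs through components of `G[S]` -/
def StarS (G : SimpleGraph V) (S : Finset V) (v : V) (X : Finset V) : Prop :=
  (∀ x ∈ X, ∀ y ∈ X, ¬ G.Adj x y) ∧
  ∀ x ∈ X, G.Adj v x ∨ ∃ a ∈ S, G.Adj v a ∧ (∃ b, Conn G S a b ∧ G.Adj b x) ∧
    ∀ y ∈ X, y ≠ x → ∀ b, Conn G S a b → ¬ G.Adj b y

theorem StarS.subset {S : Finset V} {v : V} {X X' : Finset V} (h : StarS G S v X)
    (hX : X' ⊆ X) : StarS G S v X' := by
  refine ⟨fun x hx y hy => h.1 x (hX hx) y (hX hy), fun x hx => ?_⟩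
  rcases h.2 x (hX hx) with h1 | ⟨a, ha, h1, h2, h3⟩
  · exact Or.inl h1
  · exact Or.inr ⟨a, ha, h1, h2, fun y hy => h3 y (hX hy)⟩

/-- leaving the component of `a` in `G[F]` inside `S ⊆ F ∪ O` -/
theorem leave {S F O : Finset V} (hS : ∀ q ∈ S, q ∈ F ∨ q ∈ O) {a b : V}
    (h : Conn G S a b) :
    Conn G F a b ∨ ∃ x ∈ O, Conn G S a x ∧ ∃ b', Conn G F a b' ∧ G.Adj b' x := by
  unfold Conn at h
  induction h with
  | refl => exact Or.inl Relation.ReflTransGen.refl
  | @tail p q hp hpq ih =>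
    rcases ih with ih | ih
    · rcases hS q hpq.2 with hq | hq
      · exact Or.inl (Relation.ReflTransGen.tail ih ⟨hpq.1, hq⟩)
      · exact Or.inr ⟨q, hq, Relation.ReflTransGen.tail hp hpq, p, ih, hpq.1⟩
    · exact Or.inr ih

/-- **truncation** of the legs at their first vertices in `O` -/
theorem trunc {S O X : Finset V} {v : V} (hvS : v ∉ S) (hFS : (insert v O)ᶜ ⊆ S)
    (hXS : ∀ x ∈ X, x ∉ S) (hXO : X ⊆ O) (h : StarS G S v X) :
    ∃ X' ⊆ O, X'.card = X.card ∧ StarS G (insert v O)ᶜ v X' := by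
  classical
  set F : Finset V := (insert v O)ᶜ with hF
  have hmemF : ∀ q, q ∈ F ↔ q ≠ v ∧ q ∉ O := by
    intro q
    rw [hF, Finset.mem_compl, Finset.mem_insert, not_or]
  have hSFO : ∀ q ∈ S, q ∈ F ∨ q ∈ O := by
    intro q hq
    by_cases hqO : q ∈ O
    · exact Or.inr hqO
    · refine Or.inl ((hmemF q).2 ⟨?_, hqO⟩)
      rintro rfl
      exact hvS hq
  have hch : ∀ x ∈ X, ∃ a, ¬ G.Adj v x → (a ∈ S ∧ G.Adj v a ∧
      (∃ b, Conn G S a b ∧ G.Adj b x) ∧
      ∀ y ∈ X, y ≠ x → ∀ b, Conn G S a b → ¬ G.Adj b y) := by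
    intro x hx
    rcases h.2 x hx with h1 | ⟨a, ha⟩
    · exact ⟨x, fun h2 => absurd h1 h2⟩
    · exact ⟨a, fun _ => ha⟩
  choose! a ha using hch
  let Bl : V → V → Prop := fun x z => z = x ∨ (¬ G.Adj v x ∧ Conn G S (a x) z)
  -- separation
  have hsep : ∀ x ∈ X, ∀ y ∈ X, x ≠ y → ∀ z z', Bl x z → Bl y z' → z ≠ z' ∧ ¬ G.Adj z z' := by
    intro x hx y hy hxy z z' hz hz'
    rcases hz with rfl | ⟨hx1, hz⟩
    · rcases hz' with rfl | ⟨hy1, hz'⟩
      · exact ⟨hxy, h.1 _ hx _ hy⟩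
      · obtain ⟨h1, _, _, h4⟩ := ha y hy hy1
        refine ⟨fun e => hXS z hx ?_, fun hadj => h4 z hx hxy z' hz' hadj.symm⟩
        rw [e]
        exact conn_mem h1 hz'
    · obtain ⟨h1, _, _, h4⟩ := ha x hx hx1
      rcases hz' with rfl | ⟨hy1, hz'⟩
      · refine ⟨fun e => hXS z' hy ?_, fun hadj => h4 z' hy hxy.symm z hz hadj⟩
        rw [← e]
        exact conn_mem h1 hz
      · obtain ⟨g1, _, ⟨b, hb1, hb2⟩, _⟩ := ha y hy hy1
        have hcon : ¬ Conn G S z z' := by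
          intro hzz
          have h5 : Conn G S (a x) b :=
            conn_trans hz (conn_trans hzz (conn_trans (conn_symm g1 hz') hb1))
          exact h4 y hy hxy.symm b h5 hb2
        refine ⟨?_, fun hadj => hcon (conn_single hadj (conn_mem g1 hz'))⟩
        rintro rfl
        exact hcon Relation.ReflTransGen.refl
  -- new leaves
  have hnew : ∀ x ∈ X, ∃ x', Bl x x' ∧ x' ∈ O ∧ (G.Adj v x' ∨ ∃ a' ∈ F, G.Adj v a' ∧
      (∃ b', Conn G F a' b' ∧ G.Adj b' x') ∧ ∀ c, Conn G F a' c → Bl x c) := by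
    intro x hx
    by_cases hvx : G.Adj v x
    · exact ⟨x, Or.inl rfl, hXO hx, Or.inl hvx⟩
    · obtain ⟨h1, h2, ⟨b, hb1, hb2⟩, h4⟩ := ha x hx hvx
      by_cases haO : a x ∈ O
      · exact ⟨a x, Or.inr ⟨hvx, Relation.ReflTransGen.refl⟩, haO, Or.inl h2⟩
      · have haF : a x ∈ F := (hmemF _).2 ⟨h2.ne', haO⟩
        have hcl : ∀ c, Conn G F (a x) c → Bl x c := fun c hc =>
          Or.inr ⟨hvx, conn_mono hFS hc⟩
        rcases leave hSFO hb1 with h5 | ⟨x', hx', h5, b', h6, h7⟩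
        · exact ⟨x, Or.inl rfl, hXO hx, Or.inr ⟨a x, haF, h2, ⟨b, h5, hb2⟩, hcl⟩⟩
        · exact ⟨x', Or.inr ⟨hvx, h5⟩, hx', Or.inr ⟨a x, haF, h2, ⟨b', h6, h7⟩, hcl⟩⟩
  choose! g hg using hnew
  have hinj : ∀ x ∈ X, ∀ y ∈ X, g x = g y → x = y := by
    intro x hx y hy e
    by_contra hne
    exact (hsep x hx y hy hne (g x) (g y) (hg x hx).1 (hg y hy).1).1 e
  refine ⟨X.image g, ?_, ?_, ?_, ?_⟩
  · intro z hz
    rw [Finset.mem_image] at hz
    obtain ⟨x, hx, rfl⟩ := hz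
    exact (hg x hx).2.1
  · exact Finset.card_image_of_injOn fun x hx y hy e => hinj x hx y hy e
  · intro z hz z' hz'
    rw [Finset.mem_image] at hz hz'
    obtain ⟨x, hx, rfl⟩ := hz
    obtain ⟨y, hy, rfl⟩ := hz'
    by_cases hxy : x = y
    · rw [hxy]
      exact G.loopless.irrefl _
    · exact (hsep x hx y hy hxy _ _ (hg x hx).1 (hg y hy).1).2
  · intro z hz
    rw [Finset.mem_image] at hz
    obtain ⟨x, hx, rfl⟩ := hz
    obtain ⟨_, _, h3⟩ := hg x hx
    rcases h3 with h3 | ⟨a', ha', h3, h4, h5⟩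
    · exact Or.inl h3
    · refine Or.inr ⟨a', ha', h3, h4, ?_⟩
      intro z' hz' hne b hb
      rw [Finset.mem_image] at hz'
      obtain ⟨y, hy, rfl⟩ := hz'
      have hxy : x ≠ y := by
        rintro rfl
        exact hne rfl
      exact (hsep x hx y hy hxy b (g y) (h5 b hb) (hg y hy).1).2

/-- no star with centre `v`, `d` leaves in `O` and legs outside `O` -/
def NoStar (G : SimpleGraph V) (d : ℕ) (O : Finset V) (v : V) : Prop :=
  ¬ ∃ X ⊆ O, X.card = d ∧ StarS G (insert v O)ᶜ v X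

theorem NoStar.card_lt {d : ℕ} {O : Finset V} {v : V} (h : NoStar G d O v) {X : Finset V}
    (hX : X ⊆ O) (hs : StarS G (insert v O)ᶜ v X) : X.card < d := by
  by_contra hcon
  obtain ⟨X', hX', hc⟩ := Finset.exists_subset_card_eq (not_lt.1 hcon)
  exact h ⟨X', hX'.trans hX, hc, hs.subset hX'⟩

theorem NoStar.mono {d : ℕ} {O O' : Finset V} {v : V} (h : NoStar G d O v)
    (hO : O' ⊆ O) : NoStar G d O' v := by
  rintro ⟨X, hX, hc, hs⟩
  obtain ⟨X', hX', hc', hs'⟩ := trunc (O := O) (by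
      rw [Finset.mem_compl, not_not]
      exact Finset.mem_insert_self _ _) (by
      intro x hx
      rw [Finset.mem_compl, Finset.mem_insert, not_or] at hx ⊢
      exact ⟨hx.1, fun h => hx.2 (hO h)⟩) (by
      intro x hx
      rw [Finset.mem_compl, not_not]
      exact Finset.mem_insert_of_mem (hX hx)) (hX.trans hO) hs
  exact h ⟨X', hX', hc'.trans hc, hs'⟩

end Pool.Agent.CDH
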