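import Mathlib
import Pool.Agent.CDom.StmtDefs

/-!
# Definitions for the statements on hypergraph dualization (MP_6e88d0_lc)

A hypergraph with vertex set `Fin m` is the list of its hyperedges `E : List (Finset (Fin m))`.
* `IsTr E T`: `T` is a transversal (meets every hyperedge), `IsMinTr E T`: inclusion-minimal
  transversal.
* `encH E`: the code of the hypergraph; the rows are the characteristic vectors of the whole vertex
  set and of the hyperedges (coding of lists of rows by `Pool.Agent.CDom.encM`).
* `InPoly f`: `f` is computed by one of Mathlib's Turing machines in polynomial time.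
* `SuffRed P`: MCDS-ENUM on the graphs with property `P` has a sufficient reduction to hypergraph
  dualization, in the sense of the problem file.
-/

set_option autoImplicit false

namespace Pool.Agent.CDH

open Pool.Agent.CDom

/-- `T` meets every hyperedge -/
def IsTr {m : ℕ} (E : List (Finset (Fin m))) (T : Finset (Fin m)) : Prop :=
  ∀ e ∈ E, (e ∩ T).Nonempty

/-- minimal transversals -/
def IsMinTr {m : ℕ} (E : List (Finset (Fin m))) (T : Finset (Fin m)) : Prop :=
  IsTr E T ∧ ∀ T', T' ⊂ T → ¬ IsTr E T'

/-- the code of the hypergraph `(Fin m, E)` -/
def encH {m : ℕ} (E : List (Finset (Fin m))) : List Bool :=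
  encM ((Finset.univ :: E).map matS)

/-- `f` is computed by a Turing machine of Mathlib in polynomial time -/
def InPoly (f : List Bool → List Bool) : Prop :=
  Nonempty (Turing.TM2ComputableInPolyTime (fun x : List Bool => x) (fun x : List Bool => x) f)

/-- There are polynomial-time maps `f : G ↦ H_G` and `g : (G, T) ↦ D` or nothing, and a polynomial
`p`, such that for every graph `G` with property `P`: `g` sends every minimal transversal `T` of
`H_G` to a minimal connected dominating set of `G` or discards it (empty output); every minimal
connected dominating set `D` of `G` is the image of at least one and at most `p(n)` minimal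
transversals; at most `p(n)` minimal transversals are discarded. -/
def SuffRed (P : ∀ n : ℕ, SimpleGraph (Fin n) → Prop) : Prop :=
  ∃ (f g : List Bool → List Bool) (p : Polynomial ℕ), InPoly f ∧ InPoly g ∧
    ∀ (n : ℕ) (G : SimpleGraph (Fin n)), P n G →
      ∃ (m : ℕ) (H : List (Finset (Fin m))), f (encM (matG G)) = encH H ∧
        (∀ T : Finset (Fin m), IsMinTr H T → g (encM (matS T :: matG G)) = encM [] ∨
          ∃ D : Finset (Fin n), IsMinCDS G D ∧ g (encM (matS T :: matG G)) = encM [matS D]) ∧
        (∀ D : Finset (Fin n), IsMinCDS G D →
          1 ≤ Set.ncard {T : Finset (Fin m) | IsMinTr H T ∧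
            g (encM (matS T :: matG G)) = encM [matS D]} ∧
          Set.ncard {T : Finset (Fin m) | IsMinTr H T ∧
            g (encM (matS T :: matG G)) = encM [matS D]} ≤ p.eval n) ∧
        Set.ncard {T : Finset (Fin m) | IsMinTr H T ∧
          g (encM (matS T :: matG G)) = encM []} ≤ p.eval n

end Pool.Agent.CDH
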