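import Mathlib
import Pool.Agent.CDom.StmtDefs
import Pool.Agent.CDH.Stmt

/-!
# Definitions for the second statement (MP_6e88d0_lc)

* `HDOutPoly`: a Turing machine lists the minimal transversals of every hypergraph in time
  polynomial in the numbers of vertices, of hyperedges and of minimal transversals.
* `MCDSOutPoly P`: a Turing machine lists the minimal connected dominating sets of every graph with
  property `P` in time polynomial in the numbers of vertices and of solutions.
* `TreeAlphaLt d G`: some tree decomposition of `G` has only bags without `d` pairwise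
  nonadjacent vertices (the tree-independence number of `G` is less than `d`).
* `GoodOrder d G`: some linear order of the vertices (given by an injective `rk`) has no back star
  with `d` leaves.  A back star with centre `v` (`BackStar`): pairwise nonadjacent vertices before
  `v`, each adjacent to `v`, or to a component of the subgraph induced by the vertices after `v`
  which is adjacent to `v` and to no other leaf.
-/

set_option autoImplicit false

namespace Pool.Agent.CDH

open Pool.Agent.CDom

/-- hypergraph dualization has an output-polynomial algorithm -/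
def HDOutPoly : Prop :=
  ∃ (M : Turing.FinTM2) (i : M.Γ M.k₀ ≃ Bool) (o : M.Γ M.k₁ ≃ Bool) (p : Polynomial ℕ),
    ∀ (m : ℕ) (H : List (Finset (Fin m))), ∃ l : List (Finset (Fin m)), l.Nodup ∧
      (∀ T, T ∈ l ↔ IsMinTr H T) ∧
      Outputs M i o (encH H) (encM (l.map matS)) (p.eval (m + H.length + l.length))

/-- MCDS-ENUM on the graphs with property `P` has an output-polynomial algorithm -/
def MCDSOutPoly (P : ∀ n : ℕ, SimpleGraph (Fin n) → Prop) : Prop :=
  ∃ (M : Turing.FinTM2) (i : M.Γ M.k₀ ≃ Bool) (o : M.Γ M.k₁ ≃ Bool) (p : Polynomial ℕ),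
    ∀ (n : ℕ) (G : SimpleGraph (Fin n)), P n G → ∃ l : List (Finset (Fin n)), l.Nodup ∧
      (∀ D, D ∈ l ↔ IsMinCDS G D) ∧
      Outputs M i o (encM (matG G)) (encM (l.map matS)) (p.eval (n + l.length))

/-- some tree decomposition has only bags with independence number less than `d` -/
def TreeAlphaLt (d : ℕ) {n : ℕ} (G : SimpleGraph (Fin n)) : Prop :=
  ∃ (ι : Type) (T : SimpleGraph ι) (B : ι → Finset (Fin n)), T.IsTree ∧
    (∀ u v, G.Adj u v → ∃ t, u ∈ B t ∧ v ∈ B t) ∧
    (∀ v, (T.induce {t | v ∈ B t}).Connected) ∧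
    ∀ (t : ι) (I : Finset (Fin n)), I ⊆ B t → G.IsIndepSet (I : Set (Fin n)) → I.card < d

/-- `b` can be reached from `a` by a path in the graph, all vertices of which but perhaps `a` come
after `v` -/
def Later {n : ℕ} (G : SimpleGraph (Fin n)) (rk : Fin n → ℕ) (v a b : Fin n) : Prop :=
  Relation.ReflTransGen (fun s t => G.Adj s t ∧ rk v < rk t) a b

/-- back star with centre `v` and `d` leaves -/
def BackStar {n : ℕ} (G : SimpleGraph (Fin n)) (rk : Fin n → ℕ) (d : ℕ) (v : Fin n) : Prop :=
  ∃ X : Finset (Fin n), X.card = d ∧ (∀ x ∈ X, rk x < rk v) ∧ (∀ x ∈ X, ∀ y ∈ X, ¬ G.Adj x y) ∧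
    ∀ x ∈ X, G.Adj v x ∨ ∃ a, rk v < rk a ∧ G.Adj v a ∧ (∃ b, Later G rk v a b ∧ G.Adj b x) ∧
      ∀ y ∈ X, y ≠ x → ∀ b, Later G rk v a b → ¬ G.Adj b y

/-- some order has no back star with `d` leaves -/
def GoodOrder (d : ℕ) {n : ℕ} (G : SimpleGraph (Fin n)) : Prop :=
  ∃ rk : Fin n → ℕ, Function.Injective rk ∧ ∀ v, ¬ BackStar G rk d v

/-- the class of graphs -/
def GraphClass (d : ℕ) {n : ℕ} (G : SimpleGraph (Fin n)) : Prop :=
  IsEmpty (completeBipartiteGraph (Fin 1) (Fin d) ↪g G) ∨ TreeAlphaLt d G ∨ GoodOrder d G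

end Pool.Agent.CDH
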