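import Mathlib
import Pool.Agent.CDom.Defs
import Pool.Agent.CDom.Basic
import Pool.Agent.CDH.Stmt
import Pool.Agent.CDH.StmtB
import Pool.Agent.CDH.Star

/-!
# Star-free graphs and graphs of bounded tree-independence number have good orders
-/

set_option autoImplicit false

namespace Pool.Agent.CDH

open Finset Pool.Agent.CDom

variable {n : ℕ} {G : SimpleGraph (Fin n)}

/-! ### good orders and `NoStar` -/

theorem noStar_of_rk {d : ℕ} {rk : Fin n → ℕ} (hrk : Function.Injective rk) {v : Fin n}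
    (h : ¬ BackStar G rk d v) : NoStar G d (univ.filter fun x => rk x < rk v) v := by
  have hmem : ∀ x, x ∈ (insert v (univ.filter fun x => rk x < rk v))ᶜ ↔ rk v < rk x := by
    intro x
    rw [Finset.mem_compl, Finset.mem_insert, Finset.mem_filter, not_or]
    constructor
    · rintro ⟨h1, h2⟩
      have h3 : ¬ rk x < rk v := fun h3 => h2 ⟨Finset.mem_univ _, h3⟩
      have h4 : rk x ≠ rk v := fun h4 => h1 (hrk h4)
      omega
    · intro h1
      refine ⟨?_, fun h2 => ?_⟩
      · rintro rfl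
        exact absurd h1 (lt_irrefl _)
      · have h3 := h2.2
        omega
  have hconn : ∀ a b, Conn G (insert v (univ.filter fun x => rk x < rk v))ᶜ a b ↔
      Later G rk v a b := by
    intro a b
    unfold Conn Later
    have e : (fun x y => G.Adj x y ∧ y ∈ (insert v (univ.filter fun x => rk x < rk v))ᶜ) =
        fun s t => G.Adj s t ∧ rk v < rk t := by
      funext x y
      rw [hmem]
    rw [e]
  rintro ⟨X, hX, hc, hX1, hX2⟩
  refine h ⟨X, hc, fun x hx => ?_, hX1, fun x hx => ?_⟩
  · have h1 := hX hx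
    rw [Finset.mem_filter] at h1
    exact h1.2
  · rcases hX2 x hx with h1 | ⟨a, ha, h1, ⟨b, hb, hbx⟩, h3⟩
    · exact Or.inl h1
    · refine Or.inr ⟨a, (hmem a).1 ha, h1, ⟨b, (hconn a b).1 hb, hbx⟩, ?_⟩
      intro y hy hyx b hb
      exact h3 y hy hyx b ((hconn a b).2 hb)

theorem exists_noStar {d : ℕ} (h : GoodOrder d G) (O : Finset (Fin n)) (hO : O.Nonempty) :
    ∃ v ∈ O, NoStar G d (O.erase v) v := by
  obtain ⟨rk, hrk, h⟩ := h
  obtain ⟨v, hv, hmax⟩ := Finset.exists_max_image O rk hO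
  refine ⟨v, hv, (noStar_of_rk hrk (h v)).mono ?_⟩
  intro x hx
  rw [Finset.mem_erase] at hx
  rw [Finset.mem_filter]
  refine ⟨Finset.mem_univ _, ?_⟩
  have h1 := hmax x hx.2
  have h2 : rk x ≠ rk v := fun h2 => hx.1 (hrk h2)
  omega

/-! ### star-free graphs -/

theorem goodOrder_of_starFree {d : ℕ}
    (h : IsEmpty (completeBipartiteGraph (Fin 1) (Fin d) ↪g G)) : GoodOrder d G := by
  classical
  refine ⟨Fin.val, Fin.val_injective, fun v hv => ?_⟩
  obtain ⟨X, hXc, hXrk, hX1, hX2⟩ := hv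
  have hlat : ∀ a b, v.1 < a.1 → Later G Fin.val v a b → v.1 < b.1 := by
    intro a b ha hab
    unfold Later at hab
    induction hab with
    | refl => exact ha
    | tail _ hbc _ => exact hbc.2
  have hlsymm : ∀ a b, v.1 < a.1 → Later G Fin.val v a b → Later G Fin.val v b a := by
    intro a b ha hab
    unfold Later at hab
    induction hab with
    | refl => exact Relation.ReflTransGen.refl
    | tail hab hbc ih =>
      exact Relation.ReflTransGen.head ⟨hbc.1.symm, hlat _ _ ha hab⟩ ih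
  -- neighbours of `v`
  have hch : ∀ x ∈ X, ∃ c, G.Adj v c ∧ (c = x ∨ (v.1 < c.1 ∧
      (∃ b, Later G Fin.val v c b ∧ G.Adj b x) ∧
      ∀ y ∈ X, y ≠ x → ∀ b, Later G Fin.val v c b → ¬ G.Adj b y)) := by
    intro x hx
    rcases hX2 x hx with h1 | ⟨a, ha, h1, h2, h3⟩
    · exact ⟨x, h1, Or.inl rfl⟩
    · exact ⟨a, h1, Or.inr ⟨ha, h2, h3⟩⟩
  choose! c hc using hch
  have hsep : ∀ x ∈ X, ∀ y ∈ X, x ≠ y → c x ≠ c y ∧ ¬ G.Adj (c x) (c y) := by
    intro x hx y hy hxy
    obtain ⟨_, hcx⟩ := hc x hx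
    obtain ⟨_, hcy⟩ := hc y hy
    rcases hcx with hcx | ⟨gx1, ⟨bx, gx2, gx3⟩, gx4⟩
    · rcases hcy with hcy | ⟨gy1, ⟨b, gy2, gy3⟩, gy4⟩
      · rw [hcx, hcy]
        exact ⟨hxy, hX1 x hx y hy⟩
      · rw [hcx]
        refine ⟨fun e => ?_, fun hadj => gy4 x hx hxy _ Relation.ReflTransGen.refl hadj.symm⟩
        have h1 := hXrk x hx
        rw [← e] at gy1
        omega
    · rcases hcy with hcy | ⟨gy1, ⟨b, gy2, gy3⟩, gy4⟩
      · rw [hcy]
        refine ⟨fun e => ?_, fun hadj => gx4 y hy hxy.symm _ Relation.ReflTransGen.refl hadj⟩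
        have h1 := hXrk y hy
        rw [e] at gx1
        omega
      · have hno : ¬ Later G Fin.val v (c x) (c y) := by
          intro hl
          exact gx4 y hy hxy.symm b (Relation.ReflTransGen.trans hl gy2) gy3
        refine ⟨fun e => hno ?_, fun hadj => hno (Relation.ReflTransGen.single ⟨hadj, gy1⟩)⟩
        rw [e]
        exact Relation.ReflTransGen.refl
  -- the embedding
  let eX : Fin d ≃ {x // x ∈ X} := (Finset.equivFinOfCardEq hXc).symm
  let f : Fin 1 ⊕ Fin d → Fin n := Sum.elim (fun _ => v) (fun i => c (eX i).1)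
  have hadj : ∀ i, G.Adj v (c (eX i).1) := fun i => (hc _ (eX i).2).1
  have hne : ∀ i j, i ≠ j → (eX i).1 ≠ (eX j).1 := by
    intro i j hij e
    exact hij (eX.injective (Subtype.ext e))
  have hinj : Function.Injective f := by
    rintro (i | i) (j | j) e
    · rw [Subsingleton.elim i j]
    · exact absurd e (hadj j).ne
    · exact absurd e (hadj i).ne'
    · by_cases hij : i = j
      · rw [hij]
      · exact absurd e (hsep _ (eX i).2 _ (eX j).2 (hne i j hij)).1
  refine h.elim ⟨⟨f, hinj⟩, ?_⟩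
  rintro (i | i) (j | j)
  · simp [f]
  · simp [f, hadj j]
  · simp [f, (hadj i).symm]
  · by_cases hij : i = j
    · simp [f, hij]
    · simp [f, (hsep _ (eX i).2 _ (eX j).2 (hne i j hij)).2]

/-! ### tree decompositions -/

section tree

variable {ι : Type} {T : SimpleGraph ι}

theorem tree_edge (hT : T.IsTree) {r : ι} {P : ∀ s, T.Walk r s} (hP : ∀ s, (P s).IsPath)
    {s s' t : ι} (hadj : T.Adj s s') (h : t ∈ (P s).support) (h' : t ∉ (P s').support) :
    s = t ∧ (P s).length = (P s').length + 1 := by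
  by_cases hs : s ∈ (P s').support
  · exfalso
    have h1 := hT.isAcyclic.path_concat (hP s) (hP s') hadj hs
    refine h' ?_
    rw [h1, SimpleGraph.Walk.support_concat, List.mem_append]
    exact Or.inl h
  · have hs' := hT.isAcyclic.mem_support_of_ne_mem_support_of_adj_of_isPath (hP s) (hP s')
      hadj hs
    have h1 := hT.isAcyclic.path_concat (hP s') (hP s) hadj.symm hs'
    refine ⟨?_, ?_⟩
    · rw [h1, SimpleGraph.Walk.support_concat, List.mem_append, List.mem_singleton] at h
      exact (h.resolve_left h').symm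
    · rw [h1, SimpleGraph.Walk.length_concat]

theorem tree_desc (hT : T.IsTree) {r : ι} {P : ∀ s, T.Walk r s} (hP : ∀ s, (P s).IsPath)
    {s t : ι} (h : t ∈ (P s).support) (hle : (P s).length ≤ (P t).length) : s = t := by
  classical
  have h1 : P t = (P s).takeUntil t h := by
    have h2 := hT.isAcyclic.subsingleton_path r t
    exact congrArg Subtype.val (h2.elim ⟨P t, hP t⟩ ⟨_, (hP s).takeUntil h⟩)
  have h3 : ((P s).takeUntil t h).length + ((P s).dropUntil t h).length = (P s).length := by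
    rw [← SimpleGraph.Walk.length_append, SimpleGraph.Walk.take_spec]
  have h4 : ((P s).dropUntil t h).length = 0 := by
    rw [← h1] at h3
    omega
  exact (SimpleGraph.Walk.eq_of_length_eq_zero h4).symm

theorem goodOrder_of_treeAlpha {d : ℕ} (h : TreeAlphaLt d G) : GoodOrder d G := by
  classical
  obtain ⟨ι, T, B, hT, hedge, hconn, hbag⟩ := h
  obtain ⟨r⟩ := hT.connected.nonempty
  have hpath : ∀ s, ∃ p : T.Walk r s, p.IsPath := fun s => (hT.existsUnique_path r s).exists
  choose P hP using hpath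
  -- top nodes
  have htop : ∀ v : Fin n, ∃ t, v ∈ B t ∧ ∀ s, v ∈ B s → (P t).length ≤ (P s).length := by
    intro v
    obtain ⟨⟨t₀, ht₀⟩⟩ := (hconn v).nonempty
    have hne : ∃ k, ∃ t, v ∈ B t ∧ (P t).length = k := ⟨_, t₀, ht₀, rfl⟩
    obtain ⟨t, ht, hk⟩ := Nat.find_spec hne
    refine ⟨t, ht, fun s hs => ?_⟩
    rw [hk]
    exact Nat.find_min' hne ⟨s, hs, rfl⟩
  choose top htop1 htop2 using htop
  let dep : Fin n → ℕ := fun v => (P (top v)).length
  let rk : Fin n → ℕ := fun v => dep v * n + v.1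
  have hrk : Function.Injective rk := by
    intro u v e
    have h1 : rk u % n = u.1 := by
      show (dep u * n + u.1) % n = u.1
      rw [Nat.mul_add_mod', Nat.mod_eq_of_lt u.2]
    have h2 : rk v % n = v.1 := by
      show (dep v * n + v.1) % n = v.1
      rw [Nat.mul_add_mod', Nat.mod_eq_of_lt v.2]
    rw [e, h2] at h1
    exact Fin.ext h1.symm
  have hdep : ∀ u v, rk u < rk v → dep u ≤ dep v := by
    intro u v huv
    by_contra hcon
    have h1 : dep v + 1 ≤ dep u := by omega
    have h2 : (dep v + 1) * n ≤ dep u * n := Nat.mul_le_mul_right n h1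
    have h3 : dep v * n + n ≤ dep u * n := by rw [← Nat.succ_mul]; exact h2
    have h4 := v.2
    have h5 : dep u * n + u.1 < dep v * n + v.1 := huv
    omega
  refine ⟨rk, hrk, fun v hv => ?_⟩
  obtain ⟨X, hXc, hXrk, hX1, hX2⟩ := hv
  set t := top v with ht
  -- leaving the part below `t`
  have hleave : ∀ (w : Fin n) (s s' : ι), w ∈ B s → w ∈ B s' → t ∈ (P s).support →
      t ∉ (P s').support → w ∈ B t ∧ ∃ s'', w ∈ B s'' ∧ (P s'').length < (P t).length := by
    intro w s s' hs hs' hts hts'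
    have h3 : (T.induce {t | w ∈ B t}).Reachable ⟨s, hs⟩ ⟨s', hs'⟩ :=
      (hconn w).preconnected _ _
    rw [SimpleGraph.reachable_iff_reflTransGen] at h3
    have key : ∀ q : {t | w ∈ B t},
        Relation.ReflTransGen (T.induce {t | w ∈ B t}).Adj ⟨s, hs⟩ q →
        t ∈ (P q.1).support ∨
          (w ∈ B t ∧ ∃ s'', w ∈ B s'' ∧ (P s'').length < (P t).length) := by
      intro q hq
      induction hq with
      | refl => exact Or.inl hts
      | @tail x y _ hxy ih =>
        rcases ih with ih | ih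
        · by_cases hy : t ∈ (P y.1).support
          · exact Or.inl hy
          · right
            have hadj : T.Adj x.1 y.1 := hxy
            obtain ⟨h4, h5⟩ := tree_edge hT hP hadj ih hy
            rw [← h4]
            exact ⟨x.2, y.1, y.2, by omega⟩
        · exact Or.inr ih
    exact (key ⟨s', hs'⟩ h3).resolve_left hts'
  -- later vertices stay below `t`
  have hA : ∀ w : Fin n, dep v ≤ dep w → (∃ s, w ∈ B s ∧ t ∈ (P s).support) →
      ∀ s', w ∈ B s' → t ∈ (P s').support := by
    rintro w hw ⟨s, hs, hts⟩ s' hs'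
    by_contra hts'
    obtain ⟨_, s'', h4, h5⟩ := hleave w s s' hs hs' hts hts'
    have h6 := htop2 w s'' h4
    have h7 : (P t).length ≤ (P (top w)).length := hw
    omega
  have hB : ∀ x : Fin n, dep x ≤ dep v → (∃ s, x ∈ B s ∧ t ∈ (P s).support) → x ∈ B t := by
    rintro x hx ⟨s, hs, hts⟩
    by_cases htx : t ∈ (P (top x)).support
    · have h4 := tree_desc hT hP htx hx
      rw [← h4]
      exact htop1 x
    · exact (hleave x s (top x) hs (htop1 x) hts htx).1
  have hvall : ∀ s', v ∈ B s' → t ∈ (P s').support :=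
    hA v le_rfl ⟨t, htop1 v, SimpleGraph.Walk.end_mem_support _⟩
  have hadjv : ∀ a, G.Adj v a → ∃ s, a ∈ B s ∧ t ∈ (P s).support := by
    intro a ha
    obtain ⟨s, h1, h2⟩ := hedge v a ha
    exact ⟨s, h2, hvall s h1⟩
  have hlater : ∀ a b, rk v < rk a → G.Adj v a → Later G rk v a b →
      rk v < rk b ∧ ∀ s', b ∈ B s' → t ∈ (P s').support := by
    intro a b ha hva hab
    unfold Later at hab
    induction hab with
    | refl => exact ⟨ha, hA a (hdep _ _ ha) (hadjv a hva)⟩
    | @tail p q _ hpq ih =>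
      obtain ⟨_, ih2⟩ := ih
      obtain ⟨s, h1, h2⟩ := hedge p q hpq.1
      exact ⟨hpq.2, hA q (hdep _ _ hpq.2) ⟨s, h2, ih2 s h1⟩⟩
  have hXB : X ⊆ B t := by
    intro x hx
    have hdx := hdep _ _ (hXrk x hx)
    rcases hX2 x hx with h1 | ⟨a, ha, h1, ⟨b, hb, hbx⟩, _⟩
    · exact hB x hdx (hadjv x h1)
    · obtain ⟨_, h3⟩ := hlater a b ha h1 hb
      obtain ⟨s, h4, h5⟩ := hedge b x hbx
      exact hB x hdx ⟨s, h5, h3 s h4⟩
  have h9 := hbag t X hXB (by
    intro a ha b hb _
    exact hX1 a ha b hb)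
  omega

end tree

theorem goodOrder_of_class {d : ℕ} (h : GraphClass d G) : GoodOrder d G := by
  rcases h with h | h | h
  · exact goodOrder_of_starFree h
  · exact goodOrder_of_treeAlpha h
  · exact h

end Pool.Agent.CDH
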