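import Mathlib
import Pool.Agent.Lib.PolyTime.Lib
import Pool.Agent.CDom.StmtDefs
import Pool.Agent.CDom.Prog
import Pool.Agent.CDom.PT1
import Pool.Agent.CDom.Parse

/-!
# The programs of the reduction to hypergraph dualization (MP_6e88d0_lc)

Everything on lists of natural numbers.  Vertices of the graph are `0, .., n-1`; the `i`-th list of
length `k` over `{0, .., n}` is a possible core, its selector is the vertex `n + i` of the
hypergraph.
-/

set_option autoImplicit false

namespace Pool.Agent.CDH

open Pool.Agent.Lib.PT Pool.Agent.CDom Pool.Agent.CDom.Prog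

/-- all lists of length `k` over `{0, .., n}` -/
def tuples (n : ℕ) : ℕ → List (List ℕ)
  | 0 => [[]]
  | k + 1 => (tuples n k).flatMap fun P => (List.range (n + 1)).map fun a => a :: P

/-- the vertices in the `i`-th list -/
def core (n k i : ℕ) : List ℕ := ((tuples n k).getD i []).filter fun v => decide (v < n)

/-- nonempty and connected -/
def ok (g : Gr) (C : List ℕ) : Bool :=
  !C.isEmpty && C.all fun a => C.all fun b => mem b (reach g C a)

/-- neighbours of `C` outside `C` -/
def opt (g : Gr) (C : List ℕ) : List ℕ :=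
  (List.range g.1).filter fun v => !mem v C && C.any fun u => adj g u v

/-- the vertices which are not dominated by `C` -/
def und (g : Gr) (C : List ℕ) : List ℕ := (List.range g.1).filter fun u => !dom g C u

/-- the neighbours of `u` in `opt` -/
def clause (g : Gr) (C : List ℕ) (u : ℕ) : List ℕ := (opt g C).filter fun v => adj g v u

/-- hyperedges for the core `C` with selector `q` -/
def edgesC (g : Gr) (q : ℕ) (C : List ℕ) : List (List ℕ) :=
  bif ok g C then (und g C).map fun u => q :: clause g C u else [[q]]

/-- at most one selector is missing -/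
def pairs (n N : ℕ) : List (List ℕ) :=
  (List.range N).flatMap fun j => (List.range j).map fun i => [n + i, n + j]

/-- the hyperedges -/
def hypE (k : ℕ) (g : Gr) : List (List ℕ) :=
  pairs g.1 (tuples g.1 k).length ++
    (List.range (tuples g.1 k).length).flatMap fun i => edgesC g (g.1 + i) (core g.1 k i)

/-- the number of vertices of the hypergraph -/
def hypM (k : ℕ) (g : Gr) : ℕ := g.1 + (tuples g.1 k).length

/-- delete `v` -/
def del (Z : List ℕ) (v : ℕ) : List ℕ := Z.filter fun u => !decide (u = v)

/-- greedy minimalisation -/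
def greedy (g : Gr) (Z : List ℕ) : List ℕ :=
  (List.range g.1).foldl (fun Z v => bif cds g (del Z v) then del Z v else Z) Z

/-- the selectors missing in `X` -/
def missing (k : ℕ) (g : Gr) (X : List ℕ) : List ℕ :=
  (List.range (tuples g.1 k).length).filter fun i => !mem (g.1 + i) X

/-- the vertex set belonging to `X` and the missing selector `i` -/
def cand (k : ℕ) (g : Gr) (X : List ℕ) (i : ℕ) : List ℕ :=
  core g.1 k i ++ X.filter fun v => decide (v < g.1)

/-- the second map of the reduction -/
def psi (k : ℕ) (g : Gr) (X : List ℕ) : List (List ℕ) :=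
  bif !(missing k g X).isEmpty && cds g (cand k g X ((missing k g X).headD 0)) then
    [greedy g (cand k g X ((missing k g X).headD 0))]
  else []

/-- first map on words -/
def mapF (k : ℕ) (w : List Bool) : List Bool :=
  printL (hypM k (toGr (decM w))) (List.range (hypM k (toGr (decM w))) :: hypE k (toGr (decM w)))

/-- second map on words -/
def mapG (k : ℕ) (w : List Bool) : List Bool :=
  printL (toGr ((decM w).drop 1)).1
    (psi k (toGr ((decM w).drop 1)) (rowList ((decM w).headD [])))

/-! ### polynomial time -/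

section

variable {α : Type*} [Enc α]

theorem pt_tuples {n : α → ℕ} (hn : PolyTime n) (k : ℕ) : PolyTime (fun a => tuples (n a) k) := by
  induction k with
  | zero => exact PolyTime.const [[]]
  | succ k ih =>
    refine PolyTime.flatMap (f := fun a (P : List ℕ) =>
      (List.range (n a + 1)).map fun b => b :: P) ih ?_
    exact PolyTime.map (f := fun (q : α × List ℕ) (b : ℕ) => b :: q.2)
      (PolyTime.range (hn.comp PolyTime.id.fst).succ) (PolyTime.id.snd.cons PolyTime.id.fst.snd)

theorem pt_core {n i : α → ℕ} (hn : PolyTime n) (hi : PolyTime i) (k : ℕ) :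
    PolyTime (fun a => core (n a) k (i a)) := by
  unfold core
  exact PolyTime.filter (f := fun a (v : ℕ) => decide (v < n a))
    (PolyTime.getD (pt_tuples hn k) hi (PolyTime.const []))
    (PolyTime.lt PolyTime.id.snd (hn.comp PolyTime.id.fst))

theorem pt_ok {g : α → Gr} {C : α → List ℕ} (hg : PolyTime g) (hC : PolyTime C) :
    PolyTime (fun a => ok (g a) (C a)) := by
  unfold ok
  refine PolyTime.and hC.isEmpty.not ?_
  refine PolyTime.all (f := fun a (u : ℕ) => (C a).all fun b => mem b (reach (g a) (C a) u)) hC ?_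
  refine PolyTime.all (f := fun (q : α × ℕ) (b : ℕ) => mem b (reach (g q.1) (C q.1) q.2))
    (hC.comp PolyTime.id.fst) ?_
  exact pt_mem PolyTime.id.snd (pt_reach (hg.comp PolyTime.id.fst.fst)
    (hC.comp PolyTime.id.fst.fst) PolyTime.id.fst.snd)

theorem pt_opt {g : α → Gr} {C : α → List ℕ} (hg : PolyTime g) (hC : PolyTime C) :
    PolyTime (fun a => opt (g a) (C a)) := by
  unfold opt
  refine PolyTime.filter (f := fun a (v : ℕ) => !mem v (C a) && (C a).any fun u => adj (g a) u v)
    (PolyTime.range hg.fst) ?_
  refine PolyTime.and (pt_mem PolyTime.id.snd (hC.comp PolyTime.id.fst)).not ?_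
  exact PolyTime.any (f := fun (q : α × ℕ) u => adj (g q.1) u q.2) (hC.comp PolyTime.id.fst)
    (pt_adj (hg.comp PolyTime.id.fst.fst) PolyTime.id.snd PolyTime.id.fst.snd)

theorem pt_und {g : α → Gr} {C : α → List ℕ} (hg : PolyTime g) (hC : PolyTime C) :
    PolyTime (fun a => und (g a) (C a)) := by
  unfold und
  exact PolyTime.filter (f := fun a (u : ℕ) => !dom (g a) (C a) u) (PolyTime.range hg.fst)
    (pt_dom (hg.comp PolyTime.id.fst) (hC.comp PolyTime.id.fst) PolyTime.id.snd).not

theorem pt_clause {g : α → Gr} {C : α → List ℕ} {u : α → ℕ} (hg : PolyTime g) (hC : PolyTime C)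
    (hu : PolyTime u) : PolyTime (fun a => clause (g a) (C a) (u a)) := by
  unfold clause
  exact PolyTime.filter (f := fun a (v : ℕ) => adj (g a) v (u a)) (pt_opt hg hC)
    (pt_adj (hg.comp PolyTime.id.fst) PolyTime.id.snd (hu.comp PolyTime.id.fst))

theorem pt_edgesC {g : α → Gr} {C : α → List ℕ} {q : α → ℕ} (hg : PolyTime g) (hC : PolyTime C)
    (hq : PolyTime q) : PolyTime (fun a => edgesC (g a) (q a) (C a)) := by
  unfold edgesC
  refine PolyTime.cond (pt_ok hg hC) ?_ ((hq.cons (PolyTime.const [])).cons (PolyTime.const []))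
  refine PolyTime.map (f := fun a (u : ℕ) => q a :: clause (g a) (C a) u) (pt_und hg hC) ?_
  exact (hq.comp PolyTime.id.fst).cons
    (pt_clause (hg.comp PolyTime.id.fst) (hC.comp PolyTime.id.fst) PolyTime.id.snd)

theorem pt_pairs {n N : α → ℕ} (hn : PolyTime n) (hN : PolyTime N) :
    PolyTime (fun a => pairs (n a) (N a)) := by
  unfold pairs
  refine PolyTime.flatMap (f := fun a (j : ℕ) => (List.range j).map fun i => [n a + i, n a + j])
    hN.range ?_
  refine PolyTime.map (f := fun (q : α × ℕ) (i : ℕ) => [n q.1 + i, n q.1 + q.2])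
    PolyTime.id.snd.range ?_
  exact ((hn.comp PolyTime.id.fst.fst).add PolyTime.id.snd).cons
    (((hn.comp PolyTime.id.fst.fst).add PolyTime.id.fst.snd).cons (PolyTime.const []))

theorem pt_hypE {g : α → Gr} (hg : PolyTime g) (k : ℕ) : PolyTime (fun a => hypE k (g a)) := by
  unfold hypE
  have hN : PolyTime (fun a => (tuples (g a).1 k).length) := (pt_tuples hg.fst k).length
  refine PolyTime.append (pt_pairs hg.fst hN) ?_
  refine PolyTime.flatMap (f := fun a (i : ℕ) => edgesC (g a) ((g a).1 + i) (core (g a).1 k i))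
    hN.range ?_
  exact pt_edgesC (hg.comp PolyTime.id.fst) (pt_core (hg.fst.comp PolyTime.id.fst)
    PolyTime.id.snd k) ((hg.fst.comp PolyTime.id.fst).add PolyTime.id.snd)

theorem pt_hypM {g : α → Gr} (hg : PolyTime g) (k : ℕ) : PolyTime (fun a => hypM k (g a)) := by
  unfold hypM
  exact hg.fst.add (pt_tuples hg.fst k).length

theorem pt_del {Z : α → List ℕ} {v : α → ℕ} (hZ : PolyTime Z) (hv : PolyTime v) :
    PolyTime (fun a => del (Z a) (v a)) := by
  unfold del
  exact PolyTime.filter (f := fun a (u : ℕ) => !decide (u = v a)) hZ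
    (PolyTime.eqNat PolyTime.id.snd (hv.comp PolyTime.id.fst)).not

theorem pt_greedy {g : α → Gr} {Z : α → List ℕ} (hg : PolyTime g) (hZ : PolyTime Z) :
    PolyTime (fun a => greedy (g a) (Z a)) := by
  unfold greedy
  refine PolyTime.foldl_add' (f := fun a (Z : List ℕ) (v : ℕ) =>
    bif cds (g a) (del Z v) then del Z v else Z) hg.fst.range hZ ?_ ?_
  · exact PolyTime.cond (pt_cds (hg.comp PolyTime.id.fst)
      (pt_del PolyTime.id.snd.fst PolyTime.id.snd.snd))
      (pt_del PolyTime.id.snd.fst PolyTime.id.snd.snd) PolyTime.id.snd.fst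
  · refine ⟨0, fun a x y => ?_⟩
    rw [Polynomial.eval_zero, Nat.add_zero]
    cases h : cds (g a) (del x y)
    · exact le_rfl
    · exact sz_filter_le _ _

theorem pt_missing {g : α → Gr} {X : α → List ℕ} (hg : PolyTime g) (hX : PolyTime X) (k : ℕ) :
    PolyTime (fun a => missing k (g a) (X a)) := by
  unfold missing
  exact PolyTime.filter (f := fun a (i : ℕ) => !mem ((g a).1 + i) (X a))
    (pt_tuples hg.fst k).length.range
    (pt_mem ((hg.fst.comp PolyTime.id.fst).add PolyTime.id.snd) (hX.comp PolyTime.id.fst)).not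

theorem pt_cand {g : α → Gr} {X : α → List ℕ} {i : α → ℕ} (hg : PolyTime g) (hX : PolyTime X)
    (hi : PolyTime i) (k : ℕ) : PolyTime (fun a => cand k (g a) (X a) (i a)) := by
  unfold cand
  exact PolyTime.append (pt_core hg.fst hi k) (PolyTime.filter
    (f := fun a (v : ℕ) => decide (v < (g a).1)) hX
    (PolyTime.lt PolyTime.id.snd (hg.fst.comp PolyTime.id.fst)))

theorem pt_psi {g : α → Gr} {X : α → List ℕ} (hg : PolyTime g) (hX : PolyTime X) (k : ℕ) :
    PolyTime (fun a => psi k (g a) (X a)) := by
  unfold psi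
  have h1 := pt_missing hg hX k
  have h2 : PolyTime (fun a => cand k (g a) (X a) ((missing k (g a) (X a)).headD 0)) :=
    pt_cand hg hX (PolyTime.headD h1 (PolyTime.const 0)) k
  exact PolyTime.cond (PolyTime.and h1.isEmpty.not (pt_cds hg h2))
    ((pt_greedy hg h2).cons (PolyTime.const [])) (PolyTime.const [])

theorem pt_mapF (k : ℕ) : PolyTime (mapF k) := by
  unfold mapF
  have hg : PolyTime (fun w => toGr (decM w)) := pt_toGr.comp pt_decM
  have h1 : PolyTime (fun w => hypM k (toGr (decM w))) := pt_hypM hg k
  exact PolyTime.comp (g := fun q : ℕ × List (List ℕ) => printL q.1 q.2) pt_printL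
    (h1.pair (h1.range.cons (pt_hypE hg k)))

theorem pt_mapG (k : ℕ) : PolyTime (mapG k) := by
  unfold mapG
  have hg : PolyTime (fun w => toGr ((decM w).drop 1)) :=
    pt_toGr.comp (PolyTime.drop (PolyTime.const 1) pt_decM)
  have hX : PolyTime (fun w => rowList ((decM w).headD [])) :=
    pt_rowList (PolyTime.headD pt_decM (PolyTime.const []))
  exact PolyTime.comp (g := fun q : ℕ × List (List ℕ) => printL q.1 q.2) pt_printL
    (hg.fst.pair (pt_psi hg hX k))

end

end Pool.Agent.CDH
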