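import Mathlib
import Pool.Agent.CDom.Prog
import Pool.Agent.CDom.Spec1

/-!
# Selectors

A set `T` of vertices `0, .., n + N - 1` such that at most one of the selectors `n + i` is missing.
`R i Y` is a condition on the part `Y` of `T` below `n`, which has to hold if the selector `n + i`
is missing.
-/

set_option autoImplicit false

namespace Pool.Agent.CDH

open Finset Pool.Agent.CDom Pool.Agent.CDom.Prog

variable {n N : ℕ}

/-- the part below `n` -/
def VT (T : Finset (Fin (n + N))) : Finset (Fin n) :=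
  univ.filter fun v => Fin.castAdd N v ∈ T

theorem mem_VT {T : Finset (Fin (n + N))} {v : Fin n} : v ∈ VT T ↔ (v : ℕ) ∈ can T := by
  unfold VT
  rw [Finset.mem_filter, mem_can]
  constructor
  · intro h
    exact ⟨by omega, h.2⟩
  · rintro ⟨_, h⟩
    exact ⟨Finset.mem_univ _, h⟩

open Classical in
/-- all selectors but the `i`-th, and `Y` -/
noncomputable def tt (N i : ℕ) (Y : Finset (Fin n)) : Finset (Fin (n + N)) :=
  univ.filter fun x => (∃ h : (x : ℕ) < n, (⟨(x : ℕ), h⟩ : Fin n) ∈ Y) ∨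
    (n ≤ (x : ℕ) ∧ (x : ℕ) ≠ n + i)

theorem mem_tt {i : ℕ} {Y : Finset (Fin n)} {x : Fin (n + N)} : x ∈ tt N i Y ↔
    (∃ h : (x : ℕ) < n, (⟨(x : ℕ), h⟩ : Fin n) ∈ Y) ∨ (n ≤ (x : ℕ) ∧ (x : ℕ) ≠ n + i) := by
  classical
  unfold tt
  rw [Finset.mem_filter]
  exact ⟨fun h => h.2, fun h => ⟨Finset.mem_univ _, h⟩⟩

theorem can_tt_lo {i : ℕ} {Y : Finset (Fin n)} (v : Fin n) : (v : ℕ) ∈ can (tt N i Y) ↔ v ∈ Y := by
  rw [mem_can]
  constructor
  · rintro ⟨h, h1⟩
    rw [mem_tt] at h1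
    rcases h1 with ⟨_, h1⟩ | ⟨h1, _⟩
    · exact h1
    · exact absurd v.2 (not_lt.2 h1)
  · intro h
    refine ⟨by omega, ?_⟩
    rw [mem_tt]
    exact Or.inl ⟨v.2, h⟩

theorem can_tt_hi {i j : ℕ} {Y : Finset (Fin n)} (hj : j < N) :
    n + j ∈ can (tt N i Y) ↔ j ≠ i := by
  rw [mem_can]
  constructor
  · rintro ⟨h, h1⟩
    rw [mem_tt] at h1
    rcases h1 with ⟨h2, _⟩ | ⟨_, h1⟩
    · have : n + j < n := h2
      omega
    · intro hji
      have h3 : n + j = n + i := by omega
      exact h1 h3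
  · intro h
    refine ⟨by omega, ?_⟩
    rw [mem_tt]
    refine Or.inr ⟨?_, ?_⟩
    · show n ≤ n + j
      omega
    · show n + j ≠ n + i
      omega

theorem eq_of_can {T T' : Finset (Fin (n + N))}
    (h1 : ∀ v : Fin n, (v : ℕ) ∈ can T ↔ (v : ℕ) ∈ can T')
    (h2 : ∀ j < N, n + j ∈ can T ↔ n + j ∈ can T') : T = T' := by
  have key : ∀ x : Fin (n + N), (x : ℕ) ∈ can T ↔ (x : ℕ) ∈ can T' := by
    intro x
    by_cases hx : (x : ℕ) < n
    · exact h1 ⟨x, hx⟩
    · have h3 := h2 ((x : ℕ) - n) (by omega)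
      rwa [show n + ((x : ℕ) - n) = (x : ℕ) by omega] at h3
  ext x
  have hk := key x
  rw [mem_can, mem_can] at hk
  constructor
  · intro h
    obtain ⟨_, h⟩ := hk.1 ⟨x.2, h⟩
    exact h
  · intro h
    obtain ⟨_, h⟩ := hk.2 ⟨x.2, h⟩
    exact h

theorem subset_of_can {T T' : Finset (Fin (n + N))}
    (h1 : ∀ v : Fin n, (v : ℕ) ∈ can T → (v : ℕ) ∈ can T')
    (h2 : ∀ j < N, n + j ∈ can T → n + j ∈ can T') : T ⊆ T' := by
  intro x hx
  have hk : (x : ℕ) ∈ can T → (x : ℕ) ∈ can T' := by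
    by_cases hxn : (x : ℕ) < n
    · exact h1 ⟨x, hxn⟩
    · have h3 := h2 ((x : ℕ) - n) (by omega)
      rwa [show n + ((x : ℕ) - n) = (x : ℕ) by omega] at h3
  rw [mem_can, mem_can] at hk
  obtain ⟨_, h⟩ := hk ⟨x.2, hx⟩
  exact h

theorem can_subset {T T' : Finset (Fin (n + N))} (h : T' ⊆ T) {x : ℕ} (hx : x ∈ can T') :
    x ∈ can T := by
  rw [mem_can] at hx ⊢
  obtain ⟨h1, h2⟩ := hx
  exact ⟨h1, h h2⟩

theorem VT_tt {i : ℕ} {Y : Finset (Fin n)} : VT (tt N i Y) = Y := by
  ext v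
  rw [mem_VT, can_tt_lo]

/-- transversals -/
def TrQ (R : ℕ → Finset (Fin n) → Prop) (T : Finset (Fin (n + N))) : Prop :=
  (∀ j < N, ∀ i < j, n + i ∈ can T ∨ n + j ∈ can T) ∧ ∀ i < N, n + i ∈ can T ∨ R i (VT T)

variable {R : ℕ → Finset (Fin n) → Prop}

theorem min_struct {T : Finset (Fin (n + N))} (h : TrQ R T) (hm : ∀ T', T' ⊂ T → ¬ TrQ R T') :
    T = tt N N ∅ ∨ ∃ i < N, ∃ Y, T = tt N i Y ∧ R i Y ∧ ∀ Y', Y' ⊂ Y → ¬ R i Y' := by
  by_cases hall : ∀ j < N, n + j ∈ can T
  · left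
    have h1 : tt N N ∅ ⊆ T := by
      refine subset_of_can (fun v hv => ?_) (fun j hj _ => hall j hj)
      rw [can_tt_lo] at hv
      exact absurd hv (Finset.notMem_empty v)
    have h2 : TrQ R (tt N N (∅ : Finset (Fin n))) := by
      refine ⟨fun j hj i hi => Or.inl ?_, fun i hi => Or.inl ?_⟩
      · rw [can_tt_hi (by omega)]
        omega
      · rw [can_tt_hi hi]
        omega
    by_contra hne
    exact hm _ (Finset.ssubset_iff_subset_ne.2 ⟨h1, fun e => hne e.symm⟩) h2
  · right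
    push Not at hall
    obtain ⟨i, hi, hiT⟩ := hall
    have hj : ∀ j < N, j ≠ i → n + j ∈ can T := by
      intro j hj hji
      rcases Nat.lt_or_gt_of_ne hji with hlt | hgt
      · exact (h.1 i hi j hlt).resolve_right hiT
      · exact (h.1 j hj i hgt).resolve_left hiT
    refine ⟨i, hi, VT T, ?_, (h.2 i hi).resolve_left hiT, ?_⟩
    · refine eq_of_can (fun v => ?_) (fun j hjN => ?_)
      · rw [can_tt_lo, mem_VT]
      · rw [can_tt_hi hjN]
        constructor
        · rintro h1 rfl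
          exact hiT h1
        · exact hj j hjN
    · intro Y' hY' hR
      refine hm (tt N i Y') ?_ ?_
      · refine Finset.ssubset_iff_subset_ne.2 ⟨?_, ?_⟩
        · refine subset_of_can (fun v hv => ?_) (fun j hjN hjT => ?_)
          · rw [can_tt_lo] at hv
            exact mem_VT.1 (hY'.1 hv)
          · rw [can_tt_hi hjN] at hjT
            exact hj j hjN hjT
        · intro e
          have h2 : VT (tt N i Y') = VT T := by rw [e]
          rw [VT_tt] at h2
          exact hY'.ne h2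
      · refine ⟨fun j hjN l hl => ?_, fun j hjN => ?_⟩
        · rw [can_tt_hi hjN, can_tt_hi (hl.trans hjN)]
          omega
        · by_cases hji : j = i
          · subst hji
            right
            rw [VT_tt]
            exact hR
          · left
            rw [can_tt_hi hjN]
            exact hji

theorem min_of {i : ℕ} (hi : i < N) {Y : Finset (Fin n)} (hR : R i Y)
    (hm : ∀ Y', Y' ⊂ Y → ¬ R i Y') :
    TrQ R (tt N i Y) ∧ ∀ T', T' ⊂ tt N i Y → ¬ TrQ R T' := by
  refine ⟨⟨fun j hjN l hl => ?_, fun j hjN => ?_⟩, ?_⟩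
  · rw [can_tt_hi hjN, can_tt_hi (hl.trans hjN)]
    omega
  · by_cases hji : j = i
    · subst hji
      right
      rw [VT_tt]
      exact hR
    · left
      rw [can_tt_hi hjN]
      exact hji
  · intro T' hT' hTr
    have hiT : n + i ∉ can T' := by
      intro h
      have h1 := can_subset hT'.1 h
      rw [can_tt_hi hi] at h1
      exact h1 rfl
    have hj : ∀ j < N, j ≠ i → n + j ∈ can T' := by
      intro j hj hji
      rcases Nat.lt_or_gt_of_ne hji with hlt | hgt
      · exact (hTr.1 i hi j hlt).resolve_right hiT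
      · exact (hTr.1 j hj i hgt).resolve_left hiT
    have hRT := (hTr.2 i hi).resolve_left hiT
    have hsub : VT T' ⊆ Y := by
      intro v hv
      have h1 := can_subset hT'.1 (mem_VT.1 hv)
      rwa [can_tt_lo] at h1
    have heq : VT T' = Y := by
      by_contra hne
      exact hm _ (Finset.ssubset_iff_subset_ne.2 ⟨hsub, hne⟩) hRT
    refine hT'.ne (eq_of_can (fun v => ?_) (fun j hjN => ?_))
    · rw [can_tt_lo, ← mem_VT, heq]
    · rw [can_tt_hi hjN]
      constructor
      · rintro h1 rfl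
        exact hiT h1
      · exact hj j hjN

end Pool.Agent.CDH
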