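import Mathlib
import Pool.Agent.CDom.Defs
import Pool.Agent.CDom.Basic
import Pool.Agent.CDom.Prog
import Pool.Agent.CDom.Spec1
import Pool.Agent.CDH.Stmt
import Pool.Agent.CDH.Prog
import Pool.Agent.CDH.Sel

/-!
# The hypergraph of the reduction and its minimal transversals
-/

set_option autoImplicit false

namespace Pool.Agent.CDH

open Finset Pool.Agent.CDom Pool.Agent.CDom.Prog

variable {n : ℕ} {G : SimpleGraph (Fin n)} {E : List (ℕ × ℕ)}

/-! ### tuples -/

theorem tuples_spec (n k : ℕ) : (tuples n k).length = (n + 1) ^ k ∧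
    ∀ P : List ℕ, P ∈ tuples n k ↔ P.length = k ∧ ∀ a ∈ P, a ≤ n := by
  induction k with
  | zero =>
    refine ⟨rfl, fun P => ?_⟩
    show P ∈ [[]] ↔ _
    rw [List.mem_singleton]
    constructor
    · rintro rfl
      exact ⟨rfl, fun a ha => absurd ha List.not_mem_nil⟩
    · rintro ⟨h1, _⟩
      exact List.length_eq_zero_iff.1 h1
  | succ k ih =>
    obtain ⟨ih1, ih2⟩ := ih
    have e : tuples n (k + 1) = (tuples n k).flatMap fun P =>
        (List.range (n + 1)).map fun a => a :: P := rfl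
    have hlen : ((tuples n k).flatMap fun P =>
        (List.range (n + 1)).map fun a => a :: P).length = (n + 1) ^ (k + 1) := by
      rw [List.length_flatMap]
      have e2 : (List.map (fun P : List ℕ => ((List.range (n + 1)).map fun a => a :: P).length)
          (tuples n k)) = List.replicate (tuples n k).length (n + 1) := by
        rw [List.eq_replicate_iff]
        refine ⟨List.length_map _, fun b hb => ?_⟩
        rw [List.mem_map] at hb
        obtain ⟨P, _, rfl⟩ := hb
        rw [List.length_map, List.length_range]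
      rw [e2, List.sum_replicate, ih1, smul_eq_mul, pow_succ]
    refine ⟨by rw [e, hlen], fun P => ?_⟩
    rw [e, List.mem_flatMap]
    constructor
    · rintro ⟨Q, hQ, hP⟩
      rw [List.mem_map] at hP
      obtain ⟨a, ha, rfl⟩ := hP
      rw [List.mem_range] at ha
      obtain ⟨h2, h3⟩ := (ih2 Q).1 hQ
      refine ⟨by rw [List.length_cons, h2], fun b hb => ?_⟩
      rw [List.mem_cons] at hb
      rcases hb with rfl | hb
      · omega
      · exact h3 b hb
    · rintro ⟨h2, h3⟩
      rcases P with _ | ⟨a, Q⟩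
      · simp at h2
      · rw [List.length_cons] at h2
        refine ⟨Q, (ih2 Q).2 ⟨by omega, fun b hb => h3 b (List.mem_cons_of_mem _ hb)⟩, ?_⟩
        rw [List.mem_map]
        refine ⟨a, ?_, rfl⟩
        rw [List.mem_range]
        have := h3 a List.mem_cons_self
        omega

theorem core_lt (n k i : ℕ) : ∀ x ∈ core n k i, x < n := by
  intro x hx
  unfold core at hx
  rw [List.mem_filter, decide_eq_true_eq] at hx
  exact hx.2

theorem exists_core (k : ℕ) (C : Finset (Fin n)) (hC : C.card ≤ k) :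
    ∃ i < (tuples n k).length, S n (core n k i) = C := by
  have h1 : ((can C) ++ List.replicate (k - (can C).length) n) ∈ tuples n k := by
    rw [(tuples_spec n k).2]
    have hlen : (can C).length ≤ k := by
      have hnd : (can C).Nodup := List.nodup_range.filter _
      have e1 : (can C).toFinset = C.map Fin.valEmbedding := by
        ext x
        rw [List.mem_toFinset, mem_can, Finset.mem_map]
        constructor
        · rintro ⟨h, hx⟩
          exact ⟨⟨x, h⟩, hx, rfl⟩
        · rintro ⟨v, hv, rfl⟩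
          exact ⟨v.2, hv⟩
      rw [← List.toFinset_card_of_nodup hnd, e1, Finset.card_map]
      exact hC
    refine ⟨?_, ?_⟩
    · rw [List.length_append, List.length_replicate]
      omega
    · intro a ha
      rw [List.mem_append, List.mem_replicate] at ha
      rcases ha with ha | ⟨_, rfl⟩
      · exact (mem_can_lt ha).le
      · exact le_rfl
  obtain ⟨i, hi, he⟩ := List.getElem_of_mem h1
  refine ⟨i, hi, ?_⟩
  ext v
  rw [mem_S]
  unfold core
  rw [List.getD_eq_getElem _ _ hi, he, List.mem_filter, List.mem_append, List.mem_replicate,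
    decide_eq_true_eq, mem_can]
  have := v.2
  constructor
  · rintro ⟨⟨_, h⟩ | ⟨_, h⟩, _⟩
    · exact h
    · omega
  · intro h
    exact ⟨Or.inl ⟨v.2, h⟩, v.2⟩

/-! ### cores and clauses -/

/-- nonempty and connected -/
def OkC (G : SimpleGraph (Fin n)) (C : Finset (Fin n)) : Prop :=
  C.Nonempty ∧ ∀ a ∈ C, ∀ b ∈ C, Conn G C a b

/-- the neighbours of `C` outside `C` -/
def PC (G : SimpleGraph (Fin n)) (C : Finset (Fin n)) (v : Fin n) : Prop :=
  v ∉ C ∧ ∃ u ∈ C, G.Adj u v

theorem ok_spec (hE : IsRep G E) (C : List ℕ) (hC : ∀ x ∈ C, x < n) :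
    ok (n, E) C = true ↔ OkC G (S n C) := by
  unfold ok OkC
  rw [Bool.and_eq_true, Bool.not_eq_true', List.all_eq_true]
  refine and_congr ?_ ?_
  · constructor
    · intro h
      rw [List.isEmpty_eq_false_iff] at h
      obtain ⟨x, hx⟩ := List.exists_mem_of_ne_nil C h
      exact ⟨⟨x, hC x hx⟩, mem_S.2 hx⟩
    · rintro ⟨v, hv⟩
      rw [List.isEmpty_eq_false_iff]
      exact List.ne_nil_of_mem (mem_S.1 hv)
  · constructor
    · intro h a ha b hb
      have h1 := h a (mem_S.1 ha)
      rw [List.all_eq_true] at h1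
      have h2 := h1 b (mem_S.1 hb)
      rw [mem_iff, reach_spec hE] at h2
      exact h2
    · intro h a ha
      rw [List.all_eq_true]
      intro b hb
      rw [mem_iff]
      exact (reach_spec hE C ⟨a, hC a ha⟩ ⟨b, hC b hb⟩).2
        (h ⟨a, hC a ha⟩ (mem_S.2 ha) ⟨b, hC b hb⟩ (mem_S.2 hb))

theorem opt_spec (hE : IsRep G E) (C : List ℕ) (hC : ∀ x ∈ C, x < n) (v : ℕ) :
    v ∈ opt (n, E) C ↔ ∃ h : v < n, PC G (S n C) ⟨v, h⟩ := by
  unfold opt PC
  rw [List.mem_filter, List.mem_range, Bool.and_eq_true, Bool.not_eq_true', Bool.eq_false_iff,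
    ne_eq, mem_iff, List.any_eq_true]
  constructor
  · rintro ⟨h, h1, u, hu, h2⟩
    exact ⟨h, fun h3 => h1 (mem_S.1 h3), ⟨u, hC u hu⟩, mem_S.2 hu,
      (hE ⟨u, hC u hu⟩ ⟨v, h⟩).1 h2⟩
  · rintro ⟨h, h1, u, hu, h2⟩
    exact ⟨h, fun h3 => h1 (mem_S.2 h3), u, mem_S.1 hu, (hE u ⟨v, h⟩).2 h2⟩

theorem und_spec (hE : IsRep G E) (C : List ℕ) (hC : ∀ x ∈ C, x < n) (u : ℕ) :
    u ∈ und (n, E) C ↔ ∃ h : u < n, ¬ Dom G (S n C) ⟨u, h⟩ := by
  unfold und
  rw [List.mem_filter, List.mem_range, Bool.not_eq_true', Bool.eq_false_iff, ne_eq]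
  constructor
  · rintro ⟨h, h1⟩
    exact ⟨h, fun h2 => h1 ((dom_spec hE C hC ⟨u, h⟩).2 h2)⟩
  · rintro ⟨h, h1⟩
    exact ⟨h, fun h2 => h1 ((dom_spec hE C hC ⟨u, h⟩).1 h2)⟩

/-- the condition belonging to the core `C`: it is ok and `Y` meets all clauses -/
def RC (G : SimpleGraph (Fin n)) (C : Finset (Fin n)) (Y : Finset (Fin n)) : Prop :=
  OkC G C ∧ ∀ u, ¬ Dom G C u → ∃ v ∈ Y, PC G C v ∧ G.Adj v u

theorem inter_nonempty {m : ℕ} (e : List ℕ) (T : Finset (Fin m)) :
    (S m e ∩ T).Nonempty ↔ ∃ x ∈ e, x ∈ can T := by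
  constructor
  · rintro ⟨x, hx⟩
    rw [Finset.mem_inter, mem_S] at hx
    exact ⟨x, hx.1, mem_can.2 ⟨x.2, hx.2⟩⟩
  · rintro ⟨x, hx, hT⟩
    obtain ⟨h, hT⟩ := mem_can.1 hT
    exact ⟨⟨x, h⟩, Finset.mem_inter.2 ⟨mem_S.2 hx, hT⟩⟩

theorem edgesC_spec (hE : IsRep G E) {N : ℕ} (C : List ℕ) (hC : ∀ x ∈ C, x < n) (q : ℕ)
    (T : Finset (Fin (n + N))) :
    (∀ e ∈ edgesC (n, E) q C, ∃ x ∈ e, x ∈ can T) ↔ q ∈ can T ∨ RC G (S n C) (VT T) := by
  unfold edgesC RC
  by_cases hok : ok (n, E) C = true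
  · rw [hok, cond_true]
    have hok' := (ok_spec hE C hC).1 hok
    constructor
    · intro h
      by_cases hq : q ∈ can T
      · exact Or.inl hq
      · refine Or.inr ⟨hok', fun u hu => ?_⟩
        have h1 : (u : ℕ) ∈ und (n, E) C := (und_spec hE C hC u).2 ⟨u.2, hu⟩
        obtain ⟨x, hx, hxT⟩ := h _ (List.mem_map.2 ⟨u, h1, rfl⟩)
        rw [List.mem_cons] at hx
        rcases hx with rfl | hx
        · exact absurd hxT hq
        · unfold clause at hx
          rw [List.mem_filter, opt_spec hE C hC] at hx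
          obtain ⟨⟨hxn, hp⟩, hadj⟩ := hx
          exact ⟨⟨x, hxn⟩, mem_VT.2 hxT, hp, (hE ⟨x, hxn⟩ u).1 hadj⟩
    · intro h e he
      rw [List.mem_map] at he
      obtain ⟨u, hu, rfl⟩ := he
      rcases h with h | ⟨_, h⟩
      · exact ⟨q, List.mem_cons_self, h⟩
      · obtain ⟨hun, hu'⟩ := (und_spec hE C hC u).1 hu
        obtain ⟨v, hv, hp, hadj⟩ := h ⟨u, hun⟩ hu'
        refine ⟨v, List.mem_cons_of_mem _ ?_, mem_VT.1 hv⟩
        unfold clause
        rw [List.mem_filter, opt_spec hE C hC]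
        exact ⟨⟨v.2, hp⟩, (hE v ⟨u, hun⟩).2 hadj⟩
  · have hok' : ¬ OkC G (S n C) := fun h => hok ((ok_spec hE C hC).2 h)
    rw [Bool.not_eq_true] at hok
    rw [hok, cond_false]
    constructor
    · intro h
      obtain ⟨x, hx, hxT⟩ := h [q] (List.mem_singleton.2 rfl)
      rw [List.mem_singleton] at hx
      rw [hx] at hxT
      exact Or.inl hxT
    · rintro (h | ⟨h, _⟩)
      · intro e he
        rw [List.mem_singleton] at he
        subst he
        exact ⟨q, List.mem_singleton.2 rfl, h⟩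
      · exact absurd h hok'

/-- the hyperedges as sets -/
def hypS (k : ℕ) (g : Gr) : List (Finset (Fin (hypM k g))) := (hypE k g).map (S (hypM k g))

theorem isTr_iff (hE : IsRep G E) (k : ℕ) (T : Finset (Fin (n + (tuples n k).length))) :
    IsTr (m := n + (tuples n k).length) (hypS k (n, E)) T ↔
      TrQ (fun i Y => RC G (S n (core n k i)) Y) T := by
  unfold IsTr hypS TrQ
  constructor
  · intro h
    have h' : ∀ e ∈ hypE k (n, E), ∃ x ∈ e, x ∈ can T := fun e he =>
      (inter_nonempty e T).1 (h _ (List.mem_map.2 ⟨e, he, rfl⟩))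
    refine ⟨fun j hj i hi => ?_, fun i hi => ?_⟩
    · have he : [n + i, n + j] ∈ hypE k (n, E) := by
        unfold hypE pairs
        rw [List.mem_append]
        left
        rw [List.mem_flatMap]
        refine ⟨j, List.mem_range.2 hj, ?_⟩
        rw [List.mem_map]
        exact ⟨i, List.mem_range.2 hi, rfl⟩
      obtain ⟨x, hx, hxT⟩ := h' _ he
      rw [List.mem_cons, List.mem_singleton] at hx
      rcases hx with rfl | rfl
      · exact Or.inl hxT
      · exact Or.inr hxT
    · rw [← edgesC_spec hE _ (core_lt n k i)]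
      intro e he
      refine h' e ?_
      unfold hypE
      rw [List.mem_append]
      right
      rw [List.mem_flatMap]
      exact ⟨i, List.mem_range.2 hi, he⟩
  · rintro ⟨h1, h2⟩ e' he'
    obtain ⟨e, he, rfl⟩ := List.mem_map.1 he'
    clear he'
    refine (inter_nonempty e T).2 ?_
    unfold hypE at he
    rw [List.mem_append] at he
    rcases he with he | he
    · unfold pairs at he
      rw [List.mem_flatMap] at he
      obtain ⟨j, hj, he⟩ := he
      rw [List.mem_map] at he
      obtain ⟨i, hi, rfl⟩ := he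
      rw [List.mem_range] at hj hi
      rcases h1 j hj i hi with h | h
      · exact ⟨n + i, List.mem_cons_self, h⟩
      · exact ⟨n + j, List.mem_cons_of_mem _ List.mem_cons_self, h⟩
    · rw [List.mem_flatMap] at he
      obtain ⟨i, hi, he⟩ := he
      rw [List.mem_range] at hi
      exact (edgesC_spec hE _ (core_lt n k i) (n + i) T).2 (h2 i hi) e he

theorem isMinTr_iff (hE : IsRep G E) (k : ℕ) (T : Finset (Fin (n + (tuples n k).length))) :
    IsMinTr (m := n + (tuples n k).length) (hypS k (n, E)) T ↔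
      TrQ (fun i Y => RC G (S n (core n k i)) Y) T ∧
        ∀ T', T' ⊂ T → ¬ TrQ (fun i Y => RC G (S n (core n k i)) Y) T' := by
  unfold IsMinTr
  rw [isTr_iff hE]
  refine and_congr Iff.rfl (forall_congr' fun T' => ?_)
  rw [isTr_iff hE]

end Pool.Agent.CDH
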