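import Mathlib
import Pool.Agent.CDom.Defs
import Pool.Agent.CDom.Basic
import Pool.Agent.CDH.Connect
import Pool.Agent.CDH.Spec

/-!
# Graph classes whose minimal connected dominating sets have small cores
-/

set_option autoImplicit false

namespace Pool.Agent.CDH

open Finset Pool.Agent.CDom

variable {n : ℕ} {G : SimpleGraph (Fin n)}

theorem okC_of_connected {C : Finset (Fin n)} (h2 : (G.induce (C : Set (Fin n))).Connected) :
    OkC G C := by
  have hne : C.Nonempty := by
    obtain ⟨x⟩ := h2.nonempty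
    exact ⟨x.1, x.2⟩
  refine ⟨hne, ?_⟩
  intro a ha b hb
  have h3 : (G.induce (C : Set (Fin n))).Reachable ⟨a, ha⟩ ⟨b, hb⟩ := h2.preconnected _ _
  rw [SimpleGraph.reachable_iff_reflTransGen] at h3
  exact Relation.ReflTransGen.lift (p := fun x y => G.Adj x y ∧ y ∈ C)
    (fun x : (C : Set (Fin n)) => x.1)
    (fun x y hxy => ⟨hxy, y.2⟩) _ _ h3

/-- a maximal independent subset -/
theorem exists_max_indep (G : SimpleGraph (Fin n)) (X : Finset (Fin n)) :
    ∃ I ⊆ X, (∀ a ∈ I, ∀ b ∈ I, ¬ G.Adj a b) ∧ ∀ x ∈ X, x ∉ I → ∃ i ∈ I, G.Adj i x := by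
  classical
  let F : Finset (Finset (Fin n)) := X.powerset.filter fun I => ∀ a ∈ I, ∀ b ∈ I, ¬ G.Adj a b
  have hF : F.Nonempty := by
    refine ⟨∅, ?_⟩
    rw [Finset.mem_filter]
    exact ⟨Finset.empty_mem_powerset X, fun a ha => absurd ha (Finset.notMem_empty a)⟩
  obtain ⟨I, hI, hmax⟩ := Finset.exists_max_image F Finset.card hF
  rw [Finset.mem_filter, Finset.mem_powerset] at hI
  refine ⟨I, hI.1, hI.2, fun x hx hxI => ?_⟩
  by_contra hcon
  push Not at hcon
  have h1 : insert x I ∈ F := by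
    rw [Finset.mem_filter, Finset.mem_powerset]
    refine ⟨Finset.insert_subset hx hI.1, ?_⟩
    intro a ha b hb
    rw [Finset.mem_insert] at ha hb
    rcases ha with rfl | ha
    · rcases hb with rfl | hb
      · exact G.loopless.irrefl _
      · exact fun h => hcon b hb h.symm
    · rcases hb with rfl | hb
      · exact hcon a ha
      · exact hI.2 a ha b hb
  have h2 := hmax _ h1
  rw [Finset.card_insert_of_notMem hxI] at h2
  omega

theorem core_of_indep {d : ℕ} (hd : G.indepNum ≤ d) {D : Finset (Fin n)} (hD : MinCDS G D) :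
    ∃ C ⊆ D, OkC G C ∧ C.card ≤ 3 * d ∧ ∀ v ∈ D, Dom G C v := by
  obtain ⟨I, hID, hI, hmax⟩ := exists_max_indep G D
  have hcard : I.card ≤ d := by
    refine le_trans ?_ hd
    refine SimpleGraph.IsIndepSet.card_le_indepNum (t := I) ?_
    intro a ha b hb _
    exact hI a ha b hb
  have hne : I.Nonempty := by
    obtain ⟨x, hx⟩ := hD.1.1
    by_cases hxI : x ∈ I
    · exact ⟨x, hxI⟩
    · obtain ⟨i, hi, _⟩ := hmax x hx hxI
      exact ⟨i, hi⟩
  have hpos := Finset.card_pos.2 hne
  obtain ⟨C', h1, h2, h3, j, hj, h4, h5⟩ := connect (G := G) (S := ∅) (X := D)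
    (by
      rw [Finset.empty_union]
      exact hD.1.2.2) (I.card - 1) I I (by omega) hID (by rw [Finset.empty_union])
    (by
      intro x hx hxI _
      obtain ⟨i, hi, h⟩ := hmax x hx hxI
      exact ⟨i, hi, i, Relation.ReflTransGen.refl, h⟩)
  rw [Finset.empty_union] at h4 h5
  have hjC : j ∈ C' := h1 hj
  have hall : ∀ a ∈ C', Conn G C' j a := by
    intro a ha
    by_cases haI : a ∈ I
    · exact h4 a haI
    · obtain ⟨i, hi, h⟩ := hmax a (h2 ha) haI
      exact Relation.ReflTransGen.tail (h4 i hi) ⟨h, ha⟩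
  refine ⟨C', h2, ⟨⟨j, hjC⟩, ?_⟩, by omega, ?_⟩
  · intro a ha b hb
    exact conn_trans (conn_symm hjC (hall a ha)) (hall b hb)
  · intro v hv
    by_cases hvC : v ∈ C'
    · exact Or.inl hvC
    · obtain ⟨a, ha, hav⟩ := h5 v hv hvC (Finset.notMem_empty v)
      exact Or.inr ⟨a, conn_mem hjC ha, hav⟩

end Pool.Agent.CDH
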