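import Mathlib
import Pool.Agent.CDom.StmtDefs
import Pool.Agent.CDom.Defs
import Pool.Agent.CDom.Basic
import Pool.Agent.CDom.Prog
import Pool.Agent.CDom.Spec1
import Pool.Agent.CDH.Stmt
import Pool.Agent.CDH.Spec

/-!
# The co-bipartite graph of a hypergraph

Vertices `0, .., m - 1`: vertices of the hypergraph `(m, E)`; `m`: a new vertex which forms a new
hyperedge; `m + 1`: a vertex adjacent to `0, .., m` only; `m + 2 + j`: the `j`-th member of
`[m] :: E`.  Both parts are cliques.  The minimal connected dominating sets are the sets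
`T ∪ {m}`, `T` a minimal transversal, and certain sets with two elements.
-/

set_option autoImplicit false

namespace Pool.Agent.CDH

open Finset Pool.Agent.CDom Pool.Agent.CDom.Prog

/-- both parts are cliques -/
def CoBip {n : ℕ} (G : SimpleGraph (Fin n)) : Prop :=
  ∃ A : Finset (Fin n), (∀ x ∈ A, ∀ y ∈ A, x ≠ y → G.Adj x y) ∧
    ∀ x, x ∉ A → ∀ y, y ∉ A → x ≠ y → G.Adj x y

/-- incidence test: `i` is in the `j`-th member of `[m] :: E` -/
def inc (m : ℕ) (E : List (List ℕ)) (i j : ℕ) : Bool :=
  decide (i < m + 1) && (decide (m + 2 ≤ j) && mem i (([m] :: E).getD (j - (m + 2)) []))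

/-- adjacency test of the co-bipartite graph -/
def adjB (m : ℕ) (E : List (List ℕ)) (i j : ℕ) : Bool :=
  !decide (i = j) && ((decide (i < m + 2) && decide (j < m + 2)) ||
    ((decide (m + 2 ≤ i) && decide (m + 2 ≤ j)) || (inc m E i j || inc m E j i)))

theorem adjB_comm (m : ℕ) (E : List (List ℕ)) (i j : ℕ) : adjB m E i j = adjB m E j i := by
  unfold adjB
  have h1 : decide (i = j) = decide (j = i) := by
    rw [decide_eq_decide]
    exact eq_comm
  rw [h1, Bool.and_comm (decide (i < m + 2)), Bool.and_comm (decide (m + 2 ≤ i)),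
    Bool.or_comm (inc m E i j)]

/-- number of vertices -/
def coN (m : ℕ) (E : List (List ℕ)) : ℕ := m + 3 + E.length

/-- the co-bipartite graph -/
def coG (m : ℕ) (E : List (List ℕ)) : SimpleGraph (Fin (coN m E)) where
  Adj i j := adjB m E i j = true
  symm := ⟨fun i j h => by rw [adjB_comm]; exact h⟩
  loopless := ⟨fun i h => by simp [adjB] at h⟩

variable {m : ℕ} {E : List (List ℕ)}

theorem coG_adj {i j : Fin (coN m E)} : (coG m E).Adj i j ↔ i ≠ j ∧
    (((i : ℕ) < m + 2 ∧ (j : ℕ) < m + 2) ∨ (m + 2 ≤ (i : ℕ) ∧ m + 2 ≤ (j : ℕ)) ∨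
      inc m E i j = true ∨ inc m E j i = true) := by
  show adjB m E i j = true ↔ _
  unfold adjB
  rw [Bool.and_eq_true, Bool.not_eq_true', decide_eq_false_iff_not, Bool.or_eq_true,
    Bool.or_eq_true, Bool.or_eq_true, Bool.and_eq_true, Bool.and_eq_true, decide_eq_true_eq,
    decide_eq_true_eq, decide_eq_true_eq, decide_eq_true_eq, ne_eq, Fin.ext_iff]

theorem inc_lt {i j : ℕ} (h : inc m E i j = true) : i < m + 1 ∧ m + 2 ≤ j := by
  unfold inc at h
  rw [Bool.and_eq_true, Bool.and_eq_true, decide_eq_true_eq, decide_eq_true_eq] at h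
  exact ⟨h.1, h.2.1⟩

theorem coBip_coG : CoBip (coG m E) := by
  classical
  refine ⟨univ.filter fun i => (i : ℕ) < m + 2, ?_, ?_⟩
  · intro x hx y hy hxy
    rw [Finset.mem_filter] at hx hy
    exact coG_adj.2 ⟨hxy, Or.inl ⟨hx.2, hy.2⟩⟩
  · intro x hx y hy hxy
    have hx' : m + 2 ≤ (x : ℕ) := by
      by_contra h
      exact hx (Finset.mem_filter.2 ⟨Finset.mem_univ _, by omega⟩)
    have hy' : m + 2 ≤ (y : ℕ) := by
      by_contra h
      exact hy (Finset.mem_filter.2 ⟨Finset.mem_univ _, by omega⟩)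
    exact coG_adj.2 ⟨hxy, Or.inr (Or.inl ⟨hx', hy'⟩)⟩

/-- `D` lies in the first part -/
def LowS (m : ℕ) (E : List (List ℕ)) (D : Finset (Fin (coN m E))) : Prop :=
  ∀ x ∈ D, (x : ℕ) < m + 2

/-- `D` meets all members of `[m] :: E` -/
def Hits (m : ℕ) (E : List (List ℕ)) (D : Finset (Fin (coN m E))) : Prop :=
  ∀ j < E.length + 1, ∃ x ∈ D, (x : ℕ) < m + 1 ∧ (x : ℕ) ∈ ([m] :: E).getD j []

theorem cds_low {D : Finset (Fin (coN m E))} (hD : LowS m E D) :
    CDS (coG m E) D ↔ Hits m E D := by
  constructor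
  · rintro ⟨_, h2, _⟩ j hj
    have hu : m + 2 + j < coN m E := by
      unfold coN
      omega
    rcases h2 ⟨m + 2 + j, hu⟩ with h | ⟨x, hx, h⟩
    · have h3 := hD _ h
      simp only at h3
      omega
    · have hx2 := hD x hx
      rw [coG_adj] at h
      obtain ⟨_, h | h | h | h⟩ := h
      · simp only at h
        omega
      · omega
      · refine ⟨x, hx, (inc_lt h).1, ?_⟩
        unfold inc at h
        rw [Bool.and_eq_true, Bool.and_eq_true, mem_iff] at h
        have h4 := h.2.2
        simp only at h4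
        rwa [Nat.add_sub_cancel_left] at h4
      · have h3 := inc_lt h
        omega
  · intro h
    obtain ⟨x₀, hx₀, hx₀m, _⟩ := h 0 (by omega)
    refine ⟨⟨x₀, hx₀⟩, fun v => ?_, ?_⟩
    · by_cases hv : (v : ℕ) < m + 2
      · by_cases hvx : v = x₀
        · left
          rw [hvx]
          exact hx₀
        · exact Or.inr ⟨x₀, hx₀, coG_adj.2 ⟨fun e => hvx e.symm, Or.inl ⟨by omega, hv⟩⟩⟩
      · have hvl := v.2
        have hvl' : (v : ℕ) < m + 3 + E.length := hvl
        obtain ⟨x, hx, hxm, hxe⟩ := h ((v : ℕ) - (m + 2)) (by omega)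
        refine Or.inr ⟨x, hx, coG_adj.2 ⟨?_, Or.inr (Or.inr (Or.inl ?_))⟩⟩
        · rintro rfl
          omega
        · unfold inc
          rw [Bool.and_eq_true, Bool.and_eq_true, decide_eq_true_eq, decide_eq_true_eq, mem_iff]
          exact ⟨hxm, by omega, hxe⟩
    · intro a ha b hb
      by_cases hab : a = b
      · rw [hab]
        exact Relation.ReflTransGen.refl
      · exact conn_single (coG_adj.2 ⟨hab, Or.inl ⟨hD a ha, hD b hb⟩⟩) hb

/-- a minimal connected dominating set which meets the second part has two elements -/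
theorem card_high {D : Finset (Fin (coN m E))} (hD : MinCDS (coG m E) D)
    (hh : ¬ LowS m E D) : D.card = 2 := by
  classical
  unfold LowS at hh
  push Not at hh
  obtain ⟨u, hu, hum⟩ := hh
  -- an element in the first part
  have ha0 : m + 1 < coN m E := by
    unfold coN
    omega
  have hlow : ∃ a ∈ D, (a : ℕ) < m + 2 := by
    rcases hD.1.2.1 ⟨m + 1, ha0⟩ with h | ⟨x, hx, h⟩
    · exact ⟨_, h, by simp⟩
    · refine ⟨x, hx, ?_⟩
      rw [coG_adj] at h
      obtain ⟨_, h | h | h | h⟩ := h
      · exact h.1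
      · simp only at h
        omega
      · have h3 := inc_lt h
        simp only at h3
        omega
      · have h3 := inc_lt h
        simp only at h3
        omega
  obtain ⟨a, ha, ham⟩ := hlow
  -- a crossing edge
  have hcross : ∃ x ∈ D, ∃ y ∈ D, (x : ℕ) < m + 2 ∧ m + 2 ≤ (y : ℕ) ∧ (coG m E).Adj x y := by
    have hconn := hD.1.2.2 a ha u hu
    by_contra hcon
    push Not at hcon
    have key : ∀ p, Conn (coG m E) D a p → p ∈ D ∧ (p : ℕ) < m + 2 := by
      intro p hp
      unfold Conn at hp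
      induction hp with
      | refl => exact ⟨ha, ham⟩
      | @tail p q _ hpq ih =>
        refine ⟨hpq.2, ?_⟩
        by_contra hq
        exact hcon p ih.1 q hpq.2 ih.2 (by omega) hpq.1
    have h3 := (key u hconn).2
    omega
  obtain ⟨x, hx, y, hy, hxm, hym, hxy⟩ := hcross
  have hpair : CDS (coG m E) {x, y} := by
    refine ⟨⟨x, Finset.mem_insert_self _ _⟩, fun v => ?_, ?_⟩
    · by_cases hv : (v : ℕ) < m + 2
      · by_cases hvx : v = x
        · left
          rw [hvx]
          exact Finset.mem_insert_self _ _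
        · exact Or.inr ⟨x, Finset.mem_insert_self _ _,
            coG_adj.2 ⟨fun e => hvx e.symm, Or.inl ⟨hxm, hv⟩⟩⟩
      · by_cases hvy : v = y
        · left
          rw [hvy]
          exact Finset.mem_insert_of_mem (Finset.mem_singleton_self _)
        · exact Or.inr ⟨y, Finset.mem_insert_of_mem (Finset.mem_singleton_self _),
            coG_adj.2 ⟨fun e => hvy e.symm, Or.inr (Or.inl ⟨hym, by omega⟩)⟩⟩
    · intro a ha b hb
      rw [Finset.mem_insert, Finset.mem_singleton] at ha hb
      rcases ha with rfl | rfl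
      · rcases hb with rfl | rfl
        · exact Relation.ReflTransGen.refl
        · exact conn_single hxy (Finset.mem_insert_of_mem (Finset.mem_singleton_self _))
      · rcases hb with rfl | rfl
        · exact conn_single hxy.symm (Finset.mem_insert_self _ _)
        · exact Relation.ReflTransGen.refl
  have heq := hD.eq_of_subset hpair (by
    intro z hz
    rw [Finset.mem_insert, Finset.mem_singleton] at hz
    rcases hz with rfl | rfl
    · exact hx
    · exact hy)
  rw [← heq]
  exact Finset.card_pair hxy.ne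

/-! ### lifting transversals -/

/-- the part below `m` -/
def low (m : ℕ) (E : List (List ℕ)) (D : Finset (Fin (coN m E))) : Finset (Fin m) :=
  univ.filter fun i => (⟨(i : ℕ), by unfold coN; omega⟩ : Fin (coN m E)) ∈ D

theorem mem_low {D : Finset (Fin (coN m E))} {i : Fin m} :
    i ∈ low m E D ↔ (⟨(i : ℕ), by unfold coN; omega⟩ : Fin (coN m E)) ∈ D := by
  unfold low
  rw [Finset.mem_filter]
  exact ⟨fun h => h.2, fun h => ⟨Finset.mem_univ _, h⟩⟩

open Classical in
/-- add the new vertex -/
noncomputable def lift (m : ℕ) (E : List (List ℕ)) (T : Finset (Fin m)) :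
    Finset (Fin (coN m E)) :=
  univ.filter fun x => (∃ h : (x : ℕ) < m, (⟨(x : ℕ), h⟩ : Fin m) ∈ T) ∨ (x : ℕ) = m

theorem mem_lift {T : Finset (Fin m)} {x : Fin (coN m E)} : x ∈ lift m E T ↔
    (∃ h : (x : ℕ) < m, (⟨(x : ℕ), h⟩ : Fin m) ∈ T) ∨ (x : ℕ) = m := by
  classical
  unfold lift
  rw [Finset.mem_filter]
  exact ⟨fun h => h.2, fun h => ⟨Finset.mem_univ _, h⟩⟩

theorem low_lift (T : Finset (Fin m)) : low m E (lift m E T) = T := by
  ext i
  rw [mem_low, mem_lift]
  constructor
  · rintro (⟨_, h⟩ | h)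
    · exact h
    · have h1 := i.2
      simp only at h
      omega
  · intro h
    exact Or.inl ⟨i.2, h⟩

theorem lowS_lift (T : Finset (Fin m)) : LowS m E (lift m E T) := by
  intro x hx
  rw [mem_lift] at hx
  rcases hx with ⟨h, _⟩ | h
  · omega
  · omega

theorem hits_lift (hEm : ∀ e ∈ E, ∀ x ∈ e, x < m) (T : Finset (Fin m)) :
    Hits m E (lift m E T) ↔ IsTr (E.map (S m)) T := by
  constructor
  · intro h e' he'
    obtain ⟨e, he, rfl⟩ := List.mem_map.1 he'
    obtain ⟨j, hj, rfl⟩ := List.getElem_of_mem he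
    obtain ⟨x, hx, _, hxe⟩ := h (j + 1) (by omega)
    rw [List.getD_cons_succ, List.getD_eq_getElem _ _ hj] at hxe
    have hxm := hEm _ he _ hxe
    rw [mem_lift] at hx
    rcases hx with ⟨_, hx⟩ | hx
    · refine ⟨⟨(x : ℕ), hxm⟩, ?_⟩
      rw [Finset.mem_inter, mem_S]
      exact ⟨hxe, hx⟩
    · omega
  · intro h j hj
    cases j with
    | zero =>
      refine ⟨⟨m, by unfold coN; omega⟩, ?_, ?_, ?_⟩
      · rw [mem_lift]
        exact Or.inr rfl
      · simp
      · rw [List.getD_cons_zero]
        exact List.mem_singleton.2 rfl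
    | succ j =>
      have hj' : j < E.length := by omega
      have h1 := h (S m (E[j])) (List.mem_map.2 ⟨E[j], List.getElem_mem hj', rfl⟩)
      obtain ⟨x, hx⟩ := h1
      rw [Finset.mem_inter, mem_S] at hx
      have hxm := x.2
      refine ⟨⟨(x : ℕ), by unfold coN; omega⟩, ?_, ?_, ?_⟩
      · rw [mem_lift]
        exact Or.inl ⟨x.2, hx.2⟩
      · show (x : ℕ) < m + 1
        omega
      · rw [List.getD_cons_succ, List.getD_eq_getElem _ _ hj']
        exact hx.1

/-- a set which hits everything contains the new vertex -/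
theorem new_mem {D : Finset (Fin (coN m E))} (h : Hits m E D) :
    (⟨m, by unfold coN; omega⟩ : Fin (coN m E)) ∈ D := by
  obtain ⟨x, hx, _, hxe⟩ := h 0 (by omega)
  rw [List.getD_cons_zero, List.mem_singleton] at hxe
  have e : x = ⟨m, by unfold coN; omega⟩ := Fin.ext hxe
  rw [← e]
  exact hx

theorem lift_mono {T T' : Finset (Fin m)} (h : T ⊆ T') : lift m E T ⊆ lift m E T' := by
  intro x hx
  rw [mem_lift] at hx ⊢
  rcases hx with ⟨h1, h2⟩ | h1
  · exact Or.inl ⟨h1, h h2⟩
  · exact Or.inr h1

theorem lift_low_subset {D : Finset (Fin (coN m E))} (h : Hits m E D) :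
    lift m E (low m E D) ⊆ D := by
  intro x hx
  rw [mem_lift] at hx
  rcases hx with ⟨h1, h2⟩ | h1
  · rw [mem_low] at h2
    exact h2
  · have e : x = ⟨m, by unfold coN; omega⟩ := Fin.ext h1
    rw [e]
    exact new_mem h

theorem hits_low (hEm : ∀ e ∈ E, ∀ x ∈ e, x < m) {D : Finset (Fin (coN m E))}
    (h : Hits m E D) : Hits m E (lift m E (low m E D)) := by
  intro j hj
  obtain ⟨x, hx, hxm, hxe⟩ := h j hj
  refine ⟨x, ?_, hxm, hxe⟩
  rw [mem_lift]
  by_cases hx' : (x : ℕ) < m
  · exact Or.inl ⟨hx', mem_low.2 hx⟩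
  · right
    omega

/-- the minimal connected dominating sets inside the first part -/
theorem minCDS_low_iff (hEm : ∀ e ∈ E, ∀ x ∈ e, x < m) {D : Finset (Fin (coN m E))}
    (hD : LowS m E D) : MinCDS (coG m E) D ↔
      ∃ T, IsMinTr (E.map (S m)) T ∧ D = lift m E T := by
  constructor
  · intro h
    have hh := (cds_low hD).1 h.1
    have h1 := hits_low hEm hh
    have h2 := (cds_low (lowS_lift (m := m) (E := E) (low m E D))).2 h1
    have h3 := h.eq_of_subset h2 (lift_low_subset hh)
    refine ⟨low m E D, ⟨(hits_lift hEm _).1 h1, fun T' hT' hcon => ?_⟩, h3.symm⟩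
    have h4 := (cds_low (lowS_lift (m := m) (E := E) T')).2 ((hits_lift hEm _).2 hcon)
    have h5 := h.eq_of_subset h4 ((lift_mono hT'.1).trans (lift_low_subset hh))
    have h6 : low m E (lift m E T') = low m E D := by rw [h5]
    rw [low_lift] at h6
    exact hT'.ne h6
  · rintro ⟨T, hT, rfl⟩
    refine ⟨(cds_low hD).2 ((hits_lift hEm _).2 hT.1), fun D' hD' hcon => ?_⟩
    have hlow : LowS m E D' := fun x hx => hD x (hD'.1 hx)
    have hh := (cds_low hlow).1 hcon
    have h1 := (hits_lift hEm _).1 (hits_low hEm hh)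
    have h2 : low m E D' ⊆ T := by
      intro i hi
      rw [mem_low] at hi
      have h3 := hD'.1 hi
      rw [mem_lift] at h3
      rcases h3 with ⟨_, h3⟩ | h3
      · exact h3
      · have h4 := i.2
        simp only at h3
        omega
    have h3 : low m E D' = T := by
      by_contra hne
      exact hT.2 _ (Finset.ssubset_iff_subset_ne.2 ⟨h2, hne⟩) h1
    have h4 := lift_low_subset hh
    rw [h3] at h4
    exact hD'.2 h4

theorem lift_injective : Function.Injective (lift m E) := by
  intro T T' h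
  rw [← low_lift (E := E) T, h, low_lift]

end Pool.Agent.CDH
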