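import Mathlib
import Pool.Agent.CDom.Defs
import Pool.Agent.CDom.Basic
import Pool.Agent.CDom.Prog
import Pool.Agent.CDom.Spec1
import Pool.Agent.CDH.Prog

/-!
# Greedy minimalisation
-/

set_option autoImplicit false

namespace Pool.Agent.CDH

open Finset Pool.Agent.CDom Pool.Agent.CDom.Prog

variable {n : ℕ} {G : SimpleGraph (Fin n)} {E : List (ℕ × ℕ)}

theorem mem_del {Z : List ℕ} {u v : ℕ} : u ∈ del Z v ↔ u ∈ Z ∧ u ≠ v := by
  unfold del
  rw [List.mem_filter, Bool.not_eq_true', decide_eq_false_iff_not]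

theorem greedy_aux (hE : IsRep G E) (L : List ℕ) : ∀ Z : List ℕ, (∀ x ∈ Z, x < n) →
    CDS G (S n Z) →
    (∀ x ∈ L.foldl (fun Z v => bif cds (n, E) (del Z v) then del Z v else Z) Z, x < n) ∧
    CDS G (S n (L.foldl (fun Z v => bif cds (n, E) (del Z v) then del Z v else Z) Z)) ∧
    (∀ x ∈ L.foldl (fun Z v => bif cds (n, E) (del Z v) then del Z v else Z) Z, x ∈ Z) ∧
    ∀ v ∈ L, v ∈ L.foldl (fun Z v => bif cds (n, E) (del Z v) then del Z v else Z) Z →
      ¬ CDS G (S n (del (L.foldl (fun Z v => bif cds (n, E) (del Z v) then del Z v else Z) Z) v)) := by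
  induction L with
  | nil =>
    intro Z hZ hC
    exact ⟨hZ, hC, fun x hx => hx, fun v hv => absurd hv List.not_mem_nil⟩
  | cons w L ih =>
    intro Z hZ hC
    rw [List.foldl_cons]
    have hsub : ∀ x ∈ (bif cds (n, E) (del Z w) then del Z w else Z), x ∈ Z := by
      intro x hx
      cases h : cds (n, E) (del Z w)
      · rw [h, cond_false] at hx
        exact hx
      · rw [h, cond_true] at hx
        exact (mem_del.1 hx).1
    have hCn : CDS G (S n (bif cds (n, E) (del Z w) then del Z w else Z)) := by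
      cases h : cds (n, E) (del Z w)
      · rw [cond_false]
        exact hC
      · rw [cond_true]
        exact (cds_spec hE _ fun x hx => hZ x (mem_del.1 hx).1).1 h
    obtain ⟨h1, h2, h3, h4⟩ := ih _ (fun x hx => hZ x (hsub x hx)) hCn
    refine ⟨h1, h2, fun x hx => hsub x (h3 x hx), ?_⟩
    intro v hv hvZ hcon
    rw [List.mem_cons] at hv
    rcases hv with rfl | hv
    · have h5 := h3 v hvZ
      cases h : cds (n, E) (del Z v)
      · have h6 : ¬ CDS G (S n (del Z v)) := by
          intro h7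
          have h8 := (cds_spec hE _ fun x hx => hZ x (mem_del.1 hx).1).2 h7
          rw [h] at h8
          exact Bool.false_ne_true h8
        refine h6 (hcon.mono ?_)
        intro x hx
        rw [mem_S, mem_del] at hx ⊢
        exact ⟨hsub _ (h3 _ hx.1), hx.2⟩
      · rw [h, cond_true, mem_del] at h5
        exact h5.2 rfl
    · exact h4 v hv hvZ hcon

theorem greedy_spec (hE : IsRep G E) (Z : List ℕ) (hZ : ∀ x ∈ Z, x < n) (hC : CDS G (S n Z)) :
    (∀ x ∈ greedy (n, E) Z, x < n) ∧ MinCDS G (S n (greedy (n, E) Z)) ∧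
      S n (greedy (n, E) Z) ⊆ S n Z := by
  obtain ⟨h1, h2, h3, h4⟩ := greedy_aux hE (List.range n) Z hZ hC
  refine ⟨h1, ⟨h2, ?_⟩, ?_⟩
  · intro D' hD' hcon
    obtain ⟨v, hv, hvD⟩ := Finset.exists_of_ssubset hD'
    refine h4 v (List.mem_range.2 v.2) (mem_S.1 hv) (hcon.mono ?_)
    intro x hx
    rw [mem_S, mem_del]
    refine ⟨mem_S.1 (hD'.1 hx), fun e => hvD ?_⟩
    rw [← Fin.ext e]
    exact hx
  · intro x hx
    rw [mem_S]
    exact h3 _ (mem_S.1 hx)

/-- the sorted list of a minimal set does not change up to order -/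
theorem greedy_min (hE : IsRep G E) (Z : List ℕ) (hZ : ∀ x ∈ Z, x < n)
    (hC : MinCDS G (S n Z)) : S n (greedy (n, E) Z) = S n Z := by
  obtain ⟨_, h2, h3⟩ := greedy_spec hE Z hZ hC.1
  exact hC.eq_of_subset h2.1 h3

end Pool.Agent.CDH
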