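import Mathlib
import Pool.Agent.CDom.StmtDefs
import Pool.Agent.CDom.Defs
import Pool.Agent.CDom.Basic
import Pool.Agent.CDom.Prog
import Pool.Agent.CDom.Spec1
import Pool.Agent.CDom.Parse
import Pool.Agent.CDom.Final
import Pool.Agent.CDH.Stmt
import Pool.Agent.CDH.Prog
import Pool.Agent.CDH.Sel
import Pool.Agent.CDH.Spec
import Pool.Agent.CDH.Greedy

/-!
# The reduction for graphs whose minimal connected dominating sets have small cores
-/

set_option autoImplicit false

namespace Pool.Agent.CDH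

open Finset Pool.Agent.Lib.PT Pool.Agent.CDom Pool.Agent.CDom.Prog

variable {n : ℕ} {G : SimpleGraph (Fin n)} {E : List (ℕ × ℕ)}

/-! ### minimal sets meeting the clauses -/

theorem RC.crit {C Y : Finset (Fin n)} (h : RC G C Y) (hm : ∀ Y', Y' ⊂ Y → ¬ RC G C Y')
    {y : Fin n} (hy : y ∈ Y) :
    PC G C y ∧ ∃ u, ¬ Dom G C u ∧ G.Adj y u ∧ ∀ v ∈ Y, PC G C v → G.Adj v u → v = y := by
  have h1 : ¬ RC G C (Y.erase y) := hm _ (Finset.erase_ssubset hy)
  have h2 : ∃ u, ¬ Dom G C u ∧ ∀ v ∈ Y.erase y, PC G C v → ¬ G.Adj v u := by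
    by_contra hcon
    push Not at hcon
    refine h1 ⟨h.1, fun u hu => ?_⟩
    obtain ⟨v, hv, hp, ha⟩ := hcon u hu
    exact ⟨v, hv, hp, ha⟩
  obtain ⟨u, hu, h3⟩ := h2
  obtain ⟨v, hv, hp, ha⟩ := h.2 u hu
  have h4 : ∀ v ∈ Y, PC G C v → G.Adj v u → v = y := by
    intro v hv hp ha
    by_contra hne
    exact h3 v (Finset.mem_erase.2 ⟨hne, hv⟩) hp ha
  have h5 := h4 v hv hp ha
  subst h5
  exact ⟨hp, u, hu, ha, h4⟩

theorem RC.cds {C Y : Finset (Fin n)} (h : RC G C Y) (hY : ∀ y ∈ Y, PC G C y) :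
    CDS G (C ∪ Y) := by
  obtain ⟨⟨hne, hconn⟩, hcl⟩ := h
  refine ⟨hne.mono Finset.subset_union_left, fun v => ?_, ?_⟩
  · by_cases hv : Dom G C v
    · exact hv.mono Finset.subset_union_left
    · obtain ⟨u, hu, _, ha⟩ := hcl v hv
      exact Or.inr ⟨u, Finset.mem_union_right _ hu, ha⟩
  · have key : ∀ d ∈ C ∪ Y, ∃ u ∈ C, Conn G (C ∪ Y) d u ∧ Conn G (C ∪ Y) u d := by
      intro d hd
      rw [Finset.mem_union] at hd
      rcases hd with hd | hd
      · exact ⟨d, hd, Relation.ReflTransGen.refl, Relation.ReflTransGen.refl⟩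
      · obtain ⟨_, u, hu, ha⟩ := hY d hd
        exact ⟨u, hu, conn_single ha.symm (Finset.mem_union_left _ hu),
          conn_single ha (Finset.mem_union_right _ hd)⟩
    intro a ha b hb
    obtain ⟨u, hu, h1, _⟩ := key a ha
    obtain ⟨w, hw, _, h2⟩ := key b hb
    exact Relation.ReflTransGen.trans h1 (Relation.ReflTransGen.trans
      (conn_mono Finset.subset_union_left (hconn u hu w hw)) h2)

theorem RC.eq_sdiff {C Y D : Finset (Fin n)} (h : RC G C Y)
    (hm : ∀ Y', Y' ⊂ Y → ¬ RC G C Y') (hD : CDS G D) (hDs : D ⊆ C ∪ Y) : Y = D \ C := by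
  ext y
  rw [Finset.mem_sdiff]
  constructor
  · intro hy
    obtain ⟨hp, u, hu, ha, huniq⟩ := h.crit hm hy
    refine ⟨?_, hp.1⟩
    rcases hD.2.1 u with h1 | ⟨w, hw, hwu⟩
    · have h2 := hDs h1
      rw [Finset.mem_union] at h2
      rcases h2 with h2 | h2
      · exact absurd (Or.inl h2) hu
      · obtain ⟨⟨_, h3⟩, _⟩ := h.crit hm h2
        exact absurd (Or.inr h3) hu
    · have h2 := hDs hw
      rw [Finset.mem_union] at h2
      rcases h2 with h2 | h2
      · exact absurd (Or.inr ⟨w, h2, hwu⟩) hu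
      · rw [← huniq w h2 (h.crit hm h2).1 hwu]
        exact hw
  · rintro ⟨h1, h2⟩
    exact (Finset.mem_union.1 (hDs h1)).resolve_left h2

theorem RC_of_core {C D : Finset (Fin n)} (hD : MinCDS G D) (hC : C ⊆ D) (hok : OkC G C)
    (hdom : ∀ v ∈ D, Dom G C v) : RC G C (D \ C) ∧ ∀ Y', Y' ⊂ D \ C → ¬ RC G C Y' := by
  have hPC : ∀ y ∈ D \ C, PC G C y := by
    intro y hy
    rw [Finset.mem_sdiff] at hy
    refine ⟨hy.2, ?_⟩
    exact (hdom y hy.1).resolve_left hy.2
  refine ⟨⟨hok, fun u hu => ?_⟩, fun Y' hY' hRC => ?_⟩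
  · rcases hD.1.2.1 u with h1 | ⟨w, hw, hwu⟩
    · exact absurd (hdom u h1) hu
    · have h2 : w ∈ D \ C := by
        rw [Finset.mem_sdiff]
        exact ⟨hw, fun h3 => hu (Or.inr ⟨w, h3, hwu⟩)⟩
      exact ⟨w, h2, hPC w h2, hwu⟩
  · have h1 : CDS G (C ∪ Y') := hRC.cds fun y hy => hPC y (hY'.1 hy)
    have h2 : C ∪ Y' ⊆ D := by
      intro x hx
      rw [Finset.mem_union] at hx
      rcases hx with hx | hx
      · exact hC hx
      · exact (Finset.mem_sdiff.1 (hY'.1 hx)).1
    have h3 := hD.eq_of_subset h1 h2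
    refine hY'.2 fun x hx => ?_
    rw [Finset.mem_sdiff] at hx
    have h4 : x ∈ C ∪ Y' := by rw [h3]; exact hx.1
    exact (Finset.mem_union.1 h4).resolve_left hx.2

/-! ### the program `psi` -/

theorem listRow_eq (n : ℕ) (X : List ℕ) : listRow n X = matS (S n X) := by
  unfold listRow matS
  rw [← List.map_coe_finRange_eq_range, List.map_map]
  refine List.map_congr_left fun v _ => ?_
  rw [Function.comp_apply, Bool.eq_iff_iff, mem_iff, decide_eq_true_eq, mem_S]

theorem S_range (n : ℕ) : S n (List.range n) = Finset.univ := by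
  ext v
  rw [mem_S, List.mem_range]
  exact ⟨fun _ => Finset.mem_univ _, fun _ => v.2⟩

theorem cand_lt (k : ℕ) (X : List ℕ) (i : ℕ) : ∀ x ∈ cand k (n, E) X i, x < n := by
  intro x hx
  unfold cand at hx
  rw [List.mem_append, List.mem_filter, decide_eq_true_eq] at hx
  rcases hx with hx | hx
  · exact core_lt _ _ _ x hx
  · exact hx.2

theorem psi_cases (hE : IsRep G E) (k : ℕ) (X : List ℕ) :
    psi k (n, E) X = [] ∨ ∃ Z, MinCDS G (S n Z) ∧ psi k (n, E) X = [Z] := by
  unfold psi
  cases h : (!(missing k (n, E) X).isEmpty &&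
    cds (n, E) (cand k (n, E) X ((missing k (n, E) X).headD 0)))
  · left
    rw [cond_false]
  · right
    rw [cond_true]
    rw [Bool.and_eq_true] at h
    have h1 := (cds_spec hE _ (cand_lt k X _)).1 h.2
    exact ⟨_, (greedy_spec hE _ (cand_lt k X _) h1).2.1, rfl⟩

theorem psi_all (k : ℕ) : psi k (n, E) (can (tt (tuples n k).length (tuples n k).length
    (∅ : Finset (Fin n)))) = [] := by
  have h : missing k (n, E) (can (tt (tuples n k).length (tuples n k).length
    (∅ : Finset (Fin n)))) = [] := by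
    rw [List.eq_nil_iff_forall_not_mem]
    intro j hj
    unfold missing at hj
    rw [List.mem_filter, List.mem_range, Bool.not_eq_true', Bool.eq_false_iff, ne_eq,
      mem_iff] at hj
    refine hj.2 ?_
    have hj1 : j < (tuples n k).length := hj.1
    show n + j ∈ _
    rw [can_tt_hi hj1]
    omega
  unfold psi
  rw [h]
  rfl

theorem headD_mem {L : List ℕ} (h : L ≠ []) (d : ℕ) : L.headD d ∈ L := by
  cases L with
  | nil => exact absurd rfl h
  | cons a L => exact List.mem_cons_self

theorem psi_tt (hE : IsRep G E) (k : ℕ) {i : ℕ} (hi : i < (tuples n k).length)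
    {Y : Finset (Fin n)} (hC : CDS G (S n (core n k i) ∪ Y)) :
    ∃ Z, (∀ x ∈ Z, x < n) ∧ MinCDS G (S n Z) ∧ S n Z ⊆ S n (core n k i) ∪ Y ∧
      psi k (n, E) (can (tt (tuples n k).length i Y)) = [Z] := by
  have hmi : i ∈ missing k (n, E) (can (tt (tuples n k).length i Y)) := by
    unfold missing
    rw [List.mem_filter, List.mem_range, Bool.not_eq_true', Bool.eq_false_iff, ne_eq, mem_iff]
    refine ⟨hi, ?_⟩
    show n + i ∉ _
    rw [can_tt_hi hi]
    exact fun h => h rfl
  have hne : missing k (n, E) (can (tt (tuples n k).length i Y)) ≠ [] :=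
    List.ne_nil_of_mem hmi
  have hhead : (missing k (n, E) (can (tt (tuples n k).length i Y))).headD 0 = i := by
    have h1 := headD_mem hne 0
    generalize (missing k (n, E) (can (tt (tuples n k).length i Y))).headD 0 = j at h1
    unfold missing at h1
    rw [List.mem_filter, List.mem_range, Bool.not_eq_true', Bool.eq_false_iff, ne_eq,
      mem_iff] at h1
    obtain ⟨h1, h2⟩ := h1
    have h1' : j < (tuples n k).length := h1
    have h2' : n + j ∉ can (tt (tuples n k).length i Y) := h2
    rw [can_tt_hi h1'] at h2'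
    exact not_not.1 h2'
  have hS : S n (cand k (n, E) (can (tt (tuples n k).length i Y)) i) =
      S n (core n k i) ∪ Y := by
    unfold cand
    rw [S_append]
    congr 1
    ext v
    rw [mem_S, List.mem_filter, can_tt_lo]
    exact ⟨fun h => h.1, fun h => ⟨h, decide_eq_true v.2⟩⟩
  have hcd : CDS G (S n (cand k (n, E) (can (tt (tuples n k).length i Y)) i)) := by
    rw [hS]; exact hC
  obtain ⟨h1, h2, h3⟩ := greedy_spec hE _ (cand_lt k _ i) hcd
  refine ⟨_, h1, h2, ?_, ?_⟩
  · rw [hS] at h3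
    exact h3
  · unfold psi
    rw [hhead]
    have h4 : (!(missing k (n, E) (can (tt (tuples n k).length i Y))).isEmpty &&
        cds (n, E) (cand k (n, E) (can (tt (tuples n k).length i Y)) i)) = true := by
      rw [Bool.and_eq_true, Bool.not_eq_true']
      refine ⟨?_, (cds_spec hE _ (cand_lt k _ i)).2 hcd⟩
      rw [List.isEmpty_eq_false_iff]
      exact hne
    rw [h4, cond_true]

/-! ### the words -/

theorem toGr_matG (G : SimpleGraph (Fin n)) : ∃ E, IsRep G E ∧ toGr (matG G) = (n, E) := by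
  obtain ⟨h1, h2⟩ := toGr_spec G [] (fun _ => rfl)
  rw [List.map_nil, List.append_nil] at h1 h2
  exact ⟨_, h2, Prod.ext h1 rfl⟩

theorem mapF_eq (k : ℕ) {E : List (ℕ × ℕ)} (h : toGr (matG G) = (n, E)) :
    mapF k (encM (matG G)) = encH (hypS k (n, E)) := by
  unfold mapF printL encH hypS
  rw [decM_encM, h, List.map_cons, List.map_cons, List.map_map]
  rw [listRow_eq, S_range]
  congr 2
  exact List.map_congr_left fun X _ => listRow_eq _ X

theorem mapG_eq (k : ℕ) {E : List (ℕ × ℕ)} (h : toGr (matG G) = (n, E)) {m : ℕ}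
    (T : Finset (Fin m)) :
    mapG k (encM (matS T :: matG G)) = printL n (psi k (n, E) (can T)) := by
  unfold mapG
  rw [decM_encM, List.drop_succ_cons, List.drop_zero, h, List.headD_cons, rowList_matS]

theorem printL_one (Z : List ℕ) : printL n [Z] = encM [matS (S n Z)] := by
  unfold printL
  rw [List.map_cons, List.map_nil, listRow_eq]

theorem matS_injective : Function.Injective (matS : Finset (Fin n) → List Bool) := by
  intro D D' h
  apply can_injective
  rw [← rowList_matS, ← rowList_matS, h]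

theorem encM_injective : Function.Injective encM := by
  intro R R' h
  rw [← decM_encM R, ← decM_encM R', h]

theorem enc_one_inj {D D' : Finset (Fin n)} (h : encM [matS D] = encM [matS D']) : D = D' := by
  have h1 := encM_injective h
  rw [List.cons.injEq] at h1
  exact matS_injective h1.1

/-- the reduction -/
theorem reduction (k : ℕ) (G : SimpleGraph (Fin n)) :
    ∃ (m : ℕ) (H : List (Finset (Fin m))),
      mapF k (encM (matG G)) = encH H ∧
      (∀ T : Finset (Fin m), mapG k (encM (matS T :: matG G)) = encM [] ∨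
        ∃ D : Finset (Fin n), IsMinCDS G D ∧ mapG k (encM (matS T :: matG G)) = encM [matS D]) ∧
      (∀ D, IsMinCDS G D → (∃ C ⊆ D, OkC G C ∧ C.card ≤ k ∧ ∀ v ∈ D, Dom G C v) →
        ∃ T, IsMinTr H T ∧ mapG k (encM (matS T :: matG G)) = encM [matS D]) ∧
      (∀ D : Finset (Fin n), Set.ncard {T | IsMinTr H T ∧
        mapG k (encM (matS T :: matG G)) = encM [matS D]} ≤ (n + 1) ^ k) ∧
      Set.ncard {T | IsMinTr H T ∧ mapG k (encM (matS T :: matG G)) = encM []} ≤ 1 := by
  classical
  obtain ⟨E, hE, hg⟩ := toGr_matG G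
  refine ⟨n + (tuples n k).length, hypS k (n, E), mapF_eq k hg, ?_, ?_, ?_, ?_⟩
  · intro T
    rw [mapG_eq k hg]
    rcases psi_cases hE k (can T) with h | ⟨Z, hZ, h⟩
    · left
      rw [h]
      rfl
    · right
      rw [h]
      exact ⟨S n Z, (isMinCDS_iff G _).2 hZ, printL_one Z⟩
  · rintro D hD ⟨C, hCD, hok, hck, hdom⟩
    rw [isMinCDS_iff] at hD
    obtain ⟨i, hi, hiC⟩ := exists_core k C hck
    obtain ⟨h1, h2⟩ := RC_of_core hD hCD hok hdom
    refine ⟨tt (tuples n k).length i (D \ C), ?_, ?_⟩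
    · rw [isMinTr_iff hE]
      refine min_of (R := fun i Y => RC G (S n (core n k i)) Y) hi ?_ ?_
      · rw [hiC]; exact h1
      · rw [hiC]; exact h2
    · have h3 : S n (core n k i) ∪ D \ C = D := by
        rw [hiC]
        exact Finset.union_sdiff_of_subset hCD
      obtain ⟨Z, _, h5, h6, h7⟩ := psi_tt hE k hi (Y := D \ C) (by rw [h3]; exact hD.1)
      rw [mapG_eq k hg, h7, printL_one]
      rw [h3] at h6
      rw [hD.eq_of_subset h5.1 h6]
  · intro D
    have hsub : {T | IsMinTr (m := n + (tuples n k).length) (hypS k (n, E)) T ∧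
        mapG k (encM (matS T :: matG G)) = encM [matS D]} ⊆
        (((Finset.range (tuples n k).length).image fun i =>
          tt (tuples n k).length i (D \ S n (core n k i)) :
          Finset (Finset (Fin (n + (tuples n k).length)))) :
          Set (Finset (Fin (n + (tuples n k).length)))) := by
      rintro T ⟨hT, hTD⟩
      rw [mapG_eq k hg] at hTD
      rw [isMinTr_iff hE] at hT
      rcases min_struct hT.1 hT.2 with h | ⟨i, hi, Y, rfl, hR, hm⟩
      · rw [h, psi_all] at hTD
        have h1 : encM ([] : List (List Bool)) = encM [matS D] := hTD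
        exact absurd (encM_injective h1) (by simp)
      · have hc : CDS G (S n (core n k i) ∪ Y) := hR.cds fun y hy => (hR.crit hm hy).1
        obtain ⟨Z, _, h5, h6, h7⟩ := psi_tt hE k hi hc
        rw [h7, printL_one] at hTD
        have h8 := enc_one_inj hTD
        rw [h8] at h5 h6
        have h9 := hR.eq_sdiff hm h5.1 h6
        rw [Finset.mem_coe, Finset.mem_image]
        exact ⟨i, Finset.mem_range.2 hi, by rw [← h9]⟩
    refine (Set.ncard_le_ncard hsub (Finset.finite_toSet _)).trans ?_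
    rw [Set.ncard_coe_finset]
    refine Finset.card_image_le.trans ?_
    rw [Finset.card_range, (tuples_spec n k).1]
  · have hsub : {T | IsMinTr (m := n + (tuples n k).length) (hypS k (n, E)) T ∧
        mapG k (encM (matS T :: matG G)) = encM []} ⊆
        {tt (tuples n k).length (tuples n k).length (∅ : Finset (Fin n))} := by
      rintro T ⟨hT, hTD⟩
      rw [mapG_eq k hg] at hTD
      rw [isMinTr_iff hE] at hT
      rcases min_struct hT.1 hT.2 with h | ⟨i, hi, Y, rfl, hR, hm⟩
      · exact h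
      · have hc : CDS G (S n (core n k i) ∪ Y) := hR.cds fun y hy => (hR.crit hm hy).1
        obtain ⟨Z, _, h5, h6, h7⟩ := psi_tt hE k hi hc
        rw [h7, printL_one] at hTD
        exact absurd (encM_injective hTD) (by simp)
    refine (Set.ncard_le_ncard hsub (Set.finite_singleton _)).trans ?_
    rw [Set.ncard_singleton]

end Pool.Agent.CDH
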