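import Mathlib
import Pool.Agent.Lib.PolyTime.Lib

/-!
# Time polynomial in a measure, and search for a sufficient budget

`MB M g`: `g` is polynomially bounded in `M`.  `MTime M x f`: one program computes `f i` from `x i`
with cost polynomially bounded in `M i`.

`dbl f a (t, r)`: if `r` is empty, replace it by `f a t` and `t` by `2 t + 1`.
-/

set_option autoImplicit false

namespace Pool.Agent.CDH

open Pool.Agent.Lib.PT

/-- polynomially bounded in `M` -/
def MB {ι : Type*} (M g : ι → ℕ) : Prop := ∃ p : Polynomial ℕ, ∀ i, g i ≤ p.eval (M i)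

section MB

variable {ι : Type*} {M g h : ι → ℕ}

theorem MB.mono (hg : MB M g) (hh : ∀ a, h a ≤ g a) : MB M h := by
  obtain ⟨k, hk⟩ := hg
  exact ⟨k, fun a => (hh a).trans (hk a)⟩

theorem MB.const (c : ℕ) : MB M (fun _ => c) := ⟨Polynomial.C c, fun a => by simp⟩

theorem MB.self : MB M M := ⟨Polynomial.X, fun a => by simp⟩

theorem MB.add (hg : MB M g) (hh : MB M h) : MB M (fun a => g a + h a) := by
  obtain ⟨p, hp⟩ := hg
  obtain ⟨q, hq⟩ := hh
  exact ⟨p + q, fun a => by rw [Polynomial.eval_add]; exact Nat.add_le_add (hp a) (hq a)⟩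

theorem MB.mul (hg : MB M g) (hh : MB M h) : MB M (fun a => g a * h a) := by
  obtain ⟨p, hp⟩ := hg
  obtain ⟨q, hq⟩ := hh
  exact ⟨p * q, fun a => by rw [Polynomial.eval_mul]; exact Nat.mul_le_mul (hp a) (hq a)⟩

theorem MB.poly (p : Polynomial ℕ) (hg : MB M g) : MB M (fun a => p.eval (g a)) := by
  obtain ⟨q, hq⟩ := hg
  exact ⟨p.comp q, fun a => by rw [Polynomial.eval_comp]; exact poly_mono p (hq a)⟩

end MB

/-- computable by a program whose cost is polynomially bounded in `M` -/
def MTime {ι α β : Type*} [Enc α] [Enc β] (M : ι → ℕ) (x : ι → α) (f : ι → β) : Prop :=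
  ∃ c : Code, (∀ i, c.eval (enc (x i)) = enc (f i)) ∧ MB M (fun i => c.cost (enc (x i)))

section MTime

variable {ι α β γ : Type*} [Enc α] [Enc β] [Enc γ] {M : ι → ℕ} {x : ι → α}

theorem MTime.size {f : ι → β} (hM : MB M (fun i => sz (x i))) (hf : MTime M x f) :
    MB M (fun i => sz (f i)) := by
  obtain ⟨c, hc, hp⟩ := hf
  refine (hM.add hp).mono fun i => ?_
  have := Code.size_eval_le c (enc (x i))
  rw [hc] at this
  exact this

theorem mtime_of_polyTime {f : α → β} (hM : MB M (fun i => sz (x i))) (hf : PolyTime f) :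
    MTime M x (fun i => f (x i)) := by
  obtain ⟨c, hc, p, hp⟩ := hf
  exact ⟨c, fun i => hc (x i), (MB.poly p hM).mono fun i => hp (x i)⟩

theorem MTime.comp {g : β → γ} {f : ι → β} (hM : MB M (fun i => sz (x i)))
    (hf : MTime M x f) (hg : PolyTime g) : MTime M x (fun i => g (f i)) := by
  have hs := hf.size hM
  obtain ⟨cg, hcg, p, hpg⟩ := hg
  obtain ⟨cf, hcf, hpf⟩ := hf
  refine ⟨Code.comp cg cf, fun i => by rw [Code.eval_comp, hcf, hcg], ?_⟩
  have h2 : MB M (fun i => cg.cost (enc (f i))) := (MB.poly p hs).mono fun i => hpg (f i)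
  exact ((hpf.add h2).add (MB.const 1)).mono fun i => by simp [Code.cost, hcf]

theorem MTime.iterate {n : α → ℕ} {b : α → β} {f : α → β → β} (hM : MB M (fun i => sz (x i)))
    (hn : PolyTime n) (hb : PolyTime b) (hf : PolyTime (fun q : α × β => f q.1 q.2))
    (hs : ∃ p : Polynomial ℕ, ∀ i j, j ≤ n (x i) →
      sz ((f (x i))^[j] (b (x i))) ≤ p.eval (M i)) :
    MTime M x (fun i => (f (x i))^[n (x i)] (b (x i))) := by
  have hsn : MB M (fun i => sz (n (x i))) := (mtime_of_polyTime hM hn).size hM
  have hsb : MB M (fun i => sz (b (x i))) := (mtime_of_polyTime hM hb).size hM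
  obtain ⟨cn, hcn, pn, hpn⟩ := hn
  obtain ⟨cb, hcb, pb, hpb⟩ := hb
  have h1 : MB M (fun i => cn.cost (enc (x i))) := (MB.poly pn hM).mono fun i => hpn (x i)
  have h2 : MB M (fun i => cb.cost (enc (x i))) := (MB.poly pb hM).mono fun i => hpb (x i)
  obtain ⟨cf, hcf, kf, hpf⟩ := hf
  obtain ⟨k, hp⟩ := hs
  set body := Code.pair Code.fst cf with hbody
  have hbe : ∀ a (x : β), body.eval (T.cons (enc a) (enc x)) = T.cons (enc a) (enc (f a x)) := by
    intro a x
    rw [hbody, Code.eval_pair, Code.eval_fst]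
    have := hcf (a, x)
    rw [enc_pair] at this
    rw [this]
    rfl
  have hit : ∀ a i, (body.eval)^[i] (T.cons (enc a) (enc (b a))) =
      T.cons (enc a) (enc ((f a)^[i] (b a))) := by
    intro a i
    induction i with
    | zero => rfl
    | succ i ih => rw [Function.iterate_succ_apply', ih, hbe, Function.iterate_succ_apply']
  refine ⟨Code.comp Code.snd (Code.comp (Code.iter body) (Code.pair cn (Code.pair Code.id cb))),
    fun i => ?_, ?_⟩
  · simp only [Code.eval_comp, Code.eval_pair, Code.eval_id, Code.eval_snd, hcn, hcb,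
      Code.eval_iter_cons, len_enc_nat, hit]
    rfl
  · -- bound for one step
    let P : ι → ℕ := fun i => k.eval (M i)
    have hPB : MB M P := ⟨k, fun a => le_rfl⟩
    let B : ι → ℕ := fun i => kf.eval (sz (x i) + P i + 1) + 20 * sz (x i) +
      20 * P i + sz (n (x i)) + 20
    have hB : MB M B :=
      ((((MB.poly kf ((hM.add hPB).add (MB.const 1))).add
        ((MB.const 20).mul hM)).add ((MB.const 20).mul hPB)).add hsn).add (MB.const 20)
    have hnB : MB M (fun i => n (x i)) := hsn.mono fun a => by rw [sz_nat]; omega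
    have hstep : ∀ a i, i < n (x a) →
        Code.cost body (T.cons (enc (x a)) (enc ((f (x a))^[i] (b (x a))))) +
        (T.cons (enc (x a)) (enc ((f (x a))^[i] (b (x a))))).size +
        (T.cons (enc (x a)) (enc ((f (x a))^[i + 1] (b (x a))))).size +
          (enc (n (x a))).size + 1 ≤ B a := by
      intro a i hi
      have hc1 := hpf (x a, (f (x a))^[i] (b (x a)))
      have hs1 := hp a i hi.le
      have hs2 := hp a (i + 1) hi
      have hc2 : cf.cost (T.cons (enc (x a)) (enc ((f (x a))^[i] (b (x a))))) ≤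
          kf.eval (sz (x a) + P a + 1) := by
        refine hc1.trans (poly_mono kf ?_)
        show sz (x a, (f (x a))^[i] (b (x a))) ≤ _
        rw [sz_pair]
        exact Nat.add_le_add_right (Nat.add_le_add_left hs1 _) _
      have hev : cf.eval (T.cons (enc (x a)) (enc ((f (x a))^[i] (b (x a))))) =
          enc ((f (x a))^[i + 1] (b (x a))) := by
        have := hcf (x a, (f (x a))^[i] (b (x a)))
        rw [enc_pair] at this
        rw [this, Function.iterate_succ_apply']
      have e0 : (enc (x a)).size = sz (x a) := rfl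
      have e1 : (enc ((f (x a))^[i] (b (x a)))).size = sz ((f (x a))^[i] (b (x a))) := rfl
      have e2 : (enc ((f (x a))^[i+1] (b (x a)))).size = sz ((f (x a))^[i+1] (b (x a))) := rfl
      have e3 : (enc (n (x a))).size = sz (n (x a)) := rfl
      simp only [hbody, Code.cost, Code.eval_fst, T.fst_cons, hev, T.size_cons, e0, e1, e2, e3, B,
        P] at hc2 ⊢
      omega
    have hsum : ∀ a, ∑ i ∈ Finset.range (n (x a)),
        (Code.cost body (T.cons (enc (x a)) (enc ((f (x a))^[i] (b (x a))))) +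
        (T.cons (enc (x a)) (enc ((f (x a))^[i] (b (x a))))).size +
        (T.cons (enc (x a)) (enc ((f (x a))^[i + 1] (b (x a))))).size +
          (enc (n (x a))).size + 1) ≤ n (x a) * B a := by
      intro a
      refine (Finset.sum_le_sum (fun i hi => hstep a i (Finset.mem_range.1 hi))).trans ?_
      rw [Finset.sum_const, Finset.card_range, smul_eq_mul]
    have htot : MB M (fun a => cn.cost (enc (x a)) + cb.cost (enc (x a)) + 20 * sz (x a) +
        20 * sz (n (x a)) + 20 * sz (b (x a)) + 20 * P a + n (x a) * B a + 30) :=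
      ((((((h1.add h2).add ((MB.const 20).mul hM)).add ((MB.const 20).mul hsn)).add
        ((MB.const 20).mul hsb)).add ((MB.const 20).mul hPB)).add
        (hnB.mul hB)).add (MB.const 30)
    refine htot.mono fun a => ?_
    have e0 : (enc (x a)).size = sz (x a) := rfl
    have e1 : (enc (b (x a))).size = sz (b (x a)) := rfl
    have e2 : (enc ((f (x a))^[n (x a)] (b (x a)))).size =
      sz ((f (x a))^[n (x a)] (b (x a))) := rfl
    have e3 : (enc (n (x a))).size = sz (n (x a)) := rfl
    have hs1 : sz ((f (x a))^[n (x a)] (b (x a))) ≤ P a := hp a (n (x a)) le_rfl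
    have hsum' := hsum a
    simp only [Code.cost, Code.eval_comp, Code.eval_pair, Code.eval_id, hcn, hcb,
      Code.eval_iter_cons, len_enc_nat, hit, T.size_cons, e0, e1, e2, e3] at hsum' ⊢
    omega

end MTime

/-! ### search for a budget -/

/-- one step of the search -/
def dbl {α β : Type*} (f : α → ℕ → List β) (a : α) (q : ℕ × List β) : ℕ × List β :=
  bif q.2.isEmpty then (q.1 + q.1 + 1, f a q.1) else q

section dbl

variable {α β : Type*} {f : α → ℕ → List β} {a : α} {s : ℕ}

theorem dbl_inv (h : ∀ t, s ≤ t → f a t ≠ []) (i : ℕ) :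
    (((dbl f a)^[i] (0, [])).2 = [] → ((dbl f a)^[i] (0, [])).1 ≤ 2 * s + 1) ∧
    ((dbl f a)^[i] (0, [])).1 ≤ 4 * s + 3 ∧
    (((dbl f a)^[i] (0, [])).2 = [] ∨
      ∃ t, t ≤ 2 * s + 1 ∧ ((dbl f a)^[i] (0, [])).2 = f a t) := by
  induction i with
  | zero =>
    refine ⟨fun _ => Nat.zero_le _, Nat.zero_le _, Or.inl rfl⟩
  | succ i ih =>
    rw [Function.iterate_succ_apply']
    generalize (dbl f a)^[i] (0, []) = q at ih
    obtain ⟨t, r⟩ := q
    obtain ⟨h1, h2, h3⟩ := ih
    unfold dbl
    cases hr : r with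
    | nil =>
      rw [List.isEmpty_nil, cond_true]
      have ht := h1 hr
      simp only at ht ⊢
      refine ⟨fun h4 => ?_, by omega, Or.inr ⟨t, ht, rfl⟩⟩
      have h5 : t < s := by
        by_contra hcon
        exact h t (not_lt.1 hcon) h4
      omega
    | cons y r' =>
      rw [List.isEmpty_cons, cond_false]
      subst hr
      exact ⟨h1, h2, h3⟩

theorem dbl_success (h : ∀ t, s ≤ t → f a t ≠ []) {N : ℕ} (hN : s < 2 ^ N) :
    ∃ t, f a t ≠ [] ∧ ((dbl f a)^[N + 1] (0, [])).2 = f a t := by
  have key : ∀ i, (((dbl f a)^[i] (0, [])).2 = [] ∧ ((dbl f a)^[i] (0, [])).1 = 2 ^ i - 1) ∨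
      (((dbl f a)^[i] (0, [])).2 ≠ [] ∧ ∃ t, ((dbl f a)^[i] (0, [])).2 = f a t) := by
    intro i
    induction i with
    | zero => exact Or.inl ⟨rfl, rfl⟩
    | succ i ih =>
      rw [Function.iterate_succ_apply']
      generalize (dbl f a)^[i] (0, []) = q at ih
      obtain ⟨t, r⟩ := q
      unfold dbl
      rcases ih with ⟨h1, h2⟩ | ⟨h1, h2⟩
      · simp only at h1 h2
        subst h1
        rw [List.isEmpty_nil, cond_true]
        by_cases h3 : f a t = []
        · left
          refine ⟨h3, ?_⟩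
          simp only
          rw [h2, pow_succ]
          have := Nat.one_le_two_pow (n := i)
          omega
        · right
          exact ⟨h3, t, rfl⟩
      · right
        simp only at h1 h2
        have h4 : r.isEmpty = false := by
          rw [List.isEmpty_eq_false_iff]
          exact h1
        rw [h4, cond_false]
        exact ⟨h1, h2⟩
  have h2 : (((dbl f a)^[N + 1] (0, [])).2 ≠ [] ∧
      ∃ t, ((dbl f a)^[N + 1] (0, [])).2 = f a t) := by
    rcases key N with ⟨h3, h4⟩ | h3
    · rw [Function.iterate_succ_apply']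
      generalize (dbl f a)^[N] (0, []) = q at h3 h4
      obtain ⟨t, r⟩ := q
      simp only at h3 h4
      subst h3
      unfold dbl
      rw [List.isEmpty_nil, cond_true]
      refine ⟨h t ?_, t, rfl⟩
      have := Nat.one_le_two_pow (n := N)
      omega
    · rcases key (N + 1) with ⟨h4, _⟩ | h4
      · exfalso
        rw [Function.iterate_succ_apply'] at h4
        generalize (dbl f a)^[N] (0, []) = q at h3 h4
        obtain ⟨t, r⟩ := q
        obtain ⟨h3, _⟩ := h3
        simp only at h3
        unfold dbl at h4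
        have h5 : r.isEmpty = false := by
          rw [List.isEmpty_eq_false_iff]
          exact h3
        rw [h5, cond_false] at h4
        exact h3 h4
      · exact h4
  obtain ⟨h3, t, ht⟩ := h2
  exact ⟨t, by rw [← ht]; exact h3, ht⟩

end dbl

/-- the search takes time polynomial in the input and the least sufficient budget -/
theorem doubling {α β : Type*} [Enc α] [Enc β] {f : α → ℕ → List β}
    (hf : PolyTime (fun q : α × ℕ => f q.1 q.2)) {N : α → ℕ} (hN : PolyTime N) :
    ∃ (c : Code) (p : Polynomial ℕ), ∀ (a : α) (s : ℕ), (∀ t, s ≤ t → f a t ≠ []) →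
      c.eval (enc a) = enc ((dbl f a)^[N a] (0, [])).2 ∧ c.cost (enc a) ≤ p.eval (sz a + s) := by
  let ι : Type _ := {q : α × ℕ // ∀ t, q.2 ≤ t → f q.1 t ≠ []}
  let x : ι → α := fun i => i.1.1
  let M : ι → ℕ := fun i => sz i.1.1 + i.1.2
  have hM : MB M (fun i => sz (x i)) := MB.self.mono fun i => Nat.le_add_right _ _
  have hstep : PolyTime (fun q : α × (ℕ × List β) => dbl f q.1 q.2) := by
    unfold dbl
    refine PolyTime.cond PolyTime.id.snd.snd.isEmpty ?_ PolyTime.id.snd
    have h1 : PolyTime (fun q : α × (ℕ × List β) => q.2.1) := PolyTime.id.snd.fst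
    refine ((h1.add h1).succ).pair ?_
    exact PolyTime.comp (g := fun q : α × ℕ => f q.1 q.2) hf (PolyTime.id.fst.pair h1)
  obtain ⟨pf, hpf⟩ := hf.sz_le
  have hs : ∃ p : Polynomial ℕ, ∀ i j, j ≤ N (x i) →
      sz ((dbl f (x i))^[j] ((fun _ => ((0, []) : ℕ × List β)) (x i))) ≤ p.eval (M i) := by
    have hb : MB M (fun i => 2 * (4 * (M i) + 3) + 10 + pf.eval (M i + (4 * (M i) + 6))) := by
      refine ((((MB.const 2).mul (((MB.const 4).mul MB.self).add (MB.const 3))).add
        (MB.const 10))).add (MB.poly pf (MB.self.add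
        (((MB.const 4).mul MB.self).add (MB.const 6))))
    obtain ⟨p, hp⟩ := hb
    refine ⟨p, fun i j _ => le_trans ?_ (hp i)⟩
    obtain ⟨h1, h2, h3⟩ := dbl_inv i.2 j
    show sz ((dbl f (x i))^[j] (0, [])) ≤
      2 * (4 * (M i) + 3) + 10 + pf.eval (M i + (4 * (M i) + 6))
    have hsM : i.1.2 ≤ M i := Nat.le_add_left _ _
    have haM : sz i.1.1 ≤ M i := Nat.le_add_right _ _
    have e1 : sz ((dbl f (x i))^[j] (0, [])) = sz ((dbl f (x i))^[j] (0, [])).1 +
        sz ((dbl f (x i))^[j] (0, [])).2 + 1 := sz_pair _ _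
    rw [e1, sz_nat]
    rcases h3 with h3 | ⟨t, ht, h3⟩
    · have h4 : ((dbl f (x i))^[j] (0, [])).2 = [] := h3
      rw [h4]
      have h5 : ((dbl f (x i))^[j] (0, [])).1 ≤ 4 * i.1.2 + 3 := h2
      have h6 : sz ([] : List β) = 1 := rfl
      rw [h6]
      omega
    · have h4 : ((dbl f (x i))^[j] (0, [])).2 = f (x i) t := h3
      rw [h4]
      have h5 : ((dbl f (x i))^[j] (0, [])).1 ≤ 4 * i.1.2 + 3 := h2
      have h6 : sz (f (x i) t) ≤ pf.eval (M i + (4 * M i + 6)) := by
        refine (hpf (x i, t)).trans (poly_mono pf ?_)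
        have e2 : sz (x i, t) = sz (x i) + sz t + 1 := sz_pair _ _
        rw [e2, sz_nat]
        have e3 : sz (x i) = sz i.1.1 := rfl
        rw [e3]
        omega
      omega
  have hit := MTime.iterate (M := M) (x := x) (n := N) (b := fun _ => ((0, []) : ℕ × List β))
    (f := dbl f) hM hN (PolyTime.const _) hstep hs
  have hsnd : PolyTime (fun q : ℕ × List β => q.2) := PolyTime.id.snd
  obtain ⟨c, hc, p, hp⟩ := MTime.comp (g := fun q : ℕ × List β => q.2) hM hit hsnd
  refine ⟨c, p, fun a s h => ?_⟩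
  exact ⟨hc ⟨(a, s), h⟩, hp ⟨(a, s), h⟩⟩

end Pool.Agent.CDH
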