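import Mathlib
import Pool.Agent.Lib.PolyTime.Lib
import Pool.Agent.CDom.StmtDefs
import Pool.Agent.CDom.TM
import Pool.Agent.CDom.Final
import Pool.Agent.CDH.MTime

/-!
# From a function with a budget to a Turing machine
-/

set_option autoImplicit false

namespace Pool.Agent.CDH

open Pool.Agent.Lib.PT Pool.Agent.CDom

theorem machine_of_search {f : List Bool → ℕ → List (List Bool)}
    (hf : PolyTime (fun q : List Bool × ℕ => f q.1 q.2)) {N : List Bool → ℕ} (hN : PolyTime N) :
    ∃ (T : Turing.FinTM2) (i : T.Γ T.k₀ ≃ Bool) (o : T.Γ T.k₁ ≃ Bool) (p : Polynomial ℕ),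
      ∀ (w : List Bool) (s : ℕ) (Good : List Bool → Prop), (∀ t, s ≤ t → f w t ≠ []) →
        s < 2 ^ N w → (∀ t, f w t ≠ [] → ∃ w', f w t = [w'] ∧ Good w') →
        ∃ w', Good w' ∧ Outputs T i o w w' (p.eval (sz w + s)) := by
  obtain ⟨c, p, hc⟩ := doubling hf (N := fun w => N w + 1) hN.succ
  obtain ⟨ch, hch, ph, hph⟩ : PolyTime (fun r : List (List Bool) => r.headD []) :=
    PolyTime.headD PolyTime.id (PolyTime.const [])
  obtain ⟨T, i, o, hT⟩ := code_machine (Code.comp ch c)
  -- the time bound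
  let X : Polynomial ℕ := Polynomial.X
  let Q : Polynomial ℕ := p + ph.comp (X + p) + 1
  refine ⟨T, i, o, 7 * X + 40 * Q + 9 * (X + Q) + 13, ?_⟩
  intro w s Good h1 h2 h3
  obtain ⟨hc1, hc2⟩ := hc w s h1
  obtain ⟨t, ht1, ht2⟩ := dbl_success (f := f) (a := w) h1 h2
  obtain ⟨w', ht3, hgood⟩ := h3 t ht1
  refine ⟨w', hgood, ?_⟩
  have hres : ((dbl f w)^[N w + 1] (0, [])).2 = [w'] := by
    rw [ht2]
    exact ht3
  rw [hres] at hc1
  have hev : (Code.comp ch c).eval (enc w) = enc w' := by
    rw [Code.eval_comp, hc1, hch]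
    rfl
  have hm := hT w w' hev
  have hsz1 : sz ([w'] : List (List Bool)) ≤ sz w + c.cost (enc w) := by
    have := Code.size_eval_le c (enc w)
    rw [hc1] at this
    exact this
  have hcost : (Code.comp ch c).cost (enc w) ≤ Q.eval (sz w + s) := by
    have h4 : (Code.comp ch c).cost (enc w) = c.cost (enc w) + ch.cost (enc [w']) + 1 := by
      simp only [Code.cost, hc1]
    rw [h4]
    have h5 : ch.cost (enc [w']) ≤ (ph.comp (X + p)).eval (sz w + s) := by
      rw [Polynomial.eval_comp, Polynomial.eval_add, Polynomial.eval_X]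
      refine (hph [w']).trans (poly_mono ph ?_)
      refine hsz1.trans ?_
      omega
    have h6 : Q.eval (sz w + s) = p.eval (sz w + s) + (ph.comp (X + p)).eval (sz w + s) + 1 := by
      simp only [Q, Polynomial.eval_add, Polynomial.eval_one]
    rw [h6]
    omega
  have hsz2 : w'.length ≤ (sz w + s) + Q.eval (sz w + s) := by
    have h7 : sz w' ≤ sz w + (Code.comp ch c).cost (enc w) := by
      have := Code.size_eval_le (Code.comp ch c) (enc w)
      rw [hev] at this
      exact this
    have h8 := length_lt_sz w'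
    omega
  refine hm.mono ?_
  have h9 : (7 * X + 40 * Q + 9 * (X + Q) + 13 : Polynomial ℕ).eval (sz w + s) =
      7 * (sz w + s) + 40 * Q.eval (sz w + s) + 9 * ((sz w + s) + Q.eval (sz w + s)) + 13 := by
    have e7 : ((7 : Polynomial ℕ)).eval (sz w + s) = 7 := Polynomial.eval_ofNat _ _
    have e40 : ((40 : Polynomial ℕ)).eval (sz w + s) = 40 := Polynomial.eval_ofNat _ _
    have e9 : ((9 : Polynomial ℕ)).eval (sz w + s) = 9 := Polynomial.eval_ofNat _ _
    have e13 : ((13 : Polynomial ℕ)).eval (sz w + s) = 13 := Polynomial.eval_ofNat _ _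
    simp only [Polynomial.eval_add, Polynomial.eval_mul, e7, e40, e9, e13, X,
      Polynomial.eval_X]
  rw [h9]
  have h10 := length_lt_sz w
  omega

end Pool.Agent.CDH
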