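import Mathlib
import Pool.Agent.Lib.PolyTime.Lib
import Pool.Agent.CDom.Prog
import Pool.Agent.CDom.PT1
import Pool.Agent.CDom.Parse
import Pool.Agent.CDH.Prog

/-!
# The enumeration algorithm with a budgeted oracle for hypergraph dualization

`hd m E s` is the oracle: hypergraph with vertices `0, .., m-1` and hyperedges `E`, budget `s`; it
returns nothing (budget too small) or the list of all minimal transversals.
-/

set_option autoImplicit false

namespace Pool.Agent.CDH

open Pool.Agent.Lib.PT Pool.Agent.CDom Pool.Agent.CDom.Prog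

/-- possible new vertices -/
def ph (g : Gr) (O Z : List ℕ) (h : ℕ) : List ℕ :=
  (List.range g.1).filter fun x =>
    mem x O && (!mem x Z && (reach g Z h).any fun a => adj g a x)

/-- clauses of the components of `G[Z]` different from the one of `h` -/
def clK (g : Gr) (O Z : List ℕ) (h : ℕ) : List (List ℕ) :=
  (Z.filter fun w => !mem w (reach g Z h)).map fun w =>
    (ph g O Z h).filter fun x => (reach g Z w).any fun a => adj g a x

/-- clauses of the undominated vertices -/
def clU (g : Gr) (O Z : List ℕ) (h : ℕ) : List (List ℕ) :=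
  (und g Z).map fun u => (ph g O Z h).filter fun x => adj g x u

/-- all clauses -/
def cl (g : Gr) (O Z : List ℕ) (h : ℕ) : List (List ℕ) := clK g O Z h ++ clU g O Z h

/-- the pairs `(Z, h)` tried for `D` and `v` -/
def zh (k : ℕ) (g : Gr) (v : ℕ) (D : List ℕ) : List (List ℕ × ℕ) :=
  ((tuples g.1 k).flatMap fun P => (List.range g.1).map fun h =>
    (del D v ++ del (P.filter fun x => decide (x < g.1)) v, h)).filter fun q => mem q.2 q.1

/-- sorted list of the vertices in `Z` -/
def canon (g : Gr) (Z : List ℕ) : List ℕ := (List.range g.1).filter fun v => mem v Z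

/-- greedy minimalisation, deleting only vertices of `O` -/
def greedyO (g : Gr) (O Z : List ℕ) : List ℕ :=
  O.foldl (fun Z v => bif cds g (del Z v) then del Z v else Z) Z

/-- same set -/
def sameS (T T' : List ℕ) : Bool := (T.all fun t => mem t T') && T'.all fun t => mem t T

/-- remove duplicates -/
def dedup (L : List (List ℕ)) : List (List ℕ) :=
  L.foldl (fun acc T => bif acc.any (fun T' => sameS T T') then acc else T :: acc) []

section
variable (hd : ℕ → List (List ℕ) → ℕ → List (List (List ℕ))) (k : ℕ)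

/-- all oracle calls succeed -/
def okAll (g : Gr) (O : List ℕ) (v s : ℕ) (L : List (List ℕ)) : Bool :=
  L.all fun D => (zh k g v D).all fun q => !(hd g.1 (cl g O q.1 q.2) s).isEmpty

/-- candidates obtained from `D` -/
def cands1 (g : Gr) (O : List ℕ) (v s : ℕ) (D : List ℕ) : List (List ℕ) :=
  D :: (zh k g v D).flatMap fun q =>
    (hd g.1 (cl g O q.1 q.2) s).flatMap fun l => l.map fun Y => q.1 ++ Y

/-- the new list -/
def newL (g : Gr) (O : List ℕ) (v s : ℕ) (L : List (List ℕ)) : List (List ℕ) :=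
  dedup ((L.flatMap fun D => cands1 hd k g O v s D).map fun Z => canon g (greedyO g (v :: O) Z))

/-- one step: the `j`-th vertex of the order becomes optional -/
def stepB (a : (Gr × List ℕ) × ℕ) (st : Bool × List (List ℕ)) (j : ℕ) : Bool × List (List ℕ) :=
  bif st.1 && (okAll hd k a.1.1 (a.1.2.take j) (a.1.2.getD j 0) a.2 st.2 &&
      decide ((newL hd k a.1.1 (a.1.2.take j) (a.1.2.getD j 0) a.2 st.2).length ≤ a.2)) then
    (true, newL hd k a.1.1 (a.1.2.take j) (a.1.2.getD j 0) a.2 st.2)
  else (false, [])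

/-- start -/
def startB (g : Gr) : Bool × List (List ℕ) :=
  (true, bif cds g (List.range g.1) then [List.range g.1] else [])

/-- all steps -/
def runB (a : (Gr × List ℕ) × ℕ) : Bool × List (List ℕ) :=
  (List.range a.1.1.1).foldl (stepB hd k a) (startB a.1.1)

/-- the result, or nothing -/
def mainB (a : (Gr × List ℕ) × ℕ) : List (List (List ℕ)) :=
  bif (runB hd k a).1 then [(runB hd k a).2] else []

end

/-! ### the order -/

/-- is there a star with centre `v`, `d` leaves in `O` and legs outside `O`? -/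
def star (d : ℕ) (g : Gr) (O : List ℕ) (v : ℕ) : Bool :=
  (tuples g.1 d).any fun X =>
    decide (d ≤ ((List.range g.1).filter fun x => mem x X).length) &&
    ((X.all fun x => mem x O) && ((X.all fun x => X.all fun y => !adj g x y) &&
      X.all fun x => adj g v x || (List.range g.1).any fun a =>
        mem a (compl g.1 (v :: O)) && (adj g v a &&
          (((reach g (compl g.1 (v :: O)) a).any fun b => adj g b x) &&
            X.all fun y => decide (y = x) ||
              !((reach g (compl g.1 (v :: O)) a).any fun b => adj g b y)))))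

/-- the next vertex to be removed from `O` -/
def pickV (d : ℕ) (g : Gr) (O : List ℕ) : ℕ :=
  (O.filter fun v => !star d g (del O v) v).headD (O.headD 0)

/-- the order of the vertices -/
def ordG (d : ℕ) (g : Gr) : List ℕ :=
  (fun acc => pickV d g (compl g.1 acc) :: acc)^[g.1] []

/-! ### polynomial time -/

section

variable {α : Type*} [Enc α]

theorem pt_ph {g : α → Gr} {O Z : α → List ℕ} {h : α → ℕ} (hg : PolyTime g) (hO : PolyTime O)
    (hZ : PolyTime Z) (hh : PolyTime h) : PolyTime (fun a => ph (g a) (O a) (Z a) (h a)) := by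
  unfold ph
  refine PolyTime.filter (f := fun a (x : ℕ) => mem x (O a) && (!mem x (Z a) &&
    (reach (g a) (Z a) (h a)).any fun b => adj (g a) b x)) (PolyTime.range hg.fst) ?_
  refine PolyTime.and (pt_mem PolyTime.id.snd (hO.comp PolyTime.id.fst)) (PolyTime.and
    (pt_mem PolyTime.id.snd (hZ.comp PolyTime.id.fst)).not ?_)
  refine PolyTime.any (f := fun (q : α × ℕ) b => adj (g q.1) b q.2)
    ((pt_reach hg hZ hh).comp PolyTime.id.fst) ?_
  exact pt_adj (hg.comp PolyTime.id.fst.fst) PolyTime.id.snd PolyTime.id.fst.snd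

theorem pt_clK {g : α → Gr} {O Z : α → List ℕ} {h : α → ℕ} (hg : PolyTime g) (hO : PolyTime O)
    (hZ : PolyTime Z) (hh : PolyTime h) : PolyTime (fun a => clK (g a) (O a) (Z a) (h a)) := by
  unfold clK
  refine PolyTime.map (f := fun a (w : ℕ) => (ph (g a) (O a) (Z a) (h a)).filter fun x =>
    (reach (g a) (Z a) w).any fun b => adj (g a) b x) ?_ ?_
  · exact PolyTime.filter (f := fun a (w : ℕ) => !mem w (reach (g a) (Z a) (h a))) hZ
      (pt_mem PolyTime.id.snd ((pt_reach hg hZ hh).comp PolyTime.id.fst)).not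
  · refine PolyTime.filter (f := fun (q : α × ℕ) (x : ℕ) =>
      (reach (g q.1) (Z q.1) q.2).any fun b => adj (g q.1) b x)
      ((pt_ph hg hO hZ hh).comp PolyTime.id.fst) ?_
    refine PolyTime.any (f := fun (r : (α × ℕ) × ℕ) b => adj (g r.1.1) b r.2) ?_ ?_
    · exact pt_reach (hg.comp PolyTime.id.fst.fst) (hZ.comp PolyTime.id.fst.fst)
        PolyTime.id.fst.snd
    · exact pt_adj (hg.comp PolyTime.id.fst.fst.fst) PolyTime.id.snd PolyTime.id.fst.snd

theorem pt_clU {g : α → Gr} {O Z : α → List ℕ} {h : α → ℕ} (hg : PolyTime g) (hO : PolyTime O)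
    (hZ : PolyTime Z) (hh : PolyTime h) : PolyTime (fun a => clU (g a) (O a) (Z a) (h a)) := by
  unfold clU
  refine PolyTime.map (f := fun a (u : ℕ) => (ph (g a) (O a) (Z a) (h a)).filter fun x =>
    adj (g a) x u) (pt_und hg hZ) ?_
  refine PolyTime.filter (f := fun (q : α × ℕ) (x : ℕ) => adj (g q.1) x q.2)
    ((pt_ph hg hO hZ hh).comp PolyTime.id.fst) ?_
  exact pt_adj (hg.comp PolyTime.id.fst.fst) PolyTime.id.snd PolyTime.id.fst.snd

theorem pt_cl {g : α → Gr} {O Z : α → List ℕ} {h : α → ℕ} (hg : PolyTime g) (hO : PolyTime O)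
    (hZ : PolyTime Z) (hh : PolyTime h) : PolyTime (fun a => cl (g a) (O a) (Z a) (h a)) := by
  unfold cl
  exact PolyTime.append (pt_clK hg hO hZ hh) (pt_clU hg hO hZ hh)

theorem pt_zh {g : α → Gr} {v : α → ℕ} {D : α → List ℕ} (hg : PolyTime g) (hv : PolyTime v)
    (hD : PolyTime D) (k : ℕ) : PolyTime (fun a => zh k (g a) (v a) (D a)) := by
  unfold zh
  refine PolyTime.filter (f := fun (_ : α) (q : List ℕ × ℕ) => mem q.2 q.1) ?_
    (pt_mem PolyTime.id.snd.snd PolyTime.id.snd.fst)
  refine PolyTime.flatMap (f := fun a (P : List ℕ) => (List.range (g a).1).map fun h =>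
    (del (D a) (v a) ++ del (P.filter fun x => decide (x < (g a).1)) (v a), h))
    (pt_tuples hg.fst k) ?_
  refine PolyTime.map (f := fun (q : α × List ℕ) (h : ℕ) =>
    (del (D q.1) (v q.1) ++ del (q.2.filter fun x => decide (x < (g q.1).1)) (v q.1), h))
    (PolyTime.range (hg.comp PolyTime.id.fst).fst) ?_
  refine PolyTime.pair (PolyTime.append (pt_del (hD.comp PolyTime.id.fst.fst)
    (hv.comp PolyTime.id.fst.fst)) (pt_del ?_ (hv.comp PolyTime.id.fst.fst))) PolyTime.id.snd
  exact PolyTime.filter (f := fun (r : (α × List ℕ) × ℕ) (x : ℕ) => decide (x < (g r.1.1).1))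
    PolyTime.id.fst.snd (PolyTime.lt PolyTime.id.snd (hg.comp PolyTime.id.fst.fst.fst).fst)

theorem pt_canon {g : α → Gr} {Z : α → List ℕ} (hg : PolyTime g) (hZ : PolyTime Z) :
    PolyTime (fun a => canon (g a) (Z a)) := by
  unfold canon
  exact PolyTime.filter (f := fun a (v : ℕ) => mem v (Z a)) (PolyTime.range hg.fst)
    (pt_mem PolyTime.id.snd (hZ.comp PolyTime.id.fst))

theorem pt_greedyO {g : α → Gr} {O Z : α → List ℕ} (hg : PolyTime g) (hO : PolyTime O)
    (hZ : PolyTime Z) : PolyTime (fun a => greedyO (g a) (O a) (Z a)) := by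
  unfold greedyO
  refine PolyTime.foldl_add' (f := fun a (Z : List ℕ) (v : ℕ) =>
    bif cds (g a) (del Z v) then del Z v else Z) hO hZ ?_ ?_
  · exact PolyTime.cond (pt_cds (hg.comp PolyTime.id.fst)
      (pt_del PolyTime.id.snd.fst PolyTime.id.snd.snd))
      (pt_del PolyTime.id.snd.fst PolyTime.id.snd.snd) PolyTime.id.snd.fst
  · refine ⟨0, fun a x y => ?_⟩
    rw [Polynomial.eval_zero, Nat.add_zero]
    cases h : cds (g a) (del x y)
    · exact le_rfl
    · exact sz_filter_le _ _

theorem pt_sameS {T T' : α → List ℕ} (hT : PolyTime T) (hT' : PolyTime T') :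
    PolyTime (fun a => sameS (T a) (T' a)) := by
  unfold sameS
  refine PolyTime.and ?_ ?_
  · exact PolyTime.all (f := fun a (t : ℕ) => mem t (T' a)) hT
      (pt_mem PolyTime.id.snd (hT'.comp PolyTime.id.fst))
  · exact PolyTime.all (f := fun a (t : ℕ) => mem t (T a)) hT'
      (pt_mem PolyTime.id.snd (hT.comp PolyTime.id.fst))

theorem pt_dedup {L : α → List (List ℕ)} (hL : PolyTime L) : PolyTime (fun a => dedup (L a)) := by
  unfold dedup
  refine PolyTime.foldl_add' (f := fun (_ : α) (acc : List (List ℕ)) (T : List ℕ) =>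
    bif acc.any (fun T' => sameS T T') then acc else T :: acc) hL (PolyTime.const []) ?_ ?_
  · refine PolyTime.cond ?_ PolyTime.id.snd.fst (PolyTime.id.snd.snd.cons PolyTime.id.snd.fst)
    exact PolyTime.any (f := fun (q : α × List (List ℕ) × List ℕ) (T' : List ℕ) =>
      sameS q.2.2 T') PolyTime.id.snd.fst (pt_sameS PolyTime.id.fst.snd.snd PolyTime.id.snd)
  · refine ⟨Polynomial.X + 1, fun a x y => ?_⟩
    rw [Polynomial.eval_add, Polynomial.eval_X, Polynomial.eval_one]
    cases h : x.any (fun T' => sameS y T')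
    · rw [cond_false, sz_list_cons]
      omega
    · rw [cond_true]
      omega

variable {hd : ℕ → List (List ℕ) → ℕ → List (List (List ℕ))} (k : ℕ)

theorem pt_hd (hhd : PolyTime (fun q : ℕ × List (List ℕ) × ℕ => hd q.1 q.2.1 q.2.2))
    {m : α → ℕ} {E : α → List (List ℕ)} {s : α → ℕ} (hm : PolyTime m) (hE : PolyTime E)
    (hs : PolyTime s) : PolyTime (fun a => hd (m a) (E a) (s a)) :=
  hhd.comp (hm.pair (hE.pair hs))

theorem pt_okAll (hhd : PolyTime (fun q : ℕ × List (List ℕ) × ℕ => hd q.1 q.2.1 q.2.2))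
    {g : α → Gr} {O : α → List ℕ} {v s : α → ℕ} {L : α → List (List ℕ)} (hg : PolyTime g)
    (hO : PolyTime O) (hv : PolyTime v) (hs : PolyTime s) (hL : PolyTime L) :
    PolyTime (fun a => okAll hd k (g a) (O a) (v a) (s a) (L a)) := by
  unfold okAll
  refine PolyTime.all (f := fun a (D : List ℕ) => (zh k (g a) (v a) D).all fun q =>
    !(hd (g a).1 (cl (g a) (O a) q.1 q.2) (s a)).isEmpty) hL ?_
  refine PolyTime.all (f := fun (r : α × List ℕ) (q : List ℕ × ℕ) =>
    !(hd (g r.1).1 (cl (g r.1) (O r.1) q.1 q.2) (s r.1)).isEmpty)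
    (pt_zh (hg.comp PolyTime.id.fst) (hv.comp PolyTime.id.fst) PolyTime.id.snd k) ?_
  exact (pt_hd hhd (hg.comp PolyTime.id.fst.fst).fst (pt_cl (hg.comp PolyTime.id.fst.fst)
    (hO.comp PolyTime.id.fst.fst) PolyTime.id.snd.fst PolyTime.id.snd.snd)
    (hs.comp PolyTime.id.fst.fst)).isEmpty.not

theorem pt_cands1 (hhd : PolyTime (fun q : ℕ × List (List ℕ) × ℕ => hd q.1 q.2.1 q.2.2))
    {g : α → Gr} {O : α → List ℕ} {v s : α → ℕ} {D : α → List ℕ} (hg : PolyTime g)
    (hO : PolyTime O) (hv : PolyTime v) (hs : PolyTime s) (hD : PolyTime D) :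
    PolyTime (fun a => cands1 hd k (g a) (O a) (v a) (s a) (D a)) := by
  unfold cands1
  refine PolyTime.cons hD ?_
  refine PolyTime.flatMap (f := fun a (q : List ℕ × ℕ) =>
    (hd (g a).1 (cl (g a) (O a) q.1 q.2) (s a)).flatMap fun l => l.map fun Y => q.1 ++ Y)
    (pt_zh hg hv hD k) ?_
  refine PolyTime.flatMap (f := fun (r : α × (List ℕ × ℕ)) (l : List (List ℕ)) =>
    l.map fun Y => r.2.1 ++ Y) ?_ ?_
  · exact pt_hd hhd (hg.comp PolyTime.id.fst).fst (pt_cl (hg.comp PolyTime.id.fst)
      (hO.comp PolyTime.id.fst) PolyTime.id.snd.fst PolyTime.id.snd.snd)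
      (hs.comp PolyTime.id.fst)
  · exact PolyTime.map (f := fun (t : (α × (List ℕ × ℕ)) × List (List ℕ)) (Y : List ℕ) =>
      t.1.2.1 ++ Y) PolyTime.id.snd (PolyTime.append PolyTime.id.fst.fst.snd.fst PolyTime.id.snd)

theorem pt_newL (hhd : PolyTime (fun q : ℕ × List (List ℕ) × ℕ => hd q.1 q.2.1 q.2.2))
    {g : α → Gr} {O : α → List ℕ} {v s : α → ℕ} {L : α → List (List ℕ)} (hg : PolyTime g)
    (hO : PolyTime O) (hv : PolyTime v) (hs : PolyTime s) (hL : PolyTime L) :
    PolyTime (fun a => newL hd k (g a) (O a) (v a) (s a) (L a)) := by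
  unfold newL
  refine pt_dedup ?_
  refine PolyTime.map (f := fun a (Z : List ℕ) => canon (g a) (greedyO (g a) (v a :: O a) Z))
    ?_ ?_
  · exact PolyTime.flatMap (f := fun a (D : List ℕ) => cands1 hd k (g a) (O a) (v a) (s a) D) hL
      (pt_cands1 k hhd (hg.comp PolyTime.id.fst) (hO.comp PolyTime.id.fst)
        (hv.comp PolyTime.id.fst) (hs.comp PolyTime.id.fst) PolyTime.id.snd)
  · exact pt_canon (hg.comp PolyTime.id.fst) (pt_greedyO (hg.comp PolyTime.id.fst)
      ((hv.comp PolyTime.id.fst).cons (hO.comp PolyTime.id.fst)) PolyTime.id.snd)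

end

theorem pt_stepB {hd : ℕ → List (List ℕ) → ℕ → List (List (List ℕ))} (k : ℕ)
    (hhd : PolyTime (fun q : ℕ × List (List ℕ) × ℕ => hd q.1 q.2.1 q.2.2)) :
    PolyTime (fun q : ((Gr × List ℕ) × ℕ) × (Bool × List (List ℕ)) × ℕ =>
      stepB hd k q.1 q.2.1 q.2.2) := by
  unfold stepB
  have hg : PolyTime (fun q : ((Gr × List ℕ) × ℕ) × (Bool × List (List ℕ)) × ℕ => q.1.1.1) :=
    PolyTime.id.fst.fst.fst
  have hord : PolyTime (fun q : ((Gr × List ℕ) × ℕ) × (Bool × List (List ℕ)) × ℕ =>
    q.1.1.2) := PolyTime.id.fst.fst.snd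
  have hj : PolyTime (fun q : ((Gr × List ℕ) × ℕ) × (Bool × List (List ℕ)) × ℕ => q.2.2) :=
    PolyTime.id.snd.snd
  have hs : PolyTime (fun q : ((Gr × List ℕ) × ℕ) × (Bool × List (List ℕ)) × ℕ => q.1.2) :=
    PolyTime.id.fst.snd
  have hL : PolyTime (fun q : ((Gr × List ℕ) × ℕ) × (Bool × List (List ℕ)) × ℕ => q.2.1.2) :=
    PolyTime.id.snd.fst.snd
  have hb : PolyTime (fun q : ((Gr × List ℕ) × ℕ) × (Bool × List (List ℕ)) × ℕ => q.2.1.1) :=
    PolyTime.id.snd.fst.fst
  have hO : PolyTime (fun q : ((Gr × List ℕ) × ℕ) × (Bool × List (List ℕ)) × ℕ =>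
    q.1.1.2.take q.2.2) := PolyTime.take hj hord
  have hv : PolyTime (fun q : ((Gr × List ℕ) × ℕ) × (Bool × List (List ℕ)) × ℕ =>
    q.1.1.2.getD q.2.2 0) := PolyTime.getD hord hj (PolyTime.const 0)
  have hnew := pt_newL k hhd hg hO hv hs hL
  exact PolyTime.cond (PolyTime.and hb (PolyTime.and (pt_okAll k hhd hg hO hv hs hL)
    (PolyTime.le hnew.length hs))) ((PolyTime.const true).pair hnew) (PolyTime.const (false, []))

theorem pt_startB {α : Type*} [Enc α] {g : α → Gr} (hg : PolyTime g) :
    PolyTime (fun a => startB (g a)) := by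
  unfold startB
  exact (PolyTime.const true).pair (PolyTime.cond (pt_cds hg (PolyTime.range hg.fst))
    ((PolyTime.range hg.fst).cons (PolyTime.const [])) (PolyTime.const []))

theorem sz_canon_le (g : Gr) (Z : List ℕ) : sz (canon g Z) ≤ sz (List.range g.1) :=
  sz_filter_le _ _

theorem mem_dedup {L : List (List ℕ)} {T : List ℕ} (h : T ∈ dedup L) : T ∈ L := by
  have key : ∀ (L acc : List (List ℕ)) (T : List ℕ),
      T ∈ L.foldl (fun acc T => bif acc.any (fun T' => sameS T T') then acc else T :: acc) acc →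
      T ∈ acc ∨ T ∈ L := by
    intro L
    induction L with
    | nil => exact fun acc T h => Or.inl h
    | cons U L ih =>
      intro acc T h
      rw [List.foldl_cons] at h
      rcases ih _ T h with h1 | h1
      · cases hb : acc.any (fun T' => sameS U T')
        · rw [hb, cond_false, List.mem_cons] at h1
          rcases h1 with rfl | h1
          · exact Or.inr List.mem_cons_self
          · exact Or.inl h1
        · rw [hb, cond_true] at h1
          exact Or.inl h1
      · exact Or.inr (List.mem_cons_of_mem _ h1)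
  rcases key L [] T h with h1 | h1
  · exact absurd h1 List.not_mem_nil
  · exact h1

theorem sz_stepB_le (hd : ℕ → List (List ℕ) → ℕ → List (List (List ℕ))) (k : ℕ)
    (a : (Gr × List ℕ) × ℕ) (st : Bool × List (List ℕ)) (j : ℕ) :
    sz (stepB hd k a st j) ≤ a.2 * (sz (List.range a.1.1.1) + 1) + 10 := by
  unfold stepB
  cases h : (st.1 && (okAll hd k a.1.1 (a.1.2.take j) (a.1.2.getD j 0) a.2 st.2 &&
      decide ((newL hd k a.1.1 (a.1.2.take j) (a.1.2.getD j 0) a.2 st.2).length ≤ a.2)))
  · rw [cond_false, sz_pair]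
    have h1 := sz_bool_le false
    have h2 : sz ([] : List (List ℕ)) = 1 := rfl
    omega
  · rw [cond_true, sz_pair]
    rw [Bool.and_eq_true, Bool.and_eq_true, decide_eq_true_eq] at h
    have h1 := sz_bool_le true
    have h3 : sz (newL hd k a.1.1 (a.1.2.take j) (a.1.2.getD j 0) a.2 st.2) ≤
        a.2 * (sz (List.range a.1.1.1) + 1) + 1 := by
      refine sz_le_of_length h.2.2 ?_
      intro T hT
      unfold newL at hT
      have h4 := mem_dedup hT
      rw [List.mem_map] at h4
      obtain ⟨Z, _, rfl⟩ := h4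
      exact sz_canon_le _ _
    omega

theorem pt_runB {hd : ℕ → List (List ℕ) → ℕ → List (List (List ℕ))} (k : ℕ)
    (hhd : PolyTime (fun q : ℕ × List (List ℕ) × ℕ => hd q.1 q.2.1 q.2.2)) :
    PolyTime (runB hd k) := by
  unfold runB
  have hg : PolyTime (fun a : (Gr × List ℕ) × ℕ => a.1.1) := PolyTime.id.fst.fst
  have hstart : PolyTime (fun a : (Gr × List ℕ) × ℕ => startB a.1.1) := pt_startB hg
  refine PolyTime.foldl (f := fun (a : (Gr × List ℕ) × ℕ) => stepB hd k a) hg.fst.range hstart
    (pt_stepB k hhd) ?_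
  obtain ⟨p, hp⟩ := hstart.sz_le
  have hr : PolyTime (fun a : (Gr × List ℕ) × ℕ => List.range a.1.1.1) := hg.fst.range
  obtain ⟨q, hq⟩ := hr.sz_le
  refine ⟨p + (Polynomial.X * (q + 1) + 10), fun a i hi => ?_⟩
  have e10 : ((10 : Polynomial ℕ)).eval (sz a) = 10 := Polynomial.eval_ofNat _ _
  rw [Polynomial.eval_add, Polynomial.eval_add, Polynomial.eval_mul, Polynomial.eval_add,
    Polynomial.eval_X, Polynomial.eval_one, e10]
  cases i with
  | zero =>
    rw [List.take_zero, List.foldl_nil]
    exact (hp a).trans (Nat.le_add_right _ _)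
  | succ i =>
    have hi' : i < (List.range a.1.1.1).length := hi
    rw [List.take_succ_eq_append_getElem hi', List.foldl_append, List.foldl_cons, List.foldl_nil]
    refine (sz_stepB_le hd k a _ _).trans ?_
    have h1 : a.2 ≤ sz a := by
      have h2 : sz a = sz a.1 + sz a.2 + 1 := sz_pair a.1 a.2
      rw [h2, sz_nat]
      omega
    have h3 := hq a
    have h4 : a.2 * (sz (List.range a.1.1.1) + 1) ≤ sz a * (q.eval (sz a) + 1) :=
      Nat.mul_le_mul h1 (Nat.add_le_add_right h3 1)
    omega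

theorem pt_mainB {hd : ℕ → List (List ℕ) → ℕ → List (List (List ℕ))} (k : ℕ)
    (hhd : PolyTime (fun q : ℕ × List (List ℕ) × ℕ => hd q.1 q.2.1 q.2.2)) :
    PolyTime (mainB hd k) := by
  unfold mainB
  exact PolyTime.cond (pt_runB k hhd).fst ((pt_runB k hhd).snd.cons (PolyTime.const []))
    (PolyTime.const [])

section
variable {α : Type*} [Enc α]

theorem pt_star {g : α → Gr} {O : α → List ℕ} {v : α → ℕ} (hg : PolyTime g) (hO : PolyTime O)
    (hv : PolyTime v) (d : ℕ) : PolyTime (fun a => star d (g a) (O a) (v a)) := by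
  unfold star
  have hF : PolyTime (fun a => compl (g a).1 (v a :: O a)) := pt_compl hg.fst (hv.cons hO)
  refine PolyTime.any (f := fun a (X : List ℕ) =>
    decide (d ≤ ((List.range (g a).1).filter fun x => mem x X).length) &&
    ((X.all fun x => mem x (O a)) && ((X.all fun x => X.all fun y => !adj (g a) x y) &&
      X.all fun x => adj (g a) (v a) x || (List.range (g a).1).any fun b =>
        mem b (compl (g a).1 (v a :: O a)) && (adj (g a) (v a) b &&
          (((reach (g a) (compl (g a).1 (v a :: O a)) b).any fun c => adj (g a) c x) &&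
            X.all fun y => decide (y = x) ||
              !((reach (g a) (compl (g a).1 (v a :: O a)) b).any fun c => adj (g a) c y))))))
    (pt_tuples hg.fst d) ?_
  -- on `α × List ℕ`
  have g1 : PolyTime (fun q : α × List ℕ => g q.1) := hg.comp PolyTime.id.fst
  have O1 : PolyTime (fun q : α × List ℕ => O q.1) := hO.comp PolyTime.id.fst
  have v1 : PolyTime (fun q : α × List ℕ => v q.1) := hv.comp PolyTime.id.fst
  have F1 : PolyTime (fun q : α × List ℕ => compl (g q.1).1 (v q.1 :: O q.1)) :=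
    hF.comp PolyTime.id.fst
  have X1 : PolyTime (fun q : α × List ℕ => q.2) := PolyTime.id.snd
  refine PolyTime.and (PolyTime.le (PolyTime.const d) (PolyTime.length ?_)) (PolyTime.and ?_
    (PolyTime.and ?_ ?_))
  · exact PolyTime.filter (f := fun (q : α × List ℕ) (x : ℕ) => mem x q.2) g1.fst.range
      (pt_mem PolyTime.id.snd PolyTime.id.fst.snd)
  · exact PolyTime.all (f := fun (q : α × List ℕ) (x : ℕ) => mem x (O q.1)) X1
      (pt_mem PolyTime.id.snd (O1.comp PolyTime.id.fst))
  · refine PolyTime.all (f := fun (q : α × List ℕ) (x : ℕ) => q.2.all fun y =>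
      !adj (g q.1) x y) X1 ?_
    exact PolyTime.all (f := fun (r : (α × List ℕ) × ℕ) (y : ℕ) => !adj (g r.1.1) r.2 y)
      (X1.comp PolyTime.id.fst) (pt_adj (g1.comp PolyTime.id.fst.fst) PolyTime.id.fst.snd
        PolyTime.id.snd).not
  · refine PolyTime.all (f := fun (q : α × List ℕ) (x : ℕ) => adj (g q.1) (v q.1) x ||
      (List.range (g q.1).1).any fun b =>
        mem b (compl (g q.1).1 (v q.1 :: O q.1)) && (adj (g q.1) (v q.1) b &&
          (((reach (g q.1) (compl (g q.1).1 (v q.1 :: O q.1)) b).any fun c =>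
            adj (g q.1) c x) && q.2.all fun y => decide (y = x) ||
              !((reach (g q.1) (compl (g q.1).1 (v q.1 :: O q.1)) b).any fun c =>
                adj (g q.1) c y)))) X1 ?_
    -- on `(α × List ℕ) × ℕ`
    refine PolyTime.or (pt_adj (g1.comp PolyTime.id.fst) (v1.comp PolyTime.id.fst)
      PolyTime.id.snd) ?_
    refine PolyTime.any (f := fun (r : (α × List ℕ) × ℕ) (b : ℕ) =>
        mem b (compl (g r.1.1).1 (v r.1.1 :: O r.1.1)) && (adj (g r.1.1) (v r.1.1) b &&
          (((reach (g r.1.1) (compl (g r.1.1).1 (v r.1.1 :: O r.1.1)) b).any fun c =>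
            adj (g r.1.1) c r.2) && r.1.2.all fun y => decide (y = r.2) ||
              !((reach (g r.1.1) (compl (g r.1.1).1 (v r.1.1 :: O r.1.1)) b).any fun c =>
                adj (g r.1.1) c y)))) (g1.comp PolyTime.id.fst).fst.range ?_
    -- on `((α × List ℕ) × ℕ) × ℕ`
    have g3 : PolyTime (fun t : ((α × List ℕ) × ℕ) × ℕ => g t.1.1.1) :=
      g1.comp PolyTime.id.fst.fst
    have v3 : PolyTime (fun t : ((α × List ℕ) × ℕ) × ℕ => v t.1.1.1) :=
      v1.comp PolyTime.id.fst.fst
    have F3 : PolyTime (fun t : ((α × List ℕ) × ℕ) × ℕ =>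
      compl (g t.1.1.1).1 (v t.1.1.1 :: O t.1.1.1)) := F1.comp PolyTime.id.fst.fst
    have R3 : PolyTime (fun t : ((α × List ℕ) × ℕ) × ℕ =>
      reach (g t.1.1.1) (compl (g t.1.1.1).1 (v t.1.1.1 :: O t.1.1.1)) t.2) :=
      pt_reach g3 F3 PolyTime.id.snd
    refine PolyTime.and (pt_mem PolyTime.id.snd F3) (PolyTime.and
      (pt_adj g3 v3 PolyTime.id.snd) (PolyTime.and ?_ ?_))
    · exact PolyTime.any (f := fun (t : ((α × List ℕ) × ℕ) × ℕ) (c : ℕ) =>
        adj (g t.1.1.1) c t.1.2) R3 (pt_adj (g3.comp PolyTime.id.fst) PolyTime.id.snd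
          PolyTime.id.fst.fst.snd)
    · refine PolyTime.all (f := fun (t : ((α × List ℕ) × ℕ) × ℕ) (y : ℕ) =>
        decide (y = t.1.2) || !((reach (g t.1.1.1) (compl (g t.1.1.1).1
          (v t.1.1.1 :: O t.1.1.1)) t.2).any fun c => adj (g t.1.1.1) c y))
        PolyTime.id.fst.fst.snd ?_
      refine PolyTime.or (PolyTime.eqNat PolyTime.id.snd PolyTime.id.fst.fst.snd)
        (PolyTime.not ?_)
      exact PolyTime.any (f := fun (u : (((α × List ℕ) × ℕ) × ℕ) × ℕ) (c : ℕ) =>
        adj (g u.1.1.1.1) c u.2) (R3.comp PolyTime.id.fst)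
          (pt_adj (g3.comp PolyTime.id.fst.fst) PolyTime.id.snd PolyTime.id.fst.snd)

theorem pt_pickV {g : α → Gr} {O : α → List ℕ} (hg : PolyTime g) (hO : PolyTime O) (d : ℕ) :
    PolyTime (fun a => pickV d (g a) (O a)) := by
  unfold pickV
  refine PolyTime.headD (PolyTime.filter (f := fun a (v : ℕ) =>
    !star d (g a) (del (O a) v) v) hO ?_) (PolyTime.headD hO (PolyTime.const 0))
  exact (pt_star (hg.comp PolyTime.id.fst) (pt_del (hO.comp PolyTime.id.fst) PolyTime.id.snd)
    PolyTime.id.snd d).not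

end

theorem headD_mem_or (L : List ℕ) (d : ℕ) : L.headD d ∈ L ∨ L.headD d = d := by
  cases L with
  | nil => exact Or.inr rfl
  | cons a L => exact Or.inl List.mem_cons_self

theorem pickV_mem_or (d : ℕ) (g : Gr) (O : List ℕ) : pickV d g O ∈ O ∨ pickV d g O = 0 := by
  unfold pickV
  rcases headD_mem_or (O.filter fun v => !star d g (del O v) v) (O.headD 0) with h | h
  · exact Or.inl (List.mem_of_mem_filter h)
  · rw [h]
    exact headD_mem_or O 0

theorem pt_ordG {α : Type*} [Enc α] {g : α → Gr} (hg : PolyTime g) (d : ℕ) :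
    PolyTime (fun a => ordG d (g a)) := by
  unfold ordG
  refine PolyTime.iterate_add (f := fun a (acc : List ℕ) =>
    pickV d (g a) (compl (g a).1 acc) :: acc) hg.fst (PolyTime.const []) ?_ ?_
  · exact (pt_pickV (hg.comp PolyTime.id.fst) (pt_compl (hg.comp PolyTime.id.fst).fst
      PolyTime.id.snd) d).cons PolyTime.id.snd
  · have hr : PolyTime (fun a => List.range (g a).1) := hg.fst.range
    obtain ⟨p, hp⟩ := hr.sz_le
    refine ⟨p + 2, fun a x => ?_⟩
    have e2 : ((2 : Polynomial ℕ)).eval (sz a) = 2 := Polynomial.eval_ofNat _ _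
    rw [sz_list_cons, Polynomial.eval_add, e2]
    have h1 : sz (pickV d (g a) (compl (g a).1 x)) ≤ sz (List.range (g a).1) + 1 := by
      rcases pickV_mem_or d (g a) (compl (g a).1 x) with h | h
      · have h2 : pickV d (g a) (compl (g a).1 x) ∈ List.range (g a).1 := by
          unfold Prog.compl at h
          exact List.mem_of_mem_filter h
        have h3 := sz_mem_lt h2
        omega
      · rw [h, sz_nat]
        omega
    have h2 := hp a
    omega

end Pool.Agent.CDH
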