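import Mathlib
import Pool.Agent.CDom.Defs
import Pool.Agent.CDom.Basic
import Pool.Agent.CDH.Connect
import Pool.Agent.CDH.Star

/-!
# Making the vertices optional one after the other

`MinO G O D`: `D` is minimal among the connected dominating sets which contain the complement of
`O`.  Passing from `O` to `insert v O`: a new minimal set `D'` either contains `v` and was minimal
before, or arises from a minimal set `D` by removing `v`, adding a bounded set `C` and a minimal
solution `Y` of a system of clauses.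
-/

set_option autoImplicit false

namespace Pool.Agent.CDH

open Finset Pool.Agent.CDom

variable {V : Type*} [Fintype V] [LinearOrder V] {G : SimpleGraph V}

/-- minimal among the connected dominating sets containing the complement of `O` -/
def MinO (G : SimpleGraph V) (O D : Finset V) : Prop :=
  CDS G D ∧ Oᶜ ⊆ D ∧ ∀ D', Oᶜ ⊆ D' → D' ⊂ D → ¬ CDS G D'

theorem MinO.eq_of_subset {O D D' : Finset V} (h : MinO G O D) (h' : CDS G D') (hO : Oᶜ ⊆ D')
    (hD : D' ⊆ D) : D' = D := by
  by_contra hne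
  exact h.2.2 D' hO (Finset.ssubset_iff_subset_ne.2 ⟨hD, hne⟩) h'

theorem exists_minO {O Z : Finset V} (hZ : CDS G Z) (hO : Oᶜ ⊆ Z) :
    ∃ D ⊆ Z, MinO G O D := by
  classical
  let F : Finset (Finset V) := Z.powerset.filter fun D => CDS G D ∧ Oᶜ ⊆ D
  have hF : F.Nonempty := by
    refine ⟨Z, ?_⟩
    rw [Finset.mem_filter, Finset.mem_powerset]
    exact ⟨Finset.Subset.refl _, hZ, hO⟩
  obtain ⟨D, hD, hmin⟩ := Finset.exists_min_image F Finset.card hF
  rw [Finset.mem_filter, Finset.mem_powerset] at hD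
  refine ⟨D, hD.1, hD.2.1, hD.2.2, fun D' hO' hD' hC => ?_⟩
  have h1 : D' ∈ F := by
    rw [Finset.mem_filter, Finset.mem_powerset]
    exact ⟨hD'.1.trans hD.1, hC, hO'⟩
  have h2 := hmin D' h1
  have h3 := Finset.card_lt_card hD'
  omega

theorem minO_empty {D : Finset V} : MinO G ∅ D ↔ D = univ ∧ CDS G univ := by
  constructor
  · rintro ⟨h1, h2, _⟩
    rw [Finset.compl_empty, Finset.univ_subset_iff] at h2
    rw [h2] at h1
    exact ⟨h2, h1⟩
  · rintro ⟨rfl, h⟩
    refine ⟨h, Finset.subset_univ _, fun D' h1 h2 _ => ?_⟩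
    rw [Finset.compl_empty, Finset.univ_subset_iff] at h1
    rw [h1] at h2
    exact absurd h2 (ssubset_irrefl _)

theorem minO_univ {D : Finset V} : MinO G univ D ↔ MinCDS G D := by
  unfold MinO MinCDS
  rw [Finset.compl_univ]
  constructor
  · rintro ⟨h1, _, h2⟩
    exact ⟨h1, fun D' hD' => h2 D' (Finset.empty_subset _) hD'⟩
  · rintro ⟨h1, h2⟩
    exact ⟨h1, Finset.empty_subset _, fun D' _ hD' => h2 D' hD'⟩

/-- every `MinO` set comes from a minimal connected dominating set -/
theorem MinO.exists_min {O D : Finset V} (h : MinO G O D) :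
    ∃ D₀, MinCDS G D₀ ∧ D = D₀ ∪ Oᶜ := by
  obtain ⟨D₀, h1, h2⟩ := exists_minO (G := G) (O := univ) h.1 (by
    rw [Finset.compl_univ]
    exact Finset.empty_subset _)
  rw [minO_univ] at h2
  refine ⟨D₀, h2, ?_⟩
  symm
  refine h.eq_of_subset (h2.1.mono Finset.subset_union_left) Finset.subset_union_right ?_
  exact Finset.union_subset h1 h.2.1

theorem compl_insert_subset (O : Finset V) (v : V) : (insert v O)ᶜ ⊆ Oᶜ := by
  intro x hx
  rw [Finset.mem_compl, Finset.mem_insert, not_or] at hx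
  rw [Finset.mem_compl]
  exact hx.2

theorem MinO.of_insert_mem {O D : Finset V} {v : V} (h : MinO G (insert v O) D)
    (hvD : v ∈ D) : MinO G O D := by
  refine ⟨h.1, ?_, fun D' hO hD' hC => ?_⟩
  · intro x hx
    by_cases hxv : x = v
    · rw [hxv]
      exact hvD
    · refine h.2.1 ?_
      rw [Finset.mem_compl] at hx
      rw [Finset.mem_compl, Finset.mem_insert, not_or]
      exact ⟨hxv, hx⟩
  · exact h.2.2 D' ((compl_insert_subset O v).trans hO) hD' hC

/-! ### the clauses -/

/-- possible new vertices: in `O`, outside `Z`, adjacent to the component of `h` in `G[Z]` -/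
def PH (G : SimpleGraph V) (O Z : Finset V) (h x : V) : Prop :=
  x ∈ O ∧ x ∉ Z ∧ ∃ a, Conn G Z h a ∧ G.Adj a x

/-- `Y` meets all clauses -/
def Meets (G : SimpleGraph V) (O Z : Finset V) (h : V) (Y : Finset V) : Prop :=
  (∀ w ∈ Z, ¬ Conn G Z h w → ∃ x ∈ Y, PH G O Z h x ∧ ∃ a, Conn G Z w a ∧ G.Adj a x) ∧
  ∀ u, ¬ Dom G Z u → ∃ x ∈ Y, PH G O Z h x ∧ G.Adj x u

theorem Meets.cds {O Z Y : Finset V} {h : V} (hh : h ∈ Z) (hm : Meets G O Z h Y)
    (hY : ∀ y ∈ Y, PH G O Z h y) : CDS G (Z ∪ Y) := by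
  have hZ : Z ⊆ Z ∪ Y := Finset.subset_union_left
  refine ⟨⟨h, hZ hh⟩, fun u => ?_, ?_⟩
  · by_cases hu : Dom G Z u
    · exact hu.mono hZ
    · obtain ⟨x, hx, _, hxu⟩ := hm.2 u hu
      exact Or.inr ⟨x, Finset.mem_union_right _ hx, hxu⟩
  · have hYh : ∀ y ∈ Y, Conn G (Z ∪ Y) h y := by
      intro y hy
      obtain ⟨_, _, a, ha, hay⟩ := hY y hy
      exact Relation.ReflTransGen.tail (conn_mono hZ ha) ⟨hay, Finset.mem_union_right _ hy⟩
    have hall : ∀ w ∈ Z ∪ Y, Conn G (Z ∪ Y) h w := by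
      intro w hw
      rw [Finset.mem_union] at hw
      rcases hw with hw | hw
      · by_cases hc : Conn G Z h w
        · exact conn_mono hZ hc
        · obtain ⟨x, hx, _, a, ha, hax⟩ := hm.1 w hw hc
          refine conn_trans (hYh x hx) ?_
          refine conn_trans (conn_single hax.symm (hZ (conn_mem hw ha))) ?_
          exact conn_mono hZ (conn_symm hw ha)
      · exact hYh w hw
    intro a ha b hb
    exact conn_trans (conn_symm (hZ hh) (hall a ha)) (hall b hb)

theorem meets_of_cds {O Z Y : Finset V} {h : V} (hh : h ∈ Z) (hY : ∀ y ∈ Y, PH G O Z h y)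
    (hc : CDS G (Z ∪ Y)) : Meets G O Z h Y := by
  have hZ : Z ⊆ Z ∪ Y := Finset.subset_union_left
  refine ⟨fun w hw hnw => ?_, fun u hu => ?_⟩
  · by_contra hcon
    push Not at hcon
    have key : ∀ p, Conn G (Z ∪ Y) w p → Conn G Z w p := by
      intro p hp
      unfold Conn at hp
      induction hp with
      | refl => exact Relation.ReflTransGen.refl
      | @tail p q _ hpq ih =>
        have hq := hpq.2
        rw [Finset.mem_union] at hq
        rcases hq with hq | hq
        · exact Relation.ReflTransGen.tail ih ⟨hpq.1, hq⟩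
        · exact absurd hpq.1 (hcon q hq (hY q hq) p ih)
    exact hnw (conn_symm hw (key h (hc.2.2 w (hZ hw) h (hZ hh))))
  · rcases hc.2.1 u with h1 | ⟨x, hx, hxu⟩
    · rw [Finset.mem_union] at h1
      rcases h1 with h1 | h1
      · exact absurd (Or.inl h1) hu
      · obtain ⟨_, _, a, ha, hau⟩ := hY u h1
        exact absurd (Or.inr ⟨a, conn_mem hh ha, hau⟩) hu
    · rw [Finset.mem_union] at hx
      rcases hx with hx | hx
      · exact absurd (Or.inr ⟨x, hx, hxu⟩) hu
      · exact ⟨x, hx, hY x hx, hxu⟩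

theorem minMeets_PH {O Z Y : Finset V} {h : V} (hm : Meets G O Z h Y)
    (hmin : ∀ Y', Y' ⊂ Y → ¬ Meets G O Z h Y') : ∀ y ∈ Y, PH G O Z h y := by
  intro y hy
  by_contra hcon
  refine hmin _ (Finset.erase_ssubset hy) ⟨fun w hw hnw => ?_, fun u hu => ?_⟩
  · obtain ⟨x, hx, hp, ha⟩ := hm.1 w hw hnw
    refine ⟨x, Finset.mem_erase.2 ⟨?_, hx⟩, hp, ha⟩
    rintro rfl
    exact hcon hp
  · obtain ⟨x, hx, hp, ha⟩ := hm.2 u hu
    refine ⟨x, Finset.mem_erase.2 ⟨?_, hx⟩, hp, ha⟩
    rintro rfl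
    exact hcon hp

/-- completeness -/
theorem minMeets_of_minO {O Z D' : Finset V} {v h : V} (hh : h ∈ Z)
    (hD' : MinO G (insert v O) D') (hZ : Z ⊆ D') (hOZ : (insert v O)ᶜ ⊆ Z)
    (hP : ∀ x ∈ D', x ∉ Z → PH G O Z h x) :
    Meets G O Z h (D' \ Z) ∧ ∀ Y', Y' ⊂ D' \ Z → ¬ Meets G O Z h Y' := by
  have hun : Z ∪ D' \ Z = D' := Finset.union_sdiff_of_subset hZ
  have hY : ∀ y ∈ D' \ Z, PH G O Z h y := by
    intro y hy
    rw [Finset.mem_sdiff] at hy
    exact hP y hy.1 hy.2
  refine ⟨meets_of_cds hh hY (by rw [hun]; exact hD'.1), fun Y' hY' hm => ?_⟩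
  have h1 : CDS G (Z ∪ Y') := hm.cds hh fun y hy => hY y (hY'.1 hy)
  have h2 : Z ∪ Y' ⊆ D' := by
    intro x hx
    rw [Finset.mem_union] at hx
    rcases hx with hx | hx
    · exact hZ hx
    · exact (Finset.mem_sdiff.1 (hY'.1 hx)).1
  have h3 := hD'.eq_of_subset h1 (hOZ.trans Finset.subset_union_left) h2
  refine hY'.2 fun x hx => ?_
  rw [Finset.mem_sdiff] at hx
  have h4 : x ∈ Z ∪ Y' := by rw [h3]; exact hx.1
  exact (Finset.mem_union.1 h4).resolve_left hx.2

/-- a minimal solution can be read off from every minimal set below -/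
theorem minMeets_eq {O Z Y D' : Finset V} {h : V} (hh : h ∈ Z) (hm : Meets G O Z h Y)
    (hmin : ∀ Y', Y' ⊂ Y → ¬ Meets G O Z h Y') (hD' : CDS G D') (hsub : D' ⊆ Z ∪ Y) :
    Y = D' \ Z := by
  have hP := minMeets_PH hm hmin
  ext y
  rw [Finset.mem_sdiff]
  constructor
  · intro hy
    refine ⟨?_, (hP y hy).2.1⟩
    by_contra hyD
    refine hmin _ (Finset.erase_ssubset hy) ?_
    refine meets_of_cds hh (fun x hx => hP x (Finset.mem_of_mem_erase hx)) (hD'.mono ?_)
    intro x hx
    have h1 := hsub hx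
    rw [Finset.mem_union] at h1
    rw [Finset.mem_union, Finset.mem_erase]
    rcases h1 with h1 | h1
    · exact Or.inl h1
    · refine Or.inr ⟨?_, h1⟩
      rintro rfl
      exact hyD hx
  · rintro ⟨h1, h2⟩
    exact (Finset.mem_union.1 (hsub h1)).resolve_left h2

/-! ### the hub -/

theorem reach_v {S : Finset V} {v u : V} (h : Conn G (insert v S) u v) (hu : u ≠ v) :
    ∃ a, Conn G S u a ∧ G.Adj a v := by
  have key : ∀ p, Conn G (insert v S) u p → Conn G S u p ∨ ∃ a, Conn G S u a ∧ G.Adj a v := by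
    intro p hp
    unfold Conn at hp
    induction hp with
    | refl => exact Or.inl Relation.ReflTransGen.refl
    | @tail p q _ hpq ih =>
      rcases ih with ih | ih
      · have hq := hpq.2
        rw [Finset.mem_insert] at hq
        rcases hq with rfl | hq
        · exact Or.inr ⟨p, ih, hpq.1⟩
        · exact Or.inl (Relation.ReflTransGen.tail ih ⟨hpq.1, hq⟩)
      · exact Or.inr ih
  rcases key v h with h1 | h1
  · -- the last step
    unfold Conn at h1
    rcases Relation.ReflTransGen.cases_tail h1 with h2 | ⟨p, h2, h3⟩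
    · exact absurd h2.symm hu
    · exact ⟨p, h2, h3.1⟩
  · exact h1

/-- a maximal family of vertices of `X` which are pairwise far apart -/
theorem exists_far (G : SimpleGraph V) (S X : Finset V) :
    ∃ I ⊆ X, (∀ x ∈ I, ∀ y ∈ I, x ≠ y → ¬ G.Adj x y ∧
      ∀ a ∈ S, ∀ b, Conn G S a b → G.Adj a x → ¬ G.Adj b y) ∧
      ∀ x ∈ X, x ∉ I → ∃ y ∈ I, ∃ a, Conn G (S ∪ I) y a ∧ G.Adj a x := by
  classical
  let Far : V → V → Prop := fun x y => ¬ G.Adj x y ∧
    ∀ a ∈ S, ∀ b, Conn G S a b → G.Adj a x → ¬ G.Adj b y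
  let F : Finset (Finset V) := X.powerset.filter fun I => ∀ x ∈ I, ∀ y ∈ I, x ≠ y → Far x y
  have hF : F.Nonempty := by
    refine ⟨∅, ?_⟩
    rw [Finset.mem_filter]
    exact ⟨Finset.empty_mem_powerset X, fun a ha => absurd ha (Finset.notMem_empty a)⟩
  obtain ⟨I, hI, hmax⟩ := Finset.exists_max_image F Finset.card hF
  rw [Finset.mem_filter, Finset.mem_powerset] at hI
  refine ⟨I, hI.1, hI.2, fun x hx hxI => ?_⟩
  have h1 : insert x I ∉ F := by
    intro h
    have h2 := hmax _ h
    rw [Finset.card_insert_of_notMem hxI] at h2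
    omega
  have h2 : ∃ y ∈ I, ¬ Far x y ∨ ¬ Far y x := by
    by_contra hcon
    push Not at hcon
    refine h1 ?_
    rw [Finset.mem_filter, Finset.mem_powerset]
    refine ⟨Finset.insert_subset hx hI.1, ?_⟩
    intro a ha b hb hab
    rw [Finset.mem_insert] at ha hb
    rcases ha with rfl | ha
    · rcases hb with rfl | hb
      · exact absurd rfl hab
      · exact (hcon b hb).1
    · rcases hb with rfl | hb
      · exact (hcon a ha).2
      · exact hI.2 a ha b hb hab
  have hSI : S ⊆ S ∪ I := Finset.subset_union_left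
  obtain ⟨y, hy, h3⟩ := h2
  refine ⟨y, hy, ?_⟩
  -- a common neighbouring component
  have key : ∀ a ∈ S, ∀ b, Conn G S a b → ((G.Adj a x ∧ G.Adj b y) ∨ (G.Adj a y ∧ G.Adj b x)) →
      ∃ a, Conn G (S ∪ I) y a ∧ G.Adj a x := by
    intro a ha b hab h
    have hb : b ∈ S := conn_mem ha hab
    rcases h with ⟨h4, h5⟩ | ⟨h4, h5⟩
    · refine ⟨a, ?_, h4⟩
      refine conn_trans (conn_single h5.symm (hSI hb)) ?_
      exact conn_mono hSI (conn_symm ha hab)
    · refine ⟨b, ?_, h5⟩
      exact conn_trans (conn_single h4.symm (hSI ha)) (conn_mono hSI hab)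
  rcases h3 with h3 | h3
  · by_cases hadj : G.Adj x y
    · exact ⟨y, Relation.ReflTransGen.refl, hadj.symm⟩
    · have h4 : ¬ ∀ a ∈ S, ∀ b, Conn G S a b → G.Adj a x → ¬ G.Adj b y := fun h => h3 ⟨hadj, h⟩
      push Not at h4
      obtain ⟨a, ha, b, hab, h5, h6⟩ := h4
      exact key a ha b hab (Or.inl ⟨h5, h6⟩)
  · by_cases hadj : G.Adj y x
    · exact ⟨y, Relation.ReflTransGen.refl, hadj⟩
    · have h4 : ¬ ∀ a ∈ S, ∀ b, Conn G S a b → G.Adj a y → ¬ G.Adj b x := fun h => h3 ⟨hadj, h⟩
      push Not at h4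
      obtain ⟨a, ha, b, hab, h5, h6⟩ := h4
      exact key a ha b hab (Or.inr ⟨h5, h6⟩)

/-- **the hub** -/
theorem hub_exists {d : ℕ} {O D D' : Finset V} {v : V} (hv : v ∉ O) (hD : MinO G O D)
    (hD' : MinO G (insert v O) D') (hvD' : v ∉ D') (hsub : D ⊆ insert v D')
    (hns : NoStar G d O v) :
    ∃ C ⊆ D', C.card ≤ 3 * d ∧ ∃ h ∈ D.erase v ∪ C,
      ∀ x ∈ D', x ∉ D.erase v ∪ C → PH G O (D.erase v ∪ C) h x := by
  classical
  set S : Finset V := D.erase v with hS
  have hvD : v ∈ D := hD.2.1 (by rw [Finset.mem_compl]; exact hv)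
  have hSD' : S ⊆ D' := by
    intro x hx
    rw [hS, Finset.mem_erase] at hx
    exact (Finset.mem_insert.1 (hsub hx.2)).resolve_left hx.1
  have hvS : v ∉ S := by
    rw [hS]
    exact Finset.notMem_erase _ _
  have hins : insert v S = D := by
    rw [hS]
    exact Finset.insert_erase hvD
  set X : Finset V := D' \ S with hX
  have hXO : ∀ x ∈ X, x ∈ O := by
    intro x hx
    rw [hX, Finset.mem_sdiff] at hx
    by_contra hxO
    refine hx.2 ?_
    rw [hS, Finset.mem_erase]
    refine ⟨?_, hD.2.1 (by rw [Finset.mem_compl]; exact hxO)⟩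
    rintro rfl
    exact hvD' hx.1
  have hXS : ∀ x ∈ X, x ∉ S := fun x hx => (Finset.mem_sdiff.1 hx).2
  have hSX : S ∪ X = D' := by
    rw [hX]
    exact Finset.union_sdiff_of_subset hSD'
  obtain ⟨I, hIX, hfar, hmax⟩ := exists_far G S X
  have hstar : StarS G S v I := by
    refine ⟨fun x hx y hy => ?_, fun x hx => ?_⟩
    · by_cases hxy : x = y
      · rw [hxy]
        exact G.loopless.irrefl _
      · exact (hfar x hx y hy hxy).1
    · have hxX := hIX hx
      have hxD : x ∉ D := by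
        rw [← hins, Finset.mem_insert, not_or]
        refine ⟨?_, hXS x hxX⟩
        rintro rfl
        exact hvD' (Finset.mem_sdiff.1 hxX).1
      obtain ⟨u, hu, hux⟩ := (hD.1.2.1 x).resolve_left hxD
      by_cases huv : u = v
      · rw [huv] at hux
        exact Or.inl hux
      · right
        have huS : u ∈ S := by
          rw [hS, Finset.mem_erase]
          exact ⟨huv, hu⟩
        have hconn : Conn G (insert v S) u v := by
          rw [hins]
          exact hD.1.2.2 u hu v hvD
        obtain ⟨a, ha, hav⟩ := reach_v hconn huv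
        refine ⟨a, conn_mem huS ha, hav.symm, ⟨u, conn_symm huS ha, hux⟩, ?_⟩
        intro y hy hyx b hb
        exact (hfar x hx y hy hyx.symm).2 u huS b (conn_trans ha hb) hux
  have hIlt : I.card < d := by
    obtain ⟨X', hX', hc, hs⟩ := trunc (O := O) hvS (by
      intro q hq
      rw [Finset.mem_compl, Finset.mem_insert, not_or] at hq
      rw [hS, Finset.mem_erase]
      exact ⟨hq.1, hD.2.1 (by rw [Finset.mem_compl]; exact hq.2)⟩)
      (fun x hx => hXS x (hIX hx)) (fun x hx => hXO x (hIX hx)) hstar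
    rw [← hc]
    exact hns.card_lt hX' hs
  rcases Finset.eq_empty_or_nonempty I with hI | hI
  · -- nothing to add
    have hXe : X = ∅ := by
      rw [Finset.eq_empty_iff_forall_notMem]
      intro x hx
      obtain ⟨y, hy, _⟩ := hmax x hx (by rw [hI]; exact Finset.notMem_empty _)
      rw [hI] at hy
      exact absurd hy (Finset.notMem_empty _)
    have hSe : S = D' := by rw [← hSX, hXe, Finset.union_empty]
    obtain ⟨h, hh⟩ := hD'.1.1
    refine ⟨∅, Finset.empty_subset _, by rw [Finset.card_empty]; exact Nat.zero_le _, h, ?_, ?_⟩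
    · rw [Finset.union_empty, hSe]
      exact hh
    · intro x hx hxn
      rw [Finset.union_empty, hSe] at hxn
      exact absurd hx hxn
  · have hpos := Finset.card_pos.2 hI
    obtain ⟨C', h1, h2, h3, j, hj, h4, h5⟩ := connect (G := G) (S := S) (X := X)
      (by
        rw [hSX]
        exact hD'.1.2.2) (I.card - 1) I I (by omega) hIX Finset.subset_union_right
      (by
        intro x hx hxI _
        exact hmax x hx hxI)
    refine ⟨C', h2.trans Finset.sdiff_subset, by omega, j, Finset.mem_union_right _ (h1 hj), ?_⟩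
    intro x hx hxn
    rw [Finset.mem_union, not_or] at hxn
    have hxX : x ∈ X := by
      rw [hX, Finset.mem_sdiff]
      exact ⟨hx, hxn.1⟩
    refine ⟨hXO x hxX, ?_, h5 x hxX hxn.2 hxn.1⟩
    rw [Finset.mem_union, not_or]
    exact hxn

end Pool.Agent.CDH
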