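import Mathlib
import Pool.Agent.CDom.Defs
import Pool.Agent.CDom.Basic
import Pool.Agent.CDom.Prog
import Pool.Agent.CDom.Spec1
import Pool.Agent.CDH.Stmt
import Pool.Agent.CDH.Prog
import Pool.Agent.CDH.Spec
import Pool.Agent.CDH.Greedy
import Pool.Agent.CDH.Star
import Pool.Agent.CDH.MinO
import Pool.Agent.CDH.ProgB

/-!
# The parts of the enumeration algorithm compute what they should
-/

set_option autoImplicit false

namespace Pool.Agent.CDH

open Finset Pool.Agent.CDom Pool.Agent.CDom.Prog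

variable {n : ℕ} {G : SimpleGraph (Fin n)} {E : List (ℕ × ℕ)}

/-! ### clauses -/

theorem ph_spec (hE : IsRep G E) (O Z : List ℕ) (h : Fin n) (x : ℕ) :
    x ∈ ph (n, E) O Z (h : ℕ) ↔ ∃ hx : x < n, PH G (S n O) (S n Z) h ⟨x, hx⟩ := by
  unfold ph PH
  rw [List.mem_filter, List.mem_range, Bool.and_eq_true, Bool.and_eq_true, mem_iff,
    Bool.not_eq_true', Bool.eq_false_iff, ne_eq, mem_iff, List.any_eq_true]
  constructor
  · rintro ⟨hx, h1, h2, a, ha, hax⟩
    have han := reach_lt Z h a ha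
    refine ⟨hx, mem_S.2 h1, fun h3 => h2 (mem_S.1 h3), ⟨a, han⟩, ?_, ?_⟩
    · exact (reach_spec hE Z h ⟨a, han⟩).1 ha
    · exact (hE ⟨a, han⟩ ⟨x, hx⟩).1 hax
  · rintro ⟨hx, h1, h2, a, ha, hax⟩
    refine ⟨hx, mem_S.1 h1, fun h3 => h2 (mem_S.2 h3), a, ?_, ?_⟩
    · exact (reach_spec hE Z h a).2 ha
    · exact (hE a ⟨x, hx⟩).2 hax

theorem isTr_cl (hE : IsRep G E) (O Z : List ℕ) (hZ : ∀ z ∈ Z, z < n) (h : Fin n)
    (T : Finset (Fin n)) :
    IsTr ((cl (n, E) O Z (h : ℕ)).map (S n)) T ↔ Meets G (S n O) (S n Z) h T := by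
  have e1 : IsTr ((cl (n, E) O Z (h : ℕ)).map (S n)) T ↔
      ∀ e ∈ cl (n, E) O Z (h : ℕ), ∃ x ∈ e, x ∈ can T := by
    unfold IsTr
    constructor
    · exact fun h1 e he => (inter_nonempty e T).1 (h1 _ (List.mem_map.2 ⟨e, he, rfl⟩))
    · intro h1 e' he'
      obtain ⟨e, he, rfl⟩ := List.mem_map.1 he'
      exact (inter_nonempty e T).2 (h1 e he)
  rw [e1]
  unfold cl clK clU Meets
  constructor
  · intro h1
    refine ⟨fun w hw hnw => ?_, fun u hu => ?_⟩
    · have hw' : (w : ℕ) ∈ Z.filter fun w => !mem w (reach (n, E) Z (h : ℕ)) := by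
        rw [List.mem_filter, Bool.not_eq_true', Bool.eq_false_iff, ne_eq, mem_iff,
          reach_spec hE]
        exact ⟨mem_S.1 hw, hnw⟩
      obtain ⟨x, hx, hxT⟩ := h1 _ (List.mem_append_left _ (List.mem_map.2 ⟨_, hw', rfl⟩))
      rw [List.mem_filter, ph_spec hE, List.any_eq_true] at hx
      obtain ⟨⟨hxn, hp⟩, a, ha, hax⟩ := hx
      obtain ⟨_, hxT⟩ := mem_can.1 hxT
      have han := reach_lt Z w a ha
      exact ⟨⟨x, hxn⟩, hxT, hp, ⟨a, han⟩, (reach_spec hE Z w ⟨a, han⟩).1 ha,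
        (hE ⟨a, han⟩ ⟨x, hxn⟩).1 hax⟩
    · have hu' : (u : ℕ) ∈ und (n, E) Z := (und_spec hE Z hZ u).2 ⟨u.2, hu⟩
      obtain ⟨x, hx, hxT⟩ := h1 _ (List.mem_append_right _ (List.mem_map.2 ⟨_, hu', rfl⟩))
      rw [List.mem_filter, ph_spec hE] at hx
      obtain ⟨⟨hxn, hp⟩, hax⟩ := hx
      obtain ⟨_, hxT⟩ := mem_can.1 hxT
      exact ⟨⟨x, hxn⟩, hxT, hp, (hE ⟨x, hxn⟩ u).1 hax⟩
  · rintro ⟨h1, h2⟩ e he
    rw [List.mem_append] at he
    rcases he with he | he
    · rw [List.mem_map] at he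
      obtain ⟨w, hw, rfl⟩ := he
      rw [List.mem_filter, Bool.not_eq_true', Bool.eq_false_iff, ne_eq, mem_iff] at hw
      have hwn := hZ w hw.1
      obtain ⟨x, hx, hp, a, ha, hax⟩ := h1 ⟨w, hwn⟩ (mem_S.2 hw.1) (fun h3 =>
        hw.2 ((reach_spec hE Z h ⟨w, hwn⟩).2 h3))
      refine ⟨x, ?_, mem_can.2 ⟨x.2, hx⟩⟩
      rw [List.mem_filter, ph_spec hE, List.any_eq_true]
      exact ⟨⟨x.2, hp⟩, a, (reach_spec hE Z ⟨w, hwn⟩ a).2 ha, (hE a x).2 hax⟩
    · rw [List.mem_map] at he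
      obtain ⟨u, hu, rfl⟩ := he
      obtain ⟨hun, hu'⟩ := (und_spec hE Z hZ u).1 hu
      obtain ⟨x, hx, hp, hax⟩ := h2 ⟨u, hun⟩ hu'
      refine ⟨x, ?_, mem_can.2 ⟨x.2, hx⟩⟩
      rw [List.mem_filter, ph_spec hE]
      exact ⟨⟨x.2, hp⟩, (hE x ⟨u, hun⟩).2 hax⟩

theorem isMinTr_cl (hE : IsRep G E) (O Z : List ℕ) (hZ : ∀ z ∈ Z, z < n) (h : Fin n)
    (T : Finset (Fin n)) :
    IsMinTr ((cl (n, E) O Z (h : ℕ)).map (S n)) T ↔ Meets G (S n O) (S n Z) h T ∧
      ∀ T', T' ⊂ T → ¬ Meets G (S n O) (S n Z) h T' := by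
  unfold IsMinTr
  rw [isTr_cl hE O Z hZ]
  refine and_congr Iff.rfl (forall_congr' fun T' => ?_)
  rw [isTr_cl hE O Z hZ]

theorem length_cl (O Z : List ℕ) (h : ℕ) :
    (cl (n, E) O Z h).length ≤ Z.length + n := by
  unfold cl clK clU und
  rw [List.length_append, List.length_map, List.length_map]
  have h1 := List.length_filter_le (fun w => !mem w (reach (n, E) Z h)) Z
  have h2 : ((List.range (n, E).1).filter fun u => !dom (n, E) Z u).length ≤ n := by
    refine (List.length_filter_le _ _).trans ?_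
    rw [List.length_range]
  exact Nat.add_le_add h1 h2

/-! ### the pairs -/

theorem S_del (Z : List ℕ) (v : Fin n) : S n (del Z (v : ℕ)) = (S n Z).erase v := by
  ext x
  rw [mem_S, mem_del, Finset.mem_erase, mem_S, ne_eq, ne_eq, Fin.ext_iff]
  exact and_comm

theorem zh_prop {k : ℕ} {v : Fin n} {D : List ℕ} {q : List ℕ × ℕ}
    (hq : q ∈ zh k (n, E) (v : ℕ) D) (hD : ∀ x ∈ D, x < n) :
    (∀ z ∈ q.1, z < n) ∧ q.2 ∈ q.1 ∧ (v : ℕ) ∉ q.1 ∧ (S n D).erase v ⊆ S n q.1 := by
  unfold zh at hq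
  rw [List.mem_filter, List.mem_flatMap, mem_iff] at hq
  obtain ⟨⟨P, _, hq⟩, hmem⟩ := hq
  rw [List.mem_map] at hq
  obtain ⟨h, _, rfl⟩ := hq
  refine ⟨?_, hmem, ?_, ?_⟩
  · intro z hz
    simp only at hz
    rw [List.mem_append, mem_del, mem_del, List.mem_filter, decide_eq_true_eq] at hz
    rcases hz with hz | hz
    · exact hD z hz.1
    · exact hz.1.2
  · simp only
    rw [List.mem_append, mem_del, mem_del]
    rintro (h | h)
    · exact h.2 rfl
    · exact h.2 rfl
  · simp only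
    rw [S_append, S_del]
    exact Finset.subset_union_left

theorem zh_length {k : ℕ} {v : ℕ} {D : List ℕ} {q : List ℕ × ℕ}
    (hq : q ∈ zh k (n, E) v D) : q.1.length ≤ D.length + k := by
  unfold zh at hq
  rw [List.mem_filter, List.mem_flatMap] at hq
  obtain ⟨⟨P, hP, hq⟩, _⟩ := hq
  rw [List.mem_map] at hq
  obtain ⟨h, _, rfl⟩ := hq
  have h1 := ((tuples_spec n k).2 P).1 hP
  simp only
  rw [List.length_append]
  have h2 : (del D v).length ≤ D.length := List.length_filter_le _ _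
  have h3 : (del (P.filter fun x => decide (x < n)) v).length ≤
      (P.filter fun x => decide (x < n)).length := List.length_filter_le _ _
  have h4 : (P.filter fun x => decide (x < n)).length ≤ P.length := List.length_filter_le _ _
  omega

theorem exists_zh (k : ℕ) (v : Fin n) (D : List ℕ) (C : Finset (Fin n)) (hC : C.card ≤ k)
    (hv : v ∉ C) (h : Fin n) (hh : h ∈ (S n D).erase v ∪ C) :
    ∃ Z, (Z, (h : ℕ)) ∈ zh k (n, E) (v : ℕ) D ∧ S n Z = (S n D).erase v ∪ C := by
  obtain ⟨i, hi, hiC⟩ := exists_core k C hC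
  have hS : S n (del D (v : ℕ) ++ del (core n k i) (v : ℕ)) = (S n D).erase v ∪ C := by
    rw [S_append, S_del, S_del, hiC, Finset.erase_eq_of_notMem hv]
  refine ⟨del D (v : ℕ) ++ del (core n k i) (v : ℕ), ?_, hS⟩
  unfold zh
  rw [List.mem_filter, mem_iff]
  refine ⟨?_, ?_⟩
  · rw [List.mem_flatMap]
    refine ⟨(tuples n k).getD i [], ?_, ?_⟩
    · rw [List.getD_eq_getElem _ _ hi]
      exact List.getElem_mem hi
    · rw [List.mem_map]
      exact ⟨h, List.mem_range.2 h.2, rfl⟩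
  · simp only
    rw [← hS, mem_S] at hh
    exact hh

/-! ### greedy minimalisation -/

theorem greedy_keep (L : List ℕ) : ∀ (Z : List ℕ) (x : ℕ), x ∈ Z → x ∉ L →
    x ∈ L.foldl (fun Z v => bif cds (n, E) (del Z v) then del Z v else Z) Z := by
  induction L with
  | nil => exact fun Z x hx _ => hx
  | cons v L ih =>
    intro Z x hx hxL
    rw [List.mem_cons, not_or] at hxL
    rw [List.foldl_cons]
    refine ih _ x ?_ hxL.2
    cases h : cds (n, E) (del Z v)
    · rw [cond_false]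
      exact hx
    · rw [cond_true, mem_del]
      exact ⟨hx, hxL.1⟩

theorem greedyO_spec (hE : IsRep G E) (O Z : List ℕ) (hZ : ∀ x ∈ Z, x < n)
    (hC : CDS G (S n Z)) (hO : (S n O)ᶜ ⊆ S n Z) :
    MinO G (S n O) (S n (greedyO (n, E) O Z)) ∧ S n (greedyO (n, E) O Z) ⊆ S n Z := by
  obtain ⟨h1, h2, h3, h4⟩ := greedy_aux hE O Z hZ hC
  have hsub : S n (greedyO (n, E) O Z) ⊆ S n Z := by
    intro x hx
    rw [mem_S]
    exact h3 _ (mem_S.1 hx)
  refine ⟨⟨h2, ?_, ?_⟩, hsub⟩
  · intro x hx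
    have hxZ := mem_S.1 (hO hx)
    rw [Finset.mem_compl, mem_S] at hx
    exact mem_S.2 (greedy_keep O Z x hxZ hx)
  · intro D' hO' hD' hcon
    obtain ⟨v, hv, hvD⟩ := Finset.exists_of_ssubset hD'
    have hvO : (v : ℕ) ∈ O := by
      by_contra hcon
      refine hvD (hO' ?_)
      rw [Finset.mem_compl, mem_S]
      exact hcon
    refine h4 v hvO (mem_S.1 hv) (hcon.mono ?_)
    intro x hx
    rw [mem_S, mem_del]
    refine ⟨mem_S.1 (hD'.1 hx), fun e => hvD ?_⟩
    rw [← Fin.ext e]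
    exact hx

theorem canon_eq (Z : List ℕ) : canon (n, E) Z = can (S n Z) := by
  unfold canon can
  refine List.filter_congr fun v hv => ?_
  have hv' : v < n := List.mem_range.1 hv
  rw [Bool.eq_iff_iff, decide_eq_true_eq, mem_iff]
  constructor
  · intro h
    exact ⟨hv', mem_S.2 h⟩
  · rintro ⟨_, h⟩
    exact mem_S.1 h

/-! ### duplicates -/

theorem sameS_can {T T' : Finset (Fin n)} : sameS (can T) (can T') = true ↔ T = T' := by
  unfold sameS
  rw [Bool.and_eq_true, List.all_eq_true, List.all_eq_true]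
  constructor
  · rintro ⟨h1, h2⟩
    ext x
    constructor
    · intro hx
      have h3 := h1 x (mem_can.2 ⟨x.2, hx⟩)
      rw [mem_iff, mem_can] at h3
      exact h3.2
    · intro hx
      have h3 := h2 x (mem_can.2 ⟨x.2, hx⟩)
      rw [mem_iff, mem_can] at h3
      exact h3.2
  · rintro rfl
    exact ⟨fun x hx => mem_iff.2 hx, fun x hx => mem_iff.2 hx⟩

theorem dedup_spec (l : List (Finset (Fin n))) :
    ∃ l' : List (Finset (Fin n)),
      dedup (l.map can) = l'.map can ∧ l'.Nodup ∧ ∀ T, T ∈ l' ↔ T ∈ l := by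
  have key : ∀ (l acc : List (Finset (Fin n))), acc.Nodup → ∃ l' : List (Finset (Fin n)),
      (l.map can).foldl (fun acc T => bif acc.any (fun T' => sameS T T') then acc
        else T :: acc) (acc.map can) = l'.map can ∧ l'.Nodup ∧
        ∀ T, T ∈ l' ↔ T ∈ acc ∨ T ∈ l := by
    intro l
    induction l with
    | nil =>
      intro acc hacc
      exact ⟨acc, rfl, hacc, fun T => ⟨Or.inl, fun h => h.resolve_right List.not_mem_nil⟩⟩
    | cons U l ih =>
      intro acc hacc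
      rw [List.map_cons, List.foldl_cons]
      by_cases hU : U ∈ acc
      · have h1 : (acc.map can).any (fun T' => sameS (can U) T') = true := by
          rw [List.any_eq_true]
          exact ⟨can U, List.mem_map.2 ⟨U, hU, rfl⟩, sameS_can.2 rfl⟩
        rw [h1, cond_true]
        obtain ⟨l', h2, h3, h4⟩ := ih acc hacc
        refine ⟨l', h2, h3, fun T => ?_⟩
        rw [h4, List.mem_cons]
        constructor
        · rintro (h | h)
          · exact Or.inl h
          · exact Or.inr (Or.inr h)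
        · rintro (h | rfl | h)
          · exact Or.inl h
          · exact Or.inl hU
          · exact Or.inr h
      · have h1 : (acc.map can).any (fun T' => sameS (can U) T') = false := by
          rw [Bool.eq_false_iff]
          intro h
          rw [List.any_eq_true] at h
          obtain ⟨T', hT', h⟩ := h
          rw [List.mem_map] at hT'
          obtain ⟨T, hT, rfl⟩ := hT'
          rw [sameS_can] at h
          rw [h] at hU
          exact hU hT
        rw [h1, cond_false]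
        have h2 : can U :: acc.map can = (U :: acc).map can := rfl
        rw [h2]
        obtain ⟨l', h3, h4, h5⟩ := ih (U :: acc) (List.nodup_cons.2 ⟨hU, hacc⟩)
        refine ⟨l', h3, h4, fun T => ?_⟩
        rw [h5, List.mem_cons, List.mem_cons]
        tauto
  obtain ⟨l', h1, h2, h3⟩ := key l [] List.nodup_nil
  refine ⟨l', h1, h2, fun T => ?_⟩
  rw [h3]
  exact ⟨fun h => h.resolve_left List.not_mem_nil, Or.inr⟩

end Pool.Agent.CDH
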