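import Mathlib
import Pool.Agent.CDom.Defs
import Pool.Agent.CDom.Basic
import Pool.Agent.CDom.Prog
import Pool.Agent.CDom.Spec1
import Pool.Agent.CDH.Prog
import Pool.Agent.CDH.Spec
import Pool.Agent.CDH.Star
import Pool.Agent.CDH.ProgB
import Pool.Agent.CDH.SpecB
import Pool.Agent.CDH.StepB

/-!
# The order computed by the program is good
-/

set_option autoImplicit false

namespace Pool.Agent.CDH

open Finset Pool.Agent.CDom Pool.Agent.CDom.Prog

variable {n : ℕ} {G : SimpleGraph (Fin n)} {E : List (ℕ × ℕ)}

theorem nodup_can (T : Finset (Fin n)) : (can T).Nodup := List.nodup_range.filter _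

theorem length_can (T : Finset (Fin n)) : (can T).length = T.card := by
  have e1 : (can T).toFinset = T.map Fin.valEmbedding := by
    ext x
    rw [List.mem_toFinset, mem_can, Finset.mem_map]
    constructor
    · rintro ⟨h, hx⟩
      exact ⟨⟨x, h⟩, hx, rfl⟩
    · rintro ⟨v, hv, rfl⟩
      exact ⟨v.2, hv⟩
  rw [← List.toFinset_card_of_nodup (nodup_can T), e1, Finset.card_map]

theorem card_S_le' (X : List ℕ) : (S n X).card ≤ X.length := by
  have e1 : (S n X).map Fin.valEmbedding ⊆ X.toFinset := by
    intro x hx
    rw [Finset.mem_map] at hx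
    obtain ⟨v, hv, rfl⟩ := hx
    rw [List.mem_toFinset]
    exact mem_S.1 hv
  have h := Finset.card_le_card e1
  rw [Finset.card_map] at h
  exact h.trans (List.toFinset_card_le X)

theorem card_S_of_nodup {X : List ℕ} (hnd : X.Nodup) (hX : ∀ x ∈ X, x < n) :
    (S n X).card = X.length := by
  have e1 : (S n X).map Fin.valEmbedding = X.toFinset := by
    ext x
    rw [Finset.mem_map, List.mem_toFinset]
    constructor
    · rintro ⟨y, hy, rfl⟩
      exact mem_S.1 hy
    · intro hx
      exact ⟨⟨x, hX x hx⟩, mem_S.2 hx, rfl⟩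
  rw [← Finset.card_map Fin.valEmbedding, e1, List.toFinset_card_of_nodup hnd]

theorem S_compl (Y : List ℕ) : S n (Prog.compl n Y) = (S n Y)ᶜ := by
  rw [compl_eq, S_can, Finset.compl_eq_univ_sdiff]

theorem star_spec (hE : IsRep G E) (d : ℕ) (O : List ℕ) (v : Fin n) :
    star d (n, E) O (v : ℕ) = true ↔
      ∃ X ⊆ S n O, X.card = d ∧ StarS G (insert v (S n O))ᶜ v X := by
  have hF : S n (Prog.compl n ((v : ℕ) :: O)) = (insert v (S n O))ᶜ := by
    rw [S_compl, S_cons]
  have hcount : ∀ X : List ℕ, ((List.range n).filter fun x => mem x X).length =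
      (S n X).card := by
    intro X
    rw [← length_can]
    congr 1
    exact canon_eq (E := E) X
  have hcomp : ∀ (a x : Fin n), ((reach (n, E) (Prog.compl n ((v : ℕ) :: O)) (a : ℕ)).any
      fun b => adj (n, E) b (x : ℕ)) = true ↔
      ∃ b, Conn G (insert v (S n O))ᶜ a b ∧ G.Adj b x := by
    intro a x
    rw [List.any_eq_true]
    constructor
    · rintro ⟨b, hb, hbx⟩
      have hbn := reach_lt (n := n) _ a b hb
      refine ⟨⟨b, hbn⟩, ?_, (hE ⟨b, hbn⟩ x).1 hbx⟩
      rw [← hF]
      exact (reach_spec hE _ a ⟨b, hbn⟩).1 hb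
    · rintro ⟨b, hb, hbx⟩
      refine ⟨b, ?_, (hE b x).2 hbx⟩
      rw [← hF] at hb
      exact (reach_spec hE _ a b).2 hb
  unfold star
  rw [List.any_eq_true]
  constructor
  · rintro ⟨X, hX, h⟩
    rw [Bool.and_eq_true, Bool.and_eq_true, Bool.and_eq_true, decide_eq_true_eq,
      List.all_eq_true, List.all_eq_true, List.all_eq_true] at h
    obtain ⟨h1, h2, h3, h4⟩ := h
    have h1' : d ≤ (S n X).card := by
      rw [← hcount]
      exact h1
    have hlen := ((tuples_spec n d).2 X).1 hX
    have hcard : (S n X).card = d := le_antisymm ((card_S_le' X).trans hlen.1.le) h1'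
    refine ⟨S n X, ?_, hcard, ?_, ?_⟩
    · intro x hx
      rw [mem_S] at hx ⊢
      exact mem_iff.1 (h2 _ hx)
    · intro x hx y hy hxy
      have h5 := h3 _ (mem_S.1 hx)
      rw [List.all_eq_true] at h5
      have h6 := h5 _ (mem_S.1 hy)
      rw [Bool.not_eq_true', (hE x y).2 hxy] at h6
      exact Bool.false_ne_true h6.symm
    · intro x hx
      have h5 := h4 _ (mem_S.1 hx)
      rw [Bool.or_eq_true, List.any_eq_true] at h5
      rcases h5 with h5 | ⟨a, ha, h5⟩
      · exact Or.inl ((hE v x).1 h5)
      · right
        have han : a < n := List.mem_range.1 ha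
        rw [Bool.and_eq_true, Bool.and_eq_true, Bool.and_eq_true, mem_iff] at h5
        obtain ⟨g1, g2, g3, g4⟩ := h5
        refine ⟨⟨a, han⟩, ?_, (hE v ⟨a, han⟩).1 g2, (hcomp ⟨a, han⟩ x).1 g3, ?_⟩
        · rw [← hF, mem_S]
          exact g1
        · intro y hy hyx b hb hby
          rw [List.all_eq_true] at g4
          have g5 := g4 _ (mem_S.1 hy)
          rw [Bool.or_eq_true, decide_eq_true_eq, Bool.not_eq_true', Bool.eq_false_iff,
            ne_eq] at g5
          rcases g5 with g5 | g5
          · exact hyx (Fin.ext g5)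
          · exact g5 ((hcomp ⟨a, han⟩ y).2 ⟨b, hb, hby⟩)
  · rintro ⟨X, hXO, hXc, hX1, hX2⟩
    refine ⟨can X, ?_, ?_⟩
    · rw [(tuples_spec n d).2]
      exact ⟨by rw [length_can, hXc], fun a ha => (mem_can_lt ha).le⟩
    · rw [Bool.and_eq_true, Bool.and_eq_true, Bool.and_eq_true, decide_eq_true_eq,
        List.all_eq_true, List.all_eq_true, List.all_eq_true]
      refine ⟨?_, ?_, ?_, ?_⟩
      · have h1 := hcount (can X)
        rw [S_can, hXc] at h1
        exact h1.symm.le
      · intro x hx
        obtain ⟨hxn, hx⟩ := mem_can.1 hx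
        rw [mem_iff]
        exact mem_S.1 (hXO hx)
      · intro x hx
        obtain ⟨hxn, hx⟩ := mem_can.1 hx
        rw [List.all_eq_true]
        intro y hy
        obtain ⟨hyn, hy⟩ := mem_can.1 hy
        rw [Bool.not_eq_true', Bool.eq_false_iff, ne_eq]
        intro h
        exact hX1 _ hx _ hy ((hE ⟨x, hxn⟩ ⟨y, hyn⟩).1 h)
      · intro x hx
        obtain ⟨hxn, hx⟩ := mem_can.1 hx
        rw [Bool.or_eq_true, List.any_eq_true]
        rcases hX2 _ hx with h | ⟨a, ha, h1, h2, h3⟩
        · exact Or.inl ((hE v ⟨x, hxn⟩).2 h)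
        · right
          refine ⟨a, List.mem_range.2 a.2, ?_⟩
          rw [Bool.and_eq_true, Bool.and_eq_true, Bool.and_eq_true, mem_iff]
          refine ⟨?_, (hE v a).2 h1, (hcomp a ⟨x, hxn⟩).2 h2, ?_⟩
          · rw [← hF, mem_S] at ha
            exact ha
          · rw [List.all_eq_true]
            intro y hy
            obtain ⟨hyn, hy⟩ := mem_can.1 hy
            rw [Bool.or_eq_true, decide_eq_true_eq, Bool.not_eq_true', Bool.eq_false_iff, ne_eq]
            by_cases hyx : y = x
            · exact Or.inl hyx
            · right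
              intro h
              obtain ⟨b, hb, hby⟩ := (hcomp a ⟨y, hyn⟩).1 h
              refine h3 ⟨y, hyn⟩ hy ?_ b hb hby
              intro e
              exact hyx (congrArg Fin.val e)

theorem pickV_spec (hE : IsRep G E) (d : ℕ) (O : List ℕ) (hO : ∀ x ∈ O, x < n)
    (hex : ∃ v : Fin n, (v : ℕ) ∈ O ∧ NoStar G d ((S n O).erase v) v) :
    ∃ v : Fin n, pickV d (n, E) O = (v : ℕ) ∧ (v : ℕ) ∈ O ∧
      NoStar G d ((S n O).erase v) v := by
  have hiff : ∀ v : Fin n, star d (n, E) (del O (v : ℕ)) (v : ℕ) = false ↔
      NoStar G d ((S n O).erase v) v := by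
    intro v
    rw [Bool.eq_false_iff, ne_eq, star_spec hE d _ v, S_del]
    rfl
  obtain ⟨v₀, hv₀, hn₀⟩ := hex
  have hne : (O.filter fun v => !star d (n, E) (del O v) v) ≠ [] := by
    apply List.ne_nil_of_mem (a := (v₀ : ℕ))
    rw [List.mem_filter, Bool.not_eq_true']
    exact ⟨hv₀, (hiff v₀).2 hn₀⟩
  have hmem : pickV d (n, E) O ∈ O.filter fun v => !star d (n, E) (del O v) v := by
    unfold pickV
    generalize (O.filter fun v => !star d (n, E) (del O v) v) = L at hne
    cases L with
    | nil => exact absurd rfl hne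
    | cons a L => exact List.mem_cons_self
  rw [List.mem_filter, Bool.not_eq_true'] at hmem
  have hlt := hO _ hmem.1
  exact ⟨⟨pickV d (n, E) O, hlt⟩, rfl, hmem.1, (hiff ⟨_, hlt⟩).1 hmem.2⟩

theorem ordG_good (hE : IsRep G E) (d : ℕ)
    (hex : ∀ O : Finset (Fin n), O.Nonempty → ∃ v ∈ O, NoStar G d (O.erase v) v) :
    GoodOrd G d (ordG d (n, E)) := by
  have key : ∀ i ≤ n, ((fun acc => pickV d (n, E) (Prog.compl n acc) :: acc)^[i] []).length = i ∧
      ((fun acc => pickV d (n, E) (Prog.compl n acc) :: acc)^[i] []).Nodup ∧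
      (∀ x ∈ ((fun acc => pickV d (n, E) (Prog.compl n acc) :: acc)^[i] []), x < n) ∧
      ∀ (j : ℕ) (v : Fin n), j < i →
        ((fun acc => pickV d (n, E) (Prog.compl n acc) :: acc)^[i] []).getD j 0 = (v : ℕ) →
        NoStar G d ((S n ((fun acc => pickV d (n, E) (Prog.compl n acc) :: acc)^[i] []))ᶜ ∪
          S n (((fun acc => pickV d (n, E) (Prog.compl n acc) :: acc)^[i] []).take j)) v := by
    intro i
    induction i with
    | zero =>
      intro _
      refine ⟨rfl, List.nodup_nil, fun x hx => absurd hx List.not_mem_nil, fun j v hj => ?_⟩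
      omega
    | succ i ih =>
      intro hi
      obtain ⟨h1, h2, h3, h4⟩ := ih (by omega)
      rw [Function.iterate_succ_apply']
      generalize ((fun acc => pickV d (n, E) (Prog.compl n acc) :: acc)^[i] []) = acc
        at h1 h2 h3 h4
      have hlt : ∀ x ∈ Prog.compl n acc, x < n := by
        intro x hx
        unfold Prog.compl at hx
        rw [List.mem_filter, List.mem_range] at hx
        exact hx.1
      have hcard : (S n acc).card = i := by rw [card_S_of_nodup h2 h3, h1]
      have hne : ((S n acc)ᶜ).Nonempty := by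
        rw [← Finset.card_pos, Finset.card_compl, Fintype.card_fin, hcard]
        omega
      obtain ⟨v, hv1, hv2, hv3⟩ := pickV_spec hE d (Prog.compl n acc) hlt (by
        obtain ⟨v, hv, hvn⟩ := hex _ hne
        refine ⟨v, ?_, ?_⟩
        · rw [← mem_S, S_compl]
          exact hv
        · rw [S_compl]
          exact hvn)
      rw [S_compl] at hv3
      have hvacc : v ∉ S n acc := by
        rw [← mem_S, S_compl, Finset.mem_compl] at hv2
        exact hv2
      show ((pickV d (n, E) (Prog.compl n acc) :: acc).length = i + 1 ∧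
        (pickV d (n, E) (Prog.compl n acc) :: acc).Nodup ∧
        (∀ x ∈ (pickV d (n, E) (Prog.compl n acc) :: acc), x < n) ∧
        ∀ (j : ℕ) (v : Fin n), j < i + 1 →
        (pickV d (n, E) (Prog.compl n acc) :: acc).getD j 0 = (v : ℕ) →
        NoStar G d ((S n (pickV d (n, E) (Prog.compl n acc) :: acc))ᶜ ∪
          S n ((pickV d (n, E) (Prog.compl n acc) :: acc).take j)) v)
      rw [hv1]
      have hScons : S n ((v : ℕ) :: acc) = insert v (S n acc) := S_cons v acc
      refine ⟨by rw [List.length_cons, h1], ?_, ?_, ?_⟩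
      · rw [List.nodup_cons]
        exact ⟨fun h => hvacc (mem_S.2 h), h2⟩
      · intro x hx
        rw [List.mem_cons] at hx
        rcases hx with rfl | hx
        · exact v.2
        · exact h3 x hx
      · intro j w hj hw
        cases j with
        | zero =>
          rw [List.getD_cons_zero] at hw
          have hwv : w = v := Fin.ext hw.symm
          rw [hwv, List.take_zero, S_nil, Finset.union_empty, hScons]
          have e : (insert v (S n acc))ᶜ = ((S n acc)ᶜ).erase v := by
            ext x
            rw [Finset.mem_compl, Finset.mem_insert, not_or, Finset.mem_erase, Finset.mem_compl]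
          rw [e]
          exact hv3
        | succ j =>
          rw [List.getD_cons_succ] at hw
          have h5 := h4 j w (by omega) hw
          rw [List.take_succ_cons, hScons, S_cons]
          have e : (insert v (S n acc))ᶜ ∪ insert v (S n (acc.take j)) =
              (S n acc)ᶜ ∪ S n (acc.take j) := by
            ext x
            rw [Finset.mem_union, Finset.mem_union, Finset.mem_compl, Finset.mem_insert,
              Finset.mem_insert, Finset.mem_compl]
            by_cases hxv : x = v
            · subst hxv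
              constructor
              · exact fun _ => Or.inl hvacc
              · exact fun _ => Or.inr (Or.inl rfl)
            · constructor
              · rintro (h | h | h)
                · exact Or.inl fun h6 => h (Or.inr h6)
                · exact absurd h hxv
                · exact Or.inr h
              · rintro (h | h)
                · refine Or.inl fun h6 => ?_
                  rcases h6 with h6 | h6
                  · exact hxv h6
                  · exact h h6
                · exact Or.inr (Or.inr h)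
          rw [e]
          exact h5
  obtain ⟨h1, h2, h3, h4⟩ := key n le_rfl
  refine ⟨h1, h2, h3, fun j v hj hv => ?_⟩
  have h5 := h4 j v hj hv
  have hfull : S n ((fun acc => pickV d (n, E) (Prog.compl n acc) :: acc)^[n] []) = univ := by
    apply Finset.eq_univ_of_card
    rw [Fintype.card_fin, card_S_of_nodup h2 h3, h1]
  rw [hfull, Finset.compl_univ, Finset.empty_union] at h5
  exact h5

end Pool.Agent.CDH
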