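import Mathlib
import Pool.Agent.Lib.PolyTime.Lib
import Pool.Agent.Lib.PolyTime.Cells
import Pool.Agent.Lib.PolyTime.FromTM2
import Pool.Agent.CDom.StmtDefs

/-!
# Simulation of an arbitrary Turing machine with a budget

For each machine of Mathlib there is a polynomial-time function `sim w s` (`s` in unary) which
returns the output on input `w` if the budget `s` suffices, and nothing otherwise.
-/

set_option autoImplicit false

namespace Pool.Agent.CDH

open Turing Turing.TM2 Function Pool.Agent.Lib.PT Pool.Agent.Lib.PT.Cells Pool.Agent.CDom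

/-- the automaton of a machine -/
theorem exists_automaton_any (tm : Turing.FinTM2) (eI : tm.Γ tm.k₀ ≃ Bool)
    (eO : tm.Γ tm.k₁ ≃ Bool) :
    ∃ (S : Type) (A : Finset S) (δ : S → S → S → S → S) (s0 : S) (sI : Bool → S) (sB : S)
      (out : S → Option Bool) (hlt : S → Bool) (B : ℕ),
      (∀ w t i, traj δ s0 sI sB w t i ∈ A) ∧
      ∀ w w' t, Outputs tm eI eO w w' t →
        (∀ s, hlt (traj δ s0 sI sB w s 0) = true →
          (∀ i, out (traj δ s0 sI sB w s (i + 1)) = w'[i]?) ∧ w'.length ≤ w.length + s) ∧
        ∀ s, B * t ≤ s → hlt (traj δ s0 sI sB w s 0) = true := by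
  classical
  let _ := tm.kFin
  let _ := tm.ΛFin
  let _ := tm.σFin
  let _ := tm.Γk₀Fin
  let M := tm.m
  obtain ⟨B, hB⟩ : ∃ B, ∀ l, ssize (M l) ≤ B :=
    ⟨Finset.univ.sup fun l => ssize (M l), fun l =>
      Finset.le_sup (f := fun l => ssize (M l)) (Finset.mem_univ l)⟩
  let I : ∀ k, Set (tm.Γ k) := fun k => if k = tm.k₀ then Set.univ else ∅
  have hI : ∀ k, (I k).Finite := by
    intro k
    by_cases h : k = tm.k₀
    · subst h
      simp only [I, if_true]
      exact Set.finite_univ
    · simp only [I, if_neg h]
      exact Set.finite_empty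
  let c₀ : List Bool → ECfg tm.Γ tm.Λ tm.σ := fun w =>
    emb M (initList tm (w.map eI.invFun))
  let sI : Bool → Cell tm.Γ tm.Λ tm.σ := fun b => .col (update (fun _ => none) tm.k₀
    (some (eI.symm b)))
  let sB : Cell tm.Γ tm.Λ tm.σ := .col (fun _ => none)
  let s0 : Cell tm.Γ tm.Λ tm.σ := .ctl (some (M tm.main)) tm.initialState
  let out : Cell tm.Γ tm.Λ tm.σ → Option Bool := fun c => (c.get tm.k₁).map eO
  let hlt : Cell tm.Γ tm.Λ tm.σ → Bool := fun c => match c with
    | .ctl none _ => true
    | .ctl (some _) _ => false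
    | .col _ => false
  have hstk : ∀ w k, (c₀ w).stk k = update (fun _ => []) tm.k₀ (w.map eI.symm) k := by
    intro w k
    by_cases h : k = tm.k₀
    · subst h
      simp [c₀, emb, initList]
    · simp [c₀, emb, initList, h]
  have htraj : ∀ w t, traj (Cell.trans M) s0 sI sB w t = cells ((estep M)^[t] (c₀ w)) := by
    intro w t
    induction t with
    | zero =>
      funext i
      cases i with
      | zero => rfl
      | succ i =>
        simp only [traj, row0, iterate_zero, id_eq, cells]
        cases h : w[i]? with
        | none =>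
          simp only [sB]
          congr 1
          funext k
          rw [hstk]
          by_cases hk : k = tm.k₀
          · subst hk
            simp [h]
          · simp [update_of_ne hk]
        | some b =>
          simp only [sI]
          congr 1
          funext k
          rw [hstk]
          by_cases hk : k = tm.k₀
          · subst hk
            simp [h]
          · simp [update_of_ne hk]
    | succ t ih =>
      funext i
      simp only [traj]
      rw [ih, iterate_succ_apply', cells_estep]
  have hgood : ∀ w t, Good M I ((estep M)^[t] (c₀ w)) := by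
    intro w t
    induction t with
    | zero =>
      refine ⟨mem_stmts_label M _, fun k x hx => ?_⟩
      simp only [iterate_zero, id_eq] at hx
      rw [hstk] at hx
      by_cases hk : k = tm.k₀
      · subst hk
        left
        simp [I]
      · simp [update_of_ne hk] at hx
    | succ t ih =>
      rw [iterate_succ_apply']
      exact ih.estep
  have hfinal : ∀ w w' t, Outputs tm eI eO w w' t → ∃ m ≤ B * t,
      (estep M)^[m] (c₀ w) = ⟨none, tm.initialState, (haltList tm (w'.map eO.symm)).stk⟩ := by
    intro w w' t h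
    obtain ⟨⟨⟨n, hn⟩, hle⟩⟩ := h
    simp only at hn hle
    have hn' : (flip bind (TM2.step M))^[n] (some (initList tm (w.map eI.invFun))) =
        some (haltList tm (w'.map eO.symm)) := hn
    obtain ⟨m, hm, h1⟩ := exists_iterate_step M hB _ n _ hn'
    exact ⟨m, hm.trans (Nat.mul_le_mul_left _ hle), h1⟩
  have hhalt : ∀ c : ECfg tm.Γ tm.Λ tm.σ, hlt (cells c 0) = true → c.ctl = none := by
    rintro ⟨q, v, S⟩ h
    cases q with
    | none => rfl
    | some q => exact absurd h (by simp [hlt, cells])
  have hst : ∀ w w' t, Outputs tm eI eO w w' t → ∀ s,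
      hlt (cells ((estep M)^[s] (c₀ w)) 0) = true →
      (estep M)^[s] (c₀ w) = ⟨none, tm.initialState, (haltList tm (w'.map eO.symm)).stk⟩ := by
    intro w w' t h s hs
    obtain ⟨m, _, hm⟩ := hfinal w w' t h
    rcases le_total m s with hms | hms
    · obtain ⟨d, rfl⟩ := Nat.exists_eq_add_of_le' hms
      rw [iterate_add_apply, hm, iterate_halted]
    · obtain ⟨d, rfl⟩ := Nat.exists_eq_add_of_le' hms
      have h1 := hhalt _ hs
      rw [iterate_add_apply] at hm
      generalize (estep M)^[s] (c₀ w) = c at hm h1
      obtain ⟨q, v, S⟩ := c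
      simp only at h1
      subst h1
      rw [iterate_halted] at hm
      exact hm
  have hk1 : ∀ w' : List Bool, (haltList tm (w'.map eO.symm)).stk tm.k₁ = w'.map eO.symm := by
    intro w
    simp [haltList]
  refine ⟨Cell tm.Γ tm.Λ tm.σ, (finite_Used M I hI).toFinset, Cell.trans M, s0, sI, sB, out, hlt,
    B, ?_, ?_⟩
  · intro w t i
    rw [Set.Finite.mem_toFinset, htraj]
    exact (hgood w t).cells i
  · intro w w' t h
    refine ⟨fun s hs => ⟨fun i => ?_, ?_⟩, fun s hs => ?_⟩
    · rw [htraj] at hs ⊢
      rw [hst w w' t h s hs]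
      simp only [out, cells, Cell.get, hk1]
      simp
    · rw [htraj] at hs
      have h1 := length_estep_iterate M (c₀ w) tm.k₁ s
      rw [hst w w' t h s hs] at h1
      simp only [hk1, List.length_map] at h1
      refine h1.trans (Nat.add_le_add_right ?_ _)
      rw [hstk]
      by_cases hk : tm.k₁ = tm.k₀
      · rw [hk, update_self, List.length_map]
      · rw [update_of_ne hk]; simp
    · rw [htraj]
      obtain ⟨m, hm, h1⟩ := hfinal w w' t h
      obtain ⟨d, rfl⟩ := Nat.exists_eq_add_of_le' (hm.trans hs)
      rw [iterate_add_apply, h1, iterate_halted]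
      rfl

/-- simulation with a budget -/
theorem exists_sim (tm : Turing.FinTM2) (eI : tm.Γ tm.k₀ ≃ Bool) (eO : tm.Γ tm.k₁ ≃ Bool) :
    ∃ (sim : List Bool → ℕ → List (List Bool)) (B : ℕ),
      PolyTime (fun q : List Bool × ℕ => sim q.1 q.2) ∧
      ∀ w w' t, Outputs tm eI eO w w' t →
        (∀ s, sim w s = [] ∨ sim w s = [w']) ∧ ∀ s, B * t ≤ s → sim w s = [w'] := by
  classical
  obtain ⟨S, A', δ, s0, sI, sB, out, hlt, B, hA', hspec⟩ := exists_automaton_any tm eI eO
  set A := A'.toList with hAdef
  have hA : ∀ w t i, traj δ s0 sI sB w t i ∈ A := fun w t i => by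
    rw [hAdef, Finset.mem_toList]; exact hA' w t i
  set tab := mkTab A δ with htab
  -- the rows
  let row : List Bool × ℕ → List ℕ := fun q =>
    (stepRow tab)^[q.2] (initRow A s0 sI sB q.1 (q.1.length + 2 * q.2 + 2))
  let flag : List Bool × ℕ → Bool := fun q =>
    (A.map hlt).getD ((row q).getD 0 0) false
  let res : List Bool × ℕ → List Bool := fun q =>
    (List.range (q.1.length + q.2)).flatMap fun i =>
      (A.map fun s => (out s).toList).getD ((row q).getD (i + 1) 0) []
  have hw : PolyTime (fun q : List Bool × ℕ => q.1.length) := PolyTime.id.fst.length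
  have hs : PolyTime (fun q : List Bool × ℕ => q.2) := PolyTime.id.snd
  have hW : PolyTime (fun q : List Bool × ℕ => q.1.length + 2 * q.2 + 2) :=
    (hw.add ((PolyTime.const 2).mul hs)).add (PolyTime.const 2)
  have hinit : PolyTime (fun q : List Bool × ℕ =>
      initRow A s0 sI sB q.1 (q.1.length + 2 * q.2 + 2)) := by
    refine (PolyTime.const _).cons (PolyTime.append (PolyTime.map
      (f := fun (_ : List Bool × ℕ) b =>
        bif b then A.idxOf (sI true) else A.idxOf (sI false)) PolyTime.id.fst ?_) ?_)
    · exact PolyTime.id.snd.cond (PolyTime.const _) (PolyTime.const _)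
    · exact hW.replicate (PolyTime.const _)
  have hrow : PolyTime row := by
    refine PolyTime.iterate (f := fun (_ : List Bool × ℕ) => stepRow tab) hs hinit
      (PolyTime.stepRow tab PolyTime.id.snd) ?_
    obtain ⟨p, hp⟩ := hW.sz_le
    refine ⟨(Polynomial.X + p + 1) * Polynomial.C (2 * A.length + 2) + 1, fun q i _ => ?_⟩
    refine (sz_initRow_iterate A δ s0 sI sB q.1 _ i).trans ?_
    have h1 := hp q
    rw [sz_nat] at h1
    have h2 := length_lt_sz q.1
    have h3 : sz q = sz q.1 + sz q.2 + 1 := sz_pair q.1 q.2
    simp only [Polynomial.eval_add, Polynomial.eval_mul, Polynomial.eval_X, Polynomial.eval_C,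
      Polynomial.eval_one]
    refine Nat.add_le_add_right (Nat.mul_le_mul_right _ ?_) _
    omega
  have hflag : PolyTime flag :=
    (PolyTime.const _).getD (hrow.getD (PolyTime.const 0) (PolyTime.const 0))
      (PolyTime.const false)
  have hres : PolyTime res := by
    refine PolyTime.flatMap (f := fun (q : List Bool × ℕ) i =>
      (A.map fun s => (out s).toList).getD ((row q).getD (i + 1) 0) []) (hw.add hs).range ?_
    exact (PolyTime.const _).getD ((hrow.comp PolyTime.id.fst).getD PolyTime.id.snd.succ
      (PolyTime.const 0)) (PolyTime.const [])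
  refine ⟨fun w s => bif flag (w, s) then [res (w, s)] else [], B,
    PolyTime.cond hflag (hres.cons (PolyTime.const [])) (PolyTime.const []), ?_⟩
  intro w w' t h
  obtain ⟨h1, h2⟩ := hspec w w' t h
  have hgetD : ∀ {β : Type} (g : S → β) (e : β) (s : S), s ∈ A →
      (A.map g).getD (A.idxOf s) e = g s := by
    intro β g e s hs
    have h := List.idxOf_lt_length_iff.2 hs
    rw [List.getD_eq_getElem _ _ (by simpa using h), List.getElem_map]
    congr 1
    exact List.getElem_idxOf h
  have hf : ∀ s, flag (w, s) = hlt (traj δ s0 sI sB w s 0) := by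
    intro s
    show (A.map hlt).getD ((row (w, s)).getD 0 0) false = _
    have h3 : (row (w, s)).getD 0 0 = A.idxOf (traj δ s0 sI sB w s 0) :=
      stepRow_iterate_getD A δ s0 sI sB hA w (w.length + 2 * s + 2) s 0 (by omega)
    rw [h3, hgetD _ _ _ (hA w s 0)]
  have hr : ∀ s, hlt (traj δ s0 sI sB w s 0) = true → res (w, s) = w' := by
    intro s hs
    obtain ⟨h3, h4⟩ := h1 s hs
    have key : ∀ i ∈ List.range (w.length + s), (A.map fun s => (out s).toList).getD
        ((row (w, s)).getD (i + 1) 0) [] = (w'[i]?).toList := by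
      intro i hi
      rw [List.mem_range] at hi
      have h5 : (row (w, s)).getD (i + 1) 0 = A.idxOf (traj δ s0 sI sB w s (i + 1)) :=
        stepRow_iterate_getD A δ s0 sI sB hA w (w.length + 2 * s + 2) s (i + 1) (by omega)
      rw [h5, hgetD _ _ _ (hA w s (i + 1)), h3]
    show (List.range (w.length + s)).flatMap _ = w'
    rw [List.flatMap_congr key]
    exact range_flatMap_getElem? _ _ h4
  refine ⟨fun s => ?_, fun s hs => ?_⟩
  · show (bif flag (w, s) then [res (w, s)] else []) = [] ∨
      (bif flag (w, s) then [res (w, s)] else []) = [w']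
    rw [hf]
    cases hb : hlt (traj δ s0 sI sB w s 0)
    · exact Or.inl rfl
    · rw [cond_true, hr s hb]
      exact Or.inr rfl
  · show (bif flag (w, s) then [res (w, s)] else []) = [w']
    rw [hf, h2 s hs, cond_true, hr s (h2 s hs)]

end Pool.Agent.CDH
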