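import Mathlib
import Pool.Agent.Lib.PolyTime.Lib
import Pool.Agent.CDom.StmtDefs
import Pool.Agent.CDom.Prog
import Pool.Agent.CDom.Spec1
import Pool.Agent.CDom.Parse
import Pool.Agent.CDom.Final
import Pool.Agent.CDH.Stmt
import Pool.Agent.CDH.StmtB
import Pool.Agent.CDH.Sim
import Pool.Agent.CDH.Mach
import Pool.Agent.CDH.ProgB
import Pool.Agent.CDH.StepB
import Pool.Agent.CDH.Order
import Pool.Agent.CDH.ClassB
import Pool.Agent.CDH.Core

/-!
# Assembly of the second theorem
-/

set_option autoImplicit false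

namespace Pool.Agent.CDH

open Finset Pool.Agent.Lib.PT Pool.Agent.CDom Pool.Agent.CDom.Prog

/-! ### the oracle -/

theorem encH_eq (m : ℕ) (H : List (List ℕ)) :
    encH (H.map (S m)) = printL m (List.range m :: H) := by
  unfold encH printL
  rw [List.map_cons, List.map_cons, List.map_map, listRow_eq, S_range]
  congr 2
  exact List.map_congr_left fun X _ => (listRow_eq m X).symm

theorem exists_hd (h : HDOutPoly) :
    ∃ (hd : ℕ → List (List ℕ) → ℕ → List (List (List ℕ))) (P : Polynomial ℕ),
      PolyTime (fun q : ℕ × List (List ℕ) × ℕ => hd q.1 q.2.1 q.2.2) ∧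
      HDSpec hd (fun t => P.eval t) := by
  obtain ⟨M, i, o, p, hM⟩ := h
  obtain ⟨sim, B, hsim, hspec⟩ := exists_sim M i o
  refine ⟨fun m H s => (sim (printL m (List.range m :: H)) s).map fun w' =>
    (decM w').map rowList, Polynomial.C B * p, ?_, ?_⟩
  · have h1 : PolyTime (fun q : ℕ × List (List ℕ) × ℕ =>
        printL q.1 (List.range q.1 :: q.2.1)) :=
      PolyTime.comp (g := fun q : ℕ × List (List ℕ) => printL q.1 q.2) pt_printL
        (PolyTime.id.fst.pair (PolyTime.id.fst.range.cons PolyTime.id.snd.fst))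
    have h2 : PolyTime (fun q : ℕ × List (List ℕ) × ℕ =>
        sim (printL q.1 (List.range q.1 :: q.2.1)) q.2.2) :=
      PolyTime.comp (g := fun q : List Bool × ℕ => sim q.1 q.2) hsim
        (h1.pair PolyTime.id.snd.snd)
    refine PolyTime.map (f := fun (_ : ℕ × List (List ℕ) × ℕ) (w' : List Bool) =>
      (decM w').map rowList) h2 ?_
    exact PolyTime.map (f := fun (_ : (ℕ × List (List ℕ) × ℕ) × List Bool) (r : List Bool) =>
      rowList r) (pt_decM.comp PolyTime.id.snd) (pt_rowList PolyTime.id.snd)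
  · intro m H
    obtain ⟨l, h1, h2, h3⟩ := hM m (H.map (S m))
    rw [encH_eq, List.length_map] at h3
    obtain ⟨g1, g2⟩ := hspec _ _ _ h3
    have hdec : (decM (encM (l.map matS))).map rowList = l.map can := by
      rw [decM_encM, List.map_map]
      exact List.map_congr_left fun T _ => rowList_matS T
    refine ⟨l, h1, h2, fun s => ?_, fun s hs => ?_⟩
    · rcases g1 s with h | h
      · left
        simp only
        rw [h]
        rfl
      · right
        simp only
        rw [h, List.map_cons, List.map_nil, hdec]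
    · simp only
      rw [g2 s, List.map_cons, List.map_nil, hdec]
      beta_reduce at hs
      rw [Polynomial.eval_mul, Polynomial.eval_C] at hs
      exact hs

/-! ### polynomials and powers of two -/

theorem poly_le_pow (P : Polynomial ℕ) : ∃ c : ℕ, ∀ y : ℕ, 2 ≤ y → P.eval y ≤ y ^ c := by
  induction P using Polynomial.induction_on' with
  | add P Q hP hQ =>
    obtain ⟨a, ha⟩ := hP
    obtain ⟨b, hb⟩ := hQ
    refine ⟨a + b + 1, fun y hy => ?_⟩
    rw [Polynomial.eval_add]
    have h1 : y ^ a ≤ y ^ (a + b) := Nat.pow_le_pow_right (by omega) (by omega)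
    have h2 : y ^ b ≤ y ^ (a + b) := Nat.pow_le_pow_right (by omega) (by omega)
    have h3 : y ^ (a + b + 1) = y ^ (a + b) * y := pow_succ _ _
    rw [h3]
    have h4 : y ^ (a + b) * 2 ≤ y ^ (a + b) * y := Nat.mul_le_mul_left _ hy
    have h5 := ha y hy
    have h6 := hb y hy
    omega
  | monomial k a =>
    refine ⟨a + k, fun y hy => ?_⟩
    rw [Polynomial.eval_monomial, pow_add]
    refine Nat.mul_le_mul_right _ ?_
    have h1 : a < 2 ^ a := Nat.lt_two_pow_self
    exact h1.le.trans (Nat.pow_le_pow_left hy a)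

theorem poly_lt_two_pow (P : Polynomial ℕ) :
    ∃ c : ℕ, ∀ n N : ℕ, N ≤ 2 ^ n → P.eval (n + N) < 2 ^ (c * (n + 1)) := by
  obtain ⟨c, hc⟩ := poly_le_pow P
  refine ⟨c + 1, fun n N hN => ?_⟩
  have h1 : n + N ≤ 2 ^ (n + 1) := by
    have h2 : n < 2 ^ n := Nat.lt_two_pow_self
    rw [pow_succ]
    omega
  have h2 : 2 ≤ 2 ^ (n + 1) := by
    rw [pow_succ]
    have := Nat.one_le_two_pow (n := n)
    omega
  have h3 : P.eval (n + N) ≤ (2 ^ (n + 1)) ^ c := (poly_mono P h1).trans (hc _ h2)
  refine lt_of_le_of_lt h3 ?_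
  rw [← pow_mul, Nat.mul_comm (n + 1) c]
  refine Nat.pow_lt_pow_right (by norm_num) ?_
  rw [Nat.add_mul, one_mul]
  omega

/-! ### the reduction -/

/-- the algorithm on words -/
def fB (hd : ℕ → List (List ℕ) → ℕ → List (List (List ℕ))) (d : ℕ) (w : List Bool) (s : ℕ) :
    List (List Bool) :=
  (mainB hd (3 * d) ((toGr (decM w), ordG d (toGr (decM w))), s)).map fun L =>
    printL (toGr (decM w)).1 L

theorem pt_fB {hd : ℕ → List (List ℕ) → ℕ → List (List (List ℕ))} (d : ℕ)
    (hhd : PolyTime (fun q : ℕ × List (List ℕ) × ℕ => hd q.1 q.2.1 q.2.2)) :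
    PolyTime (fun q : List Bool × ℕ => fB hd d q.1 q.2) := by
  unfold fB
  have hg : PolyTime (fun q : List Bool × ℕ => toGr (decM q.1)) :=
    pt_toGr.comp (pt_decM.comp PolyTime.id.fst)
  have hmain : PolyTime (fun q : List Bool × ℕ =>
      mainB hd (3 * d) ((toGr (decM q.1), ordG d (toGr (decM q.1))), q.2)) :=
    (pt_mainB (3 * d) hhd).comp ((hg.pair (pt_ordG hg d)).pair PolyTime.id.snd)
  refine PolyTime.map (f := fun (q : List Bool × ℕ) (L : List (List ℕ)) =>
    printL (toGr (decM q.1)).1 L) hmain ?_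
  exact PolyTime.comp (g := fun q : ℕ × List (List ℕ) => printL q.1 q.2) pt_printL
    ((hg.comp PolyTime.id.fst).fst.pair PolyTime.id.snd)

open Classical in
theorem mcds_of_hd (h : HDOutPoly) (d : ℕ) : MCDSOutPoly fun _ G => GraphClass d G := by
  obtain ⟨hd, P, hpt, hspec⟩ := exists_hd h
  have hmono : Monotone (fun t => P.eval t) := fun a b hab => poly_mono P hab
  -- the sufficient budget, as a polynomial in `n + N`
  let X : Polynomial ℕ := Polynomial.X
  let R : Polynomial ℕ := P.comp (3 * X + Polynomial.C (3 * d)) + X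
  have hR : ∀ u, R.eval u = P.eval (3 * u + 3 * d) + u := by
    intro u
    have e3 : ((3 : Polynomial ℕ)).eval u = 3 := Polynomial.eval_ofNat _ _
    simp only [R, X, Polynomial.eval_add, Polynomial.eval_comp, Polynomial.eval_mul,
      Polynomial.eval_X, Polynomial.eval_C, e3]
  obtain ⟨c, hc⟩ := poly_lt_two_pow R
  obtain ⟨T, i, o, p, hT⟩ := machine_of_search (pt_fB d hpt)
    (N := fun w => c * ((toGr (decM w)).1 + 1))
    (PolyTime.mul (PolyTime.const c) ((pt_toGr.comp pt_decM).fst.succ))
  refine ⟨T, i, o, p.comp (100 * (X + 1) ^ 2 + R), fun n G hG => ?_⟩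
  obtain ⟨E, hE, hgr⟩ := toGr_matG G
  have hord : GoodOrd G d (ordG d (n, E)) :=
    ordG_good hE d (exists_noStar (goodOrder_of_class hG))
  set Nc : ℕ := (univ.filter fun D => MinCDS G D).card with hNc
  have hNc2 : Nc ≤ 2 ^ n := by
    rw [hNc]
    refine (Finset.card_le_univ _).trans ?_
    rw [Fintype.card_finset, Fintype.card_fin]
  have hfB : ∀ s, fB hd d (encM (matG G)) s =
      (mainB hd (3 * d) (((n, E), ordG d (n, E)), s)).map fun L => printL n L := by
    intro s
    unfold fB
    rw [decM_encM, hgr]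
  have hmain : ∀ s, mainB hd (3 * d) (((n, E), ordG d (n, E)), s) =
      bif (runB hd (3 * d) (((n, E), ordG d (n, E)), s)).1 then
        [(runB hd (3 * d) (((n, E), ordG d (n, E)), s)).2] else [] := fun s => rfl
  -- the machine
  obtain ⟨w', ⟨l, hl1, hl2, hl3⟩, hout⟩ := hT (encM (matG G)) (R.eval (n + Nc))
    (fun w' => ∃ l : List (Finset (Fin n)), l.Nodup ∧ (∀ D, D ∈ l ↔ IsMinCDS G D) ∧
      w' = encM (l.map matS))
    (by
      intro t ht
      have h1 : (runB hd (3 * d) (((n, E), ordG d (n, E)), t)).1 = true := by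
        refine (runB_spec hE hspec hmono hord t).2 ?_ ?_
        · refine le_trans ?_ ht
          rw [hR]
          refine le_trans (poly_mono P ?_) (Nat.le_add_right _ _)
          rw [← hNc]
          omega
        · refine le_trans ?_ ht
          rw [hR, ← hNc]
          omega
      rw [hfB, hmain, h1, cond_true]
      exact List.cons_ne_nil _ _)
    (by
      rw [decM_encM, hgr]
      exact hc n Nc hNc2)
    (by
      intro t ht
      rw [hfB, hmain] at ht ⊢
      cases hb : (runB hd (3 * d) (((n, E), ordG d (n, E)), t)).1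
      · rw [hb, cond_false] at ht
        exact absurd rfl ht
      · rw [cond_true, List.map_cons, List.map_nil]
        obtain ⟨l, h1, h2, h3⟩ := (runB_spec hE hspec hmono hord t).1 hb
        refine ⟨_, rfl, l, h1, fun D => (h3 D).trans (isMinCDS_iff G D).symm, ?_⟩
        rw [h2, printL_spec])
  refine ⟨l, hl1, hl2, ?_⟩
  rw [hl3] at hout
  refine hout.mono ?_
  have hlen : Nc ≤ l.length := by
    rw [hNc, ← List.toFinset_card_of_nodup hl1]
    refine Finset.card_le_card fun D hD => ?_
    rw [Finset.mem_filter] at hD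
    rw [List.mem_toFinset, hl2, isMinCDS_iff]
    exact hD.2
  rw [Polynomial.eval_comp]
  refine poly_mono p ?_
  have hsz := sz_enc_le G []
  rw [List.map_nil, List.append_nil, List.length_nil] at hsz
  have e100 : ((100 : Polynomial ℕ)).eval (n + l.length) = 100 := Polynomial.eval_ofNat _ _
  have hev : (100 * (X + 1) ^ 2 + R).eval (n + l.length) =
      100 * (n + l.length + 1) ^ 2 + R.eval (n + l.length) := by
    rw [Polynomial.eval_add, Polynomial.eval_mul, Polynomial.eval_pow, Polynomial.eval_add,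
      Polynomial.eval_X, Polynomial.eval_one, e100]
  rw [hev]
  refine Nat.add_le_add (hsz.trans ?_) (poly_mono R (Nat.add_le_add_left hlen n))
  exact Nat.mul_le_mul_left _ (Nat.pow_le_pow_left (by omega) 2)

end Pool.Agent.CDH
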