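import Mathlib
import Pool.Agent.Lib.PolyTime.Lib
import Pool.Agent.CDom.StmtDefs
import Pool.Agent.CDom.Prog
import Pool.Agent.CDom.Spec1
import Pool.Agent.CDom.PT1
import Pool.Agent.CDom.Parse
import Pool.Agent.CDom.Final
import Pool.Agent.CDH.Stmt
import Pool.Agent.CDH.StmtB
import Pool.Agent.CDH.Sim
import Pool.Agent.CDH.Mach
import Pool.Agent.CDH.Core
import Pool.Agent.CDH.FinalB
import Pool.Agent.CDH.CoBip

/-!
# The converse: an algorithm for co-bipartite graphs gives one for hypergraph dualization
-/

set_option autoImplicit false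

namespace Pool.Agent.CDH

open Finset Pool.Agent.Lib.PT Pool.Agent.CDom Pool.Agent.CDom.Prog

/-! ### the program -/

/-- number of vertices of the hypergraph with code `w` -/
def rdM (w : List Bool) : ℕ := ((decM w).headD []).length

/-- hyperedges of the hypergraph with code `w` -/
def rdE (w : List Bool) : List (List ℕ) := ((decM w).drop 1).map rowList

/-- code of the co-bipartite graph -/
def coW (m : ℕ) (E : List (List ℕ)) : List Bool :=
  encM ((List.range (coN m E)).map fun i => (List.range (coN m E)).map fun j => adjB m E i j)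

/-- the solutions below `m + 2`, restricted to the vertices below `m` -/
def back (m : ℕ) (L : List (List ℕ)) : List (List ℕ) :=
  (L.filter fun D => D.all fun x => decide (x < m + 2)).map fun D =>
    D.filter fun x => decide (x < m)

/-- the algorithm on words -/
def fC (sim : List Bool → ℕ → List (List Bool)) (w : List Bool) (s : ℕ) : List (List Bool) :=
  (sim (coW (rdM w) (rdE w)) s).map fun w' =>
    printL (rdM w) (back (rdM w) ((decM w').map rowList))

theorem pt_rdM : PolyTime rdM := by
  unfold rdM
  exact (PolyTime.headD pt_decM (PolyTime.const [])).length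

theorem pt_rdE : PolyTime rdE := by
  unfold rdE
  refine PolyTime.map (f := fun (_ : List Bool) (r : List Bool) => rowList r)
    (PolyTime.drop (PolyTime.const 1) pt_decM) ?_
  exact pt_rowList PolyTime.id.snd

section

variable {α : Type*} [Enc α] {m : α → ℕ} {E : α → List (List ℕ)}

theorem pt_inc {i j : α → ℕ} (hm : PolyTime m) (hE : PolyTime E) (hi : PolyTime i)
    (hj : PolyTime j) : PolyTime (fun a => inc (m a) (E a) (i a) (j a)) := by
  unfold inc
  refine (hi.lt hm.succ).and (((hm.add (PolyTime.const 2)).le hj).and ?_)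
  exact pt_mem hi (PolyTime.getD ((hm.cons (PolyTime.const [])).cons hE)
    (hj.sub (hm.add (PolyTime.const 2))) (PolyTime.const []))

theorem pt_adjB {i j : α → ℕ} (hm : PolyTime m) (hE : PolyTime E) (hi : PolyTime i)
    (hj : PolyTime j) : PolyTime (fun a => adjB (m a) (E a) (i a) (j a)) := by
  unfold adjB
  have h2 := hm.add (PolyTime.const 2)
  exact (hi.eqNat hj).not.and (((hi.lt h2).and (hj.lt h2)).or
    (((h2.le hi).and (h2.le hj)).or ((pt_inc hm hE hi hj).or (pt_inc hm hE hj hi))))

theorem pt_coN (hm : PolyTime m) (hE : PolyTime E) : PolyTime (fun a => coN (m a) (E a)) := by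
  unfold coN
  exact (hm.add (PolyTime.const 3)).add hE.length

theorem pt_coW (hm : PolyTime m) (hE : PolyTime E) : PolyTime (fun a => coW (m a) (E a)) := by
  unfold coW
  refine pt_encM.comp ?_
  refine PolyTime.map (f := fun (a : α) (i : ℕ) =>
    (List.range (coN (m a) (E a))).map fun j => adjB (m a) (E a) i j) (pt_coN hm hE).range ?_
  refine PolyTime.map (f := fun (q : α × ℕ) (j : ℕ) => adjB (m q.1) (E q.1) q.2 j)
    ((pt_coN hm hE).comp PolyTime.id.fst).range ?_
  exact pt_adjB (hm.comp PolyTime.id.fst.fst) (hE.comp PolyTime.id.fst.fst) PolyTime.id.fst.snd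
    PolyTime.id.snd

theorem pt_back {L : α → List (List ℕ)} (hm : PolyTime m) (hL : PolyTime L) :
    PolyTime (fun a => back (m a) (L a)) := by
  unfold back
  refine PolyTime.map (f := fun (a : α) (D : List ℕ) => D.filter fun x => decide (x < m a)) ?_ ?_
  · refine PolyTime.filter (f := fun (a : α) (D : List ℕ) => D.all fun x =>
      decide (x < m a + 2)) hL ?_
    exact PolyTime.all (f := fun (q : α × List ℕ) (x : ℕ) => decide (x < m q.1 + 2))
      PolyTime.id.snd (PolyTime.id.snd.lt ((hm.comp PolyTime.id.fst.fst).add (PolyTime.const 2)))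
  · exact PolyTime.filter (f := fun (q : α × List ℕ) (x : ℕ) => decide (x < m q.1))
      PolyTime.id.snd (PolyTime.id.snd.lt (hm.comp PolyTime.id.fst.fst))

end

theorem pt_fC {sim : List Bool → ℕ → List (List Bool)}
    (hsim : PolyTime (fun q : List Bool × ℕ => sim q.1 q.2)) :
    PolyTime (fun q : List Bool × ℕ => fC sim q.1 q.2) := by
  unfold fC
  have hm : PolyTime (fun q : List Bool × ℕ => rdM q.1) := pt_rdM.comp PolyTime.id.fst
  have hE : PolyTime (fun q : List Bool × ℕ => rdE q.1) := pt_rdE.comp PolyTime.id.fst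
  have h1 : PolyTime (fun q : List Bool × ℕ => sim (coW (rdM q.1) (rdE q.1)) q.2) :=
    PolyTime.comp (g := fun q : List Bool × ℕ => sim q.1 q.2) hsim
      ((pt_coW hm hE).pair PolyTime.id.snd)
  refine PolyTime.map (f := fun (q : List Bool × ℕ) (w' : List Bool) =>
    printL (rdM q.1) (back (rdM q.1) ((decM w').map rowList))) h1 ?_
  have hm' : PolyTime (fun q : (List Bool × ℕ) × List Bool => rdM q.1.1) :=
    hm.comp PolyTime.id.fst
  have hL : PolyTime (fun q : (List Bool × ℕ) × List Bool => (decM q.2).map rowList) :=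
    PolyTime.map (f := fun (_ : (List Bool × ℕ) × List Bool) (r : List Bool) => rowList r)
      (pt_decM.comp PolyTime.id.snd) (pt_rowList PolyTime.id.snd)
  exact PolyTime.comp (g := fun q : ℕ × List (List ℕ) => printL q.1 q.2) pt_printL
    (hm'.pair (pt_back hm' hL))

/-! ### specification -/

theorem rdM_encH {m : ℕ} (H : List (Finset (Fin m))) : rdM (encH H) = m := by
  unfold rdM encH
  rw [decM_encM, List.map_cons, List.headD_cons, length_matS]

theorem rdE_encH {m : ℕ} (H : List (Finset (Fin m))) : rdE (encH H) = H.map can := by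
  unfold rdE encH
  rw [decM_encM, List.map_cons, List.drop_succ_cons, List.drop_zero, List.map_map]
  exact List.map_congr_left fun T _ => rowList_matS T

theorem coW_eq (m : ℕ) (E : List (List ℕ)) : coW m E = encM (matG (coG m E)) := by
  classical
  unfold coW matG
  rw [← List.map_coe_finRange_eq_range, List.map_map]
  congr 1
  refine List.map_congr_left fun i _ => ?_
  rw [Function.comp_apply, List.map_map]
  refine List.map_congr_left fun j _ => ?_
  rw [Function.comp_apply, Bool.eq_iff_iff, decide_eq_true_eq]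
  exact Iff.rfl

theorem S_map_can {m : ℕ} (H : List (Finset (Fin m))) : (H.map can).map (S m) = H := by
  rw [List.map_map]
  conv_rhs => rw [← List.map_id H]
  exact List.map_congr_left fun T _ => S_can T

theorem can_all {m : ℕ} {E : List (List ℕ)} (D : Finset (Fin (coN m E))) :
    ((can D).all fun x => decide (x < m + 2)) = true ↔ LowS m E D := by
  rw [List.all_eq_true]
  constructor
  · intro h x hx
    have := h x (mem_can.2 ⟨x.2, hx⟩)
    rwa [decide_eq_true_eq] at this
  · intro h x hx
    obtain ⟨h1, h2⟩ := mem_can.1 hx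
    rw [decide_eq_true_eq]
    exact h _ h2

theorem S_filter_can {m : ℕ} {E : List (List ℕ)} (D : Finset (Fin (coN m E))) :
    S m ((can D).filter fun x => decide (x < m)) = low m E D := by
  ext v
  rw [mem_S, List.mem_filter, mem_can, mem_low]
  constructor
  · rintro ⟨⟨_, h⟩, _⟩
    exact h
  · intro h
    exact ⟨⟨_, h⟩, by rw [decide_eq_true_eq]; exact v.2⟩

/-- what the filter does -/
theorem back_spec {m : ℕ} {H : List (Finset (Fin m))} {E : List (List ℕ)} (hE : E = H.map can)
    {l : List (Finset (Fin (coN m E)))}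
    (hl : l.Nodup) (hmem : ∀ D, D ∈ l ↔ MinCDS (coG m E) D) :
    ∃ l' : List (Finset (Fin m)), l'.Nodup ∧ (∀ T, T ∈ l' ↔ IsMinTr H T) ∧
      printL m (back m (l.map can)) = encM (l'.map matS) := by
  classical
  have hEm : ∀ e ∈ E, ∀ x ∈ e, x < m := by
    intro e he x hx
    rw [hE] at he
    obtain ⟨T, _, rfl⟩ := List.mem_map.1 he
    exact mem_can_lt hx
  have hS : E.map (S m) = H := by
    rw [hE]
    exact S_map_can H
  refine ⟨(l.filter fun D => decide (LowS m E D)).map (low m E), ?_, ?_, ?_⟩
  · refine List.Nodup.map_on ?_ (hl.filter _)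
    intro D hD D' hD' h
    rw [List.mem_filter, decide_eq_true_eq, hmem] at hD hD'
    obtain ⟨T, _, hT⟩ := (minCDS_low_iff hEm hD.2).1 hD.1
    obtain ⟨T', _, hT'⟩ := (minCDS_low_iff hEm hD'.2).1 hD'.1
    rw [hT, hT', low_lift, low_lift] at h
    rw [hT, hT', h]
  · intro T
    rw [List.mem_map]
    constructor
    · rintro ⟨D, hD, rfl⟩
      rw [List.mem_filter, decide_eq_true_eq, hmem] at hD
      obtain ⟨T, h1, h2⟩ := (minCDS_low_iff hEm hD.2).1 hD.1
      rw [h2, low_lift, ← hS]
      exact h1
    · intro hT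
      refine ⟨lift m E T, ?_, low_lift T⟩
      rw [List.mem_filter, decide_eq_true_eq, hmem]
      refine ⟨(minCDS_low_iff hEm (lowS_lift T)).2 ⟨T, ?_, rfl⟩, lowS_lift T⟩
      rw [hS]
      exact hT
  · unfold printL back
    rw [List.map_map, List.map_map, List.filter_map, List.map_map]
    congr 1
    have h1 : (l.filter ((fun D : List ℕ => D.all fun x => decide (x < m + 2)) ∘ can)) =
        l.filter fun D => decide (LowS m E D) := by
      refine List.filter_congr fun D _ => ?_
      rw [Function.comp_apply, Bool.eq_iff_iff, decide_eq_true_eq]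
      exact can_all D
    rw [h1]
    refine List.map_congr_left fun D _ => ?_
    rw [Function.comp_apply, Function.comp_apply, Function.comp_apply, listRow_eq, S_filter_can]

open Classical in
/-- the number of solutions of the co-bipartite graph -/
theorem card_minCDS_le {m : ℕ} (H : List (Finset (Fin m))) :
    (univ.filter fun D => MinCDS (coG m (H.map can)) D).card ≤
      (univ.filter fun T => IsMinTr H T).card + (coN m (H.map can)) ^ 2 := by
  set E := H.map can with hE
  have hEm : ∀ e ∈ E, ∀ x ∈ e, x < m := by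
    intro e he x hx
    obtain ⟨T, _, rfl⟩ := List.mem_map.1 he
    exact mem_can_lt hx
  have hS : E.map (S m) = H := S_map_can H
  have hsub : (univ.filter fun D => MinCDS (coG m E) D) ⊆
      ((univ.filter fun T => IsMinTr H T).image (lift m E)) ∪
        (powersetCard 2 (univ : Finset (Fin (coN m E)))) := by
    intro D hD
    rw [Finset.mem_filter] at hD
    rw [Finset.mem_union]
    by_cases hlow : LowS m E D
    · left
      obtain ⟨T, h1, h2⟩ := (minCDS_low_iff hEm hlow).1 hD.2
      rw [Finset.mem_image]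
      refine ⟨T, ?_, h2.symm⟩
      rw [Finset.mem_filter, ← hS]
      exact ⟨Finset.mem_univ _, h1⟩
    · right
      rw [Finset.mem_powersetCard]
      exact ⟨Finset.subset_univ _, card_high hD.2 hlow⟩
  refine (Finset.card_le_card hsub).trans ((Finset.card_union_le _ _).trans ?_)
  refine Nat.add_le_add Finset.card_image_le ?_
  rw [Finset.card_powersetCard, Finset.card_univ, Fintype.card_fin]
  exact Nat.choose_le_pow _ _

theorem length_encH {m : ℕ} (H : List (Finset (Fin m))) :
    (encH H).length = (H.length + 1) * (2 * m + 1) := by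
  unfold encH
  rw [length_encM m]
  · rw [List.length_map, List.length_cons]
  · intro r hr
    rw [List.mem_map] at hr
    obtain ⟨T, -, rfl⟩ := hr
    exact length_matS T

theorem sz_encH_le {m : ℕ} (H : List (Finset (Fin m))) :
    sz (encH H) ≤ 100 * (m + H.length + 1) ^ 2 := by
  refine (sz_bools _).trans ?_
  rw [length_encH]
  nlinarith [Nat.zero_le m, Nat.zero_le H.length, Nat.zero_le (m * H.length)]

/-! ### the theorem -/

open Classical in
theorem hd_of_mcds {P : ∀ n : ℕ, SimpleGraph (Fin n) → Prop} (hP : ∀ n G, CoBip G → P n G)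
    (h : MCDSOutPoly P) : HDOutPoly := by
  obtain ⟨M, i, o, p, hM⟩ := h
  obtain ⟨sim, B, hsim, hspec⟩ := exists_sim M i o
  -- the sufficient budget, as a polynomial in `m + |H| + N`
  let X : Polynomial ℕ := Polynomial.X
  let R : Polynomial ℕ := Polynomial.C B * p.comp (2 * X + 3 + (X + 3) ^ 2)
  have hR : ∀ u, R.eval u = B * p.eval (2 * u + 3 + (u + 3) ^ 2) := by
    intro u
    have e3 : ((3 : Polynomial ℕ)).eval u = 3 := Polynomial.eval_ofNat _ _
    have e2 : ((2 : Polynomial ℕ)).eval u = 2 := Polynomial.eval_ofNat _ _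
    simp only [R, X, Polynomial.eval_add, Polynomial.eval_comp, Polynomial.eval_mul,
      Polynomial.eval_X, Polynomial.eval_C, Polynomial.eval_pow, e3, e2]
  obtain ⟨c, hc⟩ := poly_lt_two_pow R
  obtain ⟨T, i', o', q, hT⟩ := machine_of_search (pt_fC hsim)
    (N := fun w => c * (rdM w + (rdE w).length + 1))
    (PolyTime.mul (PolyTime.const c) ((pt_rdM.add pt_rdE.length).succ))
  refine ⟨T, i', o', q.comp (100 * (X + 1) ^ 2 + R), fun m H => ?_⟩
  set E := H.map can with hE
  have hElen : E.length = H.length := by rw [hE, List.length_map]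
  obtain ⟨l, hl1, hl2, hl3⟩ := hM (coN m E) (coG m E) (hP _ _ coBip_coG)
  have hl2' : ∀ D, D ∈ l ↔ MinCDS (coG m E) D := fun D => (hl2 D).trans (isMinCDS_iff _ D)
  obtain ⟨l', hl'1, hl'2, hl'3⟩ := back_spec hE hl1 hl2'
  obtain ⟨g1, g2⟩ := hspec _ _ _ hl3
  rw [← coW_eq] at g1 g2
  set Nt : ℕ := (univ.filter fun T : Finset (Fin m) => IsMinTr H T).card with hNt
  have hNt2 : Nt ≤ 2 ^ (m + H.length) := by
    rw [hNt]
    refine (Finset.card_le_univ _).trans ?_
    rw [Fintype.card_finset, Fintype.card_fin]
    exact Nat.pow_le_pow_right (by norm_num) (Nat.le_add_right _ _)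
  have hlen : l.length ≤ Nt + (coN m E) ^ 2 := by
    rw [hNt, ← List.toFinset_card_of_nodup hl1]
    refine le_trans (Finset.card_le_card fun D hD => ?_) (card_minCDS_le H)
    rw [List.mem_toFinset, hl2'] at hD
    rw [Finset.mem_filter]
    exact ⟨Finset.mem_univ _, hD⟩
  have hcoN : coN m E = m + 3 + H.length := by
    unfold coN
    rw [hElen]
  have hbud : B * p.eval (coN m E + l.length) ≤ R.eval (m + H.length + Nt) := by
    rw [hR]
    refine Nat.mul_le_mul_left _ (poly_mono p ?_)
    have h1 : (coN m E) ^ 2 ≤ (m + H.length + Nt + 3) ^ 2 :=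
      Nat.pow_le_pow_left (by omega) 2
    omega
  have hdec : (decM (encM (l.map matS))).map rowList = l.map can := by
    rw [decM_encM, List.map_map]
    exact List.map_congr_left fun T _ => rowList_matS T
  have hfC1 : ∀ s, sim (coW m E) s = [encM (l.map matS)] →
      fC sim (encH H) s = [encM (l'.map matS)] := by
    intro s hs
    unfold fC
    rw [rdM_encH, rdE_encH, ← hE, hs, List.map_cons, List.map_nil, hdec, hl'3]
  obtain ⟨w', hw', hout⟩ := hT (encH H) (R.eval (m + H.length + Nt))
    (fun w' => w' = encM (l'.map matS))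
    (by
      intro t ht
      rw [hfC1 t (g2 t (hbud.trans ht))]
      exact List.cons_ne_nil _ _)
    (by
      rw [rdM_encH, rdE_encH, List.length_map]
      exact hc (m + H.length) Nt hNt2)
    (by
      intro t ht
      rcases g1 t with h | h
      · refine absurd ?_ ht
        unfold fC
        rw [rdM_encH, rdE_encH, ← hE, h]
        rfl
      · exact ⟨_, hfC1 t h, rfl⟩)
  refine ⟨l', hl'1, hl'2, ?_⟩
  rw [hw'] at hout
  refine hout.mono ?_
  have hlen' : Nt ≤ l'.length := by
    rw [hNt, ← List.toFinset_card_of_nodup hl'1]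
    refine Finset.card_le_card fun D hD => ?_
    rw [Finset.mem_filter] at hD
    rw [List.mem_toFinset, hl'2]
    exact hD.2
  rw [Polynomial.eval_comp]
  refine poly_mono q ?_
  have hsz := sz_encH_le H
  have e100 : ((100 : Polynomial ℕ)).eval (m + H.length + l'.length) = 100 :=
    Polynomial.eval_ofNat _ _
  have hev : (100 * (X + 1) ^ 2 + R).eval (m + H.length + l'.length) =
      100 * (m + H.length + l'.length + 1) ^ 2 + R.eval (m + H.length + l'.length) := by
    rw [Polynomial.eval_add, Polynomial.eval_mul, Polynomial.eval_pow, Polynomial.eval_add,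
      Polynomial.eval_X, Polynomial.eval_one, e100]
  rw [hev]
  refine Nat.add_le_add (hsz.trans ?_) (poly_mono R (Nat.add_le_add_left hlen' _))
  exact Nat.mul_le_mul_left _ (Nat.pow_le_pow_left (by omega) 2)

/-- co-bipartite graphs have no induced star with three leaves -/
theorem graphClass_of_coBip {d : ℕ} (hd : 3 ≤ d) {n : ℕ} {G : SimpleGraph (Fin n)}
    (h : CoBip G) : GraphClass d G := by
  left
  obtain ⟨A, h1, h2⟩ := h
  refine ⟨fun φ => ?_⟩
  have hne : ∀ a b : Fin d, a ≠ b → ¬ G.Adj (φ (Sum.inr a)) (φ (Sum.inr b)) := by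
    intro a b _ hadj
    rw [φ.map_adj_iff] at hadj
    simp at hadj
  have hinj : ∀ a b : Fin d, a ≠ b → φ (Sum.inr a) ≠ φ (Sum.inr b) := by
    intro a b hab he
    exact hab (Sum.inr_injective (φ.injective he))
  have hA : ∀ a b : Fin d, a ≠ b → ¬ (φ (Sum.inr a) ∈ A ∧ φ (Sum.inr b) ∈ A) :=
    fun a b hab hh => hne a b hab (h1 _ hh.1 _ hh.2 (hinj a b hab))
  have hB : ∀ a b : Fin d, a ≠ b → ¬ (φ (Sum.inr a) ∉ A ∧ φ (Sum.inr b) ∉ A) :=
    fun a b hab hh => hne a b hab (h2 _ hh.1 _ hh.2 (hinj a b hab))
  have e01 : (⟨0, by omega⟩ : Fin d) ≠ ⟨1, by omega⟩ := by simp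
  have e02 : (⟨0, by omega⟩ : Fin d) ≠ ⟨2, by omega⟩ := by simp
  have e12 : (⟨1, by omega⟩ : Fin d) ≠ ⟨2, by omega⟩ := by simp
  have a01 := hA _ _ e01
  have a02 := hA _ _ e02
  have a12 := hA _ _ e12
  have b01 := hB _ _ e01
  have b02 := hB _ _ e02
  have b12 := hB _ _ e12
  tauto

end Pool.Agent.CDH
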