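import Mathlib
import Pool.Agent.CDom.Defs
import Pool.Agent.CDom.Basic

/-!
# MCDS of graphs without induced paths on six vertices have a small core

Every minimal connected dominating set `D` of a `P_6`-free graph contains a connected set `C` with
at most 8 vertices such that every vertex of `D` is in `C` or adjacent to a vertex of `C`.

Proof. Let `x ∈ D`, distances in `G[D]`. A vertex `y ≠ x` of `D` with maximal distance from `x` is
not a cut vertex of `G[D]`, so it has a private neighbour `p ∉ D`; a shortest path of length 4 with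
`p` would be an induced `P_6`, so there are at most three layers `A`, `B`, `Z`.
-/

set_option autoImplicit false

namespace Pool.Agent.CDH

open Finset Pool.Agent.CDom

variable {V : Type*}

/-- no induced path on six vertices -/
def P6Free (G : SimpleGraph V) : Prop := IsEmpty (SimpleGraph.pathGraph 6 ↪g G)

theorem p6 {G : SimpleGraph V} (hG : P6Free G) {a b c d e f : V}
    (h1 : G.Adj a b) (h2 : G.Adj b c) (h3 : G.Adj c d) (h4 : G.Adj d e) (h5 : G.Adj e f)
    (n1 : ¬ G.Adj a c) (n2 : ¬ G.Adj a d) (n3 : ¬ G.Adj a e) (n4 : ¬ G.Adj a f)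
    (n5 : ¬ G.Adj b d) (n6 : ¬ G.Adj b e) (n7 : ¬ G.Adj b f)
    (n8 : ¬ G.Adj c e) (n9 : ¬ G.Adj c f) (n10 : ¬ G.Adj d f) : False := by
  have key : ∀ i j : Fin 6, G.Adj (![a, b, c, d, e, f] i) (![a, b, c, d, e, f] j) ↔
      (SimpleGraph.pathGraph 6).Adj i j := by
    intro i j
    rw [SimpleGraph.pathGraph_adj]
    fin_cases i <;> fin_cases j <;>
      simp [h1, h2, h3, h4, h5, n1, n2, n3, n4, n5, n6, n7, n8, n9, n10, G.adj_comm]
  have twin : ∀ i j : Fin 6, (∀ k : Fin 6, (((i : ℕ) + 1 = k ∨ (k : ℕ) + 1 = i) ↔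
      ((j : ℕ) + 1 = k ∨ (k : ℕ) + 1 = j))) → i = j := by decide
  have hinj : Function.Injective ![a, b, c, d, e, f] := by
    intro i j hij
    refine twin i j fun k => ?_
    have h6 := key i k
    have h7 := key j k
    rw [hij] at h6
    rw [SimpleGraph.pathGraph_adj] at h6 h7
    exact h6.symm.trans h7
  exact hG.false ⟨⟨![a, b, c, d, e, f], hinj⟩, fun {i j} => key i j⟩

section layers

variable [Fintype V] [LinearOrder V] {G : SimpleGraph V} {D : Finset V}

/-- a distance function on a connected set -/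
theorem exists_dist (hD : ∀ a ∈ D, ∀ b ∈ D, Conn G D a b) {x : V} (hx : x ∈ D) :
    ∃ d : V → ℕ, d x = 0 ∧ (∀ z ∈ D, d z = 0 → z = x) ∧
      (∀ z ∈ D, ∀ z' ∈ D, G.Adj z z' → d z ≤ d z' + 1) ∧
      ∀ z ∈ D, d z ≠ 0 → ∃ z' ∈ D, G.Adj z z' ∧ d z' + 1 = d z := by
  classical
  -- `z` can be reached in `k` steps
  let R : ℕ → V → Prop := fun k => Nat.rec (fun z => z = x)
    (fun _ P z => ∃ z' ∈ D, G.Adj z z' ∧ P z') k
  have hR0 : ∀ z, R 0 z ↔ z = x := fun z => Iff.rfl
  have hR1 : ∀ k z, R (k + 1) z ↔ ∃ z' ∈ D, G.Adj z z' ∧ R k z' := fun k z => Iff.rfl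
  have hex : ∀ z ∈ D, ∃ k, R k z := by
    intro z hz
    have h := hD x hx z hz
    unfold Conn at h
    induction h with
    | refl => exact ⟨0, rfl⟩
    | tail hab hbc ih =>
      obtain ⟨k, hk⟩ := ih (conn_mem hx hab)
      exact ⟨k + 1, (hR1 _ _).2 ⟨_, conn_mem hx hab, hbc.1.symm, hk⟩⟩
  have hmem : ∀ z ∈ D, R (sInf {k | R k z}) z := fun z hz => Nat.sInf_mem (s := {k | R k z}) (hex z hz)
  have hle : ∀ z k, R k z → sInf {k | R k z} ≤ k := fun z k h => Nat.sInf_le (s := {k | R k z}) h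
  refine ⟨fun z => sInf {k | R k z}, ?_, ?_, ?_, ?_⟩
  · exact Nat.le_zero.1 (hle x 0 rfl)
  · intro z hz h0
    have h := hmem z hz
    simp only at h0
    rw [h0] at h
    exact h
  · intro z _ z' hz' hadj
    exact hle z _ ((hR1 _ _).2 ⟨z', hz', hadj, hmem z' hz'⟩)
  · intro z hz h0
    have h := hmem z hz
    simp only at h0 ⊢
    obtain ⟨k, hk⟩ : ∃ k, sInf {k | R k z} = k + 1 := ⟨sInf {k | R k z} - 1, by omega⟩
    rw [hk] at h
    obtain ⟨z', hz', hadj, hR⟩ := (hR1 _ _).1 h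
    refine ⟨z', hz', hadj, ?_⟩
    have h2 : sInf {k | R k z'} ≤ k := hle z' k hR
    have h3 : sInf {k | R k z} ≤ sInf {k | R k z'} + 1 :=
      hle z _ ((hR1 _ _).2 ⟨z', hz', hadj, hmem z' hz'⟩)
    omega

/-- private neighbour -/
def Priv (G : SimpleGraph V) (D : Finset V) (y p : V) : Prop :=
  p ∉ D ∧ G.Adj p y ∧ ∀ z ∈ D, z ≠ y → ¬ G.Adj p z

/-- if `D` minus `y` is connected and `y` has a neighbour in it then `y` has a private neighbour -/
theorem exists_priv (hD : MinCDS G D) {y : V} (hy : y ∈ D)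
    (hnb : ∃ z ∈ D, z ≠ y ∧ G.Adj z y)
    (hc : ∀ a ∈ D.erase y, ∀ b ∈ D.erase y, Conn G (D.erase y) a b) : ∃ p, Priv G D y p := by
  have h1 : ¬ CDS G (D.erase y) := hD.2 _ (Finset.erase_ssubset hy)
  obtain ⟨z, hz, hzy, hadj⟩ := hnb
  have hne : (D.erase y).Nonempty := ⟨z, Finset.mem_erase.2 ⟨hzy, hz⟩⟩
  have h2 : ¬ ∀ v, Dom G (D.erase y) v := fun h => h1 ⟨hne, h, hc⟩
  push Not at h2
  obtain ⟨p, hp⟩ := h2
  unfold Dom at hp
  push Not at hp
  obtain ⟨hp1, hp2⟩ := hp
  have hpy : p ≠ y := by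
    rintro rfl
    exact hp2 z (Finset.mem_erase.2 ⟨hzy, hz⟩) hadj
  have hpD : p ∉ D := fun h => hp1 (Finset.mem_erase.2 ⟨hpy, h⟩)
  refine ⟨p, hpD, ?_, fun w hw hwy h => hp2 w (Finset.mem_erase.2 ⟨hwy, hw⟩) h.symm⟩
  rcases hD.1.2.1 p with h | ⟨u, hu, h⟩
  · exact absurd h hpD
  · by_cases huy : u = y
    · rw [← huy]; exact h.symm
    · exact absurd h (hp2 u (Finset.mem_erase.2 ⟨huy, hu⟩))

/-- connected subsets seen from one vertex -/
theorem conn_of_root {X : Finset V} {x : V} (h : ∀ a ∈ X, Conn G X a x) :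
    ∀ a ∈ X, ∀ b ∈ X, Conn G X a b := fun a ha b hb =>
  Relation.ReflTransGen.trans (h a ha) (conn_symm hb (h b hb))

/-- a vertex at maximal distance has a private neighbour -/
theorem priv_of_max (hD : MinCDS G D) {x : V} (hx : x ∈ D) {d : V → ℕ}
    (hd1 : ∀ z ∈ D, d z = 0 → z = x)
    (hd3 : ∀ z ∈ D, d z ≠ 0 → ∃ z' ∈ D, G.Adj z z' ∧ d z' + 1 = d z)
    {y : V} (hy : y ∈ D) (hyx : y ≠ x) (hmax : ∀ z ∈ D, d z ≤ d y) : ∃ p, Priv G D y p := by
  have hdy : d y ≠ 0 := fun h => hyx (hd1 y hy h)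
  obtain ⟨y', hy', hadj, hdy'⟩ := hd3 y hy hdy
  refine exists_priv hD hy ⟨y', hy', ?_, hadj.symm⟩ ?_
  · rintro rfl; omega
  · have hxe : x ∈ D.erase y := Finset.mem_erase.2 ⟨fun h => hyx h.symm, hx⟩
    refine conn_of_root (x := x) ?_
    have key : ∀ k, ∀ a ∈ D.erase y, d a = k → Conn G (D.erase y) a x := by
      intro k
      induction k with
      | zero =>
        intro a ha hda
        rw [hd1 a (Finset.mem_of_mem_erase ha) hda]
        exact Relation.ReflTransGen.refl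
      | succ k ih =>
        intro a ha hda
        obtain ⟨a', ha', hadj', hda'⟩ := hd3 a (Finset.mem_of_mem_erase ha) (by omega)
        have h1 : a' ≠ y := by
          rintro rfl
          have := hmax a (Finset.mem_of_mem_erase ha)
          omega
        have h2 : a' ∈ D.erase y := Finset.mem_erase.2 ⟨h1, ha'⟩
        exact Relation.ReflTransGen.head ⟨hadj', h2⟩ (ih a' h2 (by omega))
    exact fun a ha => key _ a ha rfl


/-- layers: `d` is a distance from `x` in `D` -/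
structure Lay (G : SimpleGraph V) (D : Finset V) (x : V) (d : V → ℕ) : Prop where
  hx : x ∈ D
  h0 : d x = 0
  h1 : ∀ z ∈ D, d z = 0 → z = x
  h2 : ∀ z ∈ D, ∀ z' ∈ D, G.Adj z z' → d z ≤ d z' + 1
  h3 : ∀ z ∈ D, d z ≠ 0 → ∃ z' ∈ D, G.Adj z z' ∧ d z' + 1 = d z

variable {x : V} {d : V → ℕ}

theorem Lay.nadj (L : Lay G D x d) {z z' : V} (hz : z ∈ D) (hz' : z' ∈ D) (h : d z + 2 ≤ d z') :
    ¬ G.Adj z z' := by
  intro hadj
  have := L.h2 z' hz' z hz hadj.symm
  omega

theorem Lay.one (L : Lay G D x d) {a : V} (ha : a ∈ D) (h : d a = 1) : G.Adj a x := by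
  obtain ⟨z', hz', hadj, hd⟩ := L.h3 a ha (by omega)
  rw [L.h1 z' hz' (by omega)] at hadj
  exact hadj

theorem Lay.le_three (hG : P6Free G) (hD : MinCDS G D) (L : Lay G D x d) {y : V} (hy : y ∈ D)
    (hmax : ∀ z ∈ D, d z ≤ d y) : d y ≤ 3 := by
  by_contra hlt
  have hyx : y ≠ x := by
    rintro rfl
    have := L.h0
    omega
  obtain ⟨p, hp1, hp2, hp3⟩ := priv_of_max hD L.hx L.h1 L.h3 hy hyx hmax
  obtain ⟨y1, hy1, a1, e1⟩ := L.h3 y hy (by omega)
  obtain ⟨y2, hy2, a2, e2⟩ := L.h3 y1 hy1 (by omega)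
  obtain ⟨y3, hy3, a3, e3⟩ := L.h3 y2 hy2 (by omega)
  obtain ⟨y4, hy4, a4, e4⟩ := L.h3 y3 hy3 (by omega)
  have ne : ∀ z, d z < d y → z ≠ y := by
    rintro z h rfl
    omega
  exact p6 hG hp2 a1 a2 a3 a4 (hp3 _ hy1 (ne _ (by omega))) (hp3 _ hy2 (ne _ (by omega)))
    (hp3 _ hy3 (ne _ (by omega))) (hp3 _ hy4 (ne _ (by omega)))
    (fun h => L.nadj hy2 hy (by omega) h.symm) (fun h => L.nadj hy3 hy (by omega) h.symm)
    (fun h => L.nadj hy4 hy (by omega) h.symm) (fun h => L.nadj hy3 hy1 (by omega) h.symm)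
    (fun h => L.nadj hy4 hy1 (by omega) h.symm) (fun h => L.nadj hy4 hy2 (by omega) h.symm)

/-- two non-adjacent vertices of the second layer -/
theorem Lay.two (hG : P6Free G) (L : Lay G D x d) {b b' a a' p p' : V} (hb : b ∈ D) (hb' : b' ∈ D)
    (ha : a ∈ D) (ha' : a' ∈ D) (db : d b = 2) (db' : d b' = 2) (da : d a = 1) (da' : d a' = 1)
    (hp : Priv G D b p) (hp' : Priv G D b' p') (hbb : ¬ G.Adj b b') (hne : b ≠ b')
    (h1 : G.Adj a b) (h2 : ¬ G.Adj a b') (h3 : G.Adj a' b') (h4 : ¬ G.Adj a' b) :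
    G.Adj a a' ∧ G.Adj p p' := by
  obtain ⟨-, hp2, hp3⟩ := hp
  obtain ⟨-, hp2', hp3'⟩ := hp'
  have nab : a ≠ b := by rintro rfl; omega
  have nab' : a ≠ b' := by rintro rfl; omega
  have na'b : a' ≠ b := by rintro rfl; omega
  have na'b' : a' ≠ b' := by rintro rfl; omega
  have hx0 := L.h0
  have nxb : x ≠ b := by rintro rfl; omega
  have nbx : ¬ G.Adj b x := fun h => L.nadj L.hx hb (by omega) h.symm
  have nb'x : ¬ G.Adj b' x := fun h => L.nadj L.hx hb' (by omega) h.symm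
  have haa : G.Adj a a' := by
    by_contra hno
    exact p6 hG hp2 h1.symm (L.one ha da) (L.one ha' da').symm h3 (hp3 _ ha nab) (hp3 _ L.hx nxb)
      (hp3 _ ha' na'b) (hp3 _ hb' hne.symm) nbx (fun h => h4 h.symm) hbb hno h2
      (fun h => nb'x h.symm)
  refine ⟨haa, ?_⟩
  by_contra hno
  exact p6 hG hp2 h1.symm haa h3 hp2'.symm (hp3 _ ha nab) (hp3 _ ha' na'b) (hp3 _ hb' hne.symm)
    hno (fun h => h4 h.symm) hbb (fun h => hp3' _ hb hne h.symm) h2
    (fun h => hp3' _ ha nab' h.symm) (fun h => hp3' _ ha' na'b' h.symm)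

/-- two non-adjacent vertices of the third layer have comparable neighbourhoods -/
theorem Lay.three (hG : P6Free G) (L : Lay G D x d) {z z' b b' p p' : V} (hz : z ∈ D) (hz' : z' ∈ D)
    (hb : b ∈ D) (hb' : b' ∈ D) (dz : d z = 3) (dz' : d z' = 3) (db : d b = 2) (db' : d b' = 2)
    (hp : Priv G D z p) (hp' : Priv G D z' p') (hzz : ¬ G.Adj z z') (hne : z ≠ z')
    (h1 : G.Adj b z) (h2 : ¬ G.Adj b z') (h3 : G.Adj b' z') (h4 : ¬ G.Adj b' z) : False := by
  obtain ⟨-, hp2, hp3⟩ := hp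
  obtain ⟨-, hp2', hp3'⟩ := hp'
  have hx0 := L.h0
  have ne : ∀ {w w' : V}, d w ≠ d w' → w ≠ w' := by
    rintro w w' h rfl
    exact h rfl
  obtain ⟨a, ha, hba, hda⟩ := L.h3 b hb (by omega)
  obtain ⟨a', ha', hba', hda'⟩ := L.h3 b' hb' (by omega)
  have da : d a = 1 := by omega
  have da' : d a' = 1 := by omega
  have hbb' : G.Adj b b' := by
    by_contra hno
    by_cases hab' : G.Adj a b'
    · exact p6 hG hp2 h1.symm hba hab' h3 (hp3 _ hb (ne (by omega))) (hp3 _ ha (ne (by omega)))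
        (hp3 _ hb' (ne (by omega))) (hp3 _ hz' hne.symm)
        (fun h => L.nadj ha hz (by omega) h.symm) (fun h => h4 h.symm) hzz hno h2
        (L.nadj ha hz' (by omega))
    · by_cases ha'b : G.Adj a' b
      · exact p6 hG hp2 h1.symm ha'b.symm hba'.symm h3 (hp3 _ hb (ne (by omega)))
          (hp3 _ ha' (ne (by omega))) (hp3 _ hb' (ne (by omega))) (hp3 _ hz' hne.symm)
          (fun h => L.nadj ha' hz (by omega) h.symm) (fun h => h4 h.symm) hzz hno h2
          (L.nadj ha' hz' (by omega))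
      · by_cases haa : G.Adj a a'
        · exact p6 hG hp2 h1.symm hba haa hba'.symm (hp3 _ hb (ne (by omega)))
            (hp3 _ ha (ne (by omega))) (hp3 _ ha' (ne (by omega))) (hp3 _ hb' (ne (by omega)))
            (fun h => L.nadj ha hz (by omega) h.symm) (fun h => L.nadj ha' hz (by omega) h.symm)
            (fun h => h4 h.symm) (fun h => ha'b h.symm) hno hab'
        · exact p6 hG h1.symm hba (L.one ha da) (L.one ha' da').symm hba'.symm
            (fun h => L.nadj ha hz (by omega) h.symm)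
            (fun h => L.nadj L.hx hz (by omega) h.symm)
            (fun h => L.nadj ha' hz (by omega) h.symm)
            (fun h => h4 h.symm) (fun h => L.nadj L.hx hb (by omega) h.symm)
            (fun h => ha'b h.symm) hno haa hab' (fun h => L.nadj L.hx hb' (by omega) h)
  have hab' : G.Adj a b' := by
    by_contra hno
    exact p6 hG hp2' h3.symm hbb'.symm hba (L.one ha da) (hp3' _ hb' (ne (by omega)))
      (hp3' _ hb (ne (by omega))) (hp3' _ ha (ne (by omega))) (hp3' _ L.hx (ne (by omega)))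
      (fun h => h2 h.symm) (fun h => L.nadj ha hz' (by omega) h.symm)
      (fun h => L.nadj L.hx hz' (by omega) h.symm) (fun h => hno h.symm)
      (fun h => L.nadj L.hx hb' (by omega) h.symm) (fun h => L.nadj L.hx hb (by omega) h.symm)
  have hpp : G.Adj p p' := by
    by_contra hno
    exact p6 hG hp2 h1.symm hbb' h3 hp2'.symm (hp3 _ hb (ne (by omega)))
      (hp3 _ hb' (ne (by omega))) (hp3 _ hz' hne.symm) hno (fun h => h4 h.symm) hzz
      (fun h => hp3' _ hz hne h.symm) h2 (fun h => hp3' _ hb (ne (by omega)) h.symm)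
      (fun h => hp3' _ hb' (ne (by omega)) h.symm)
  exact p6 hG hp2'.symm hpp.symm hp2 h1.symm hba (fun h => hp3 _ hz' hne.symm h.symm)
    (fun h => hzz h.symm) (fun h => h2 h.symm) (fun h => L.nadj ha hz' (by omega) h.symm)
    (hp3' _ hz hne) (hp3' _ hb (ne (by omega))) (hp3' _ ha (ne (by omega)))
    (hp3 _ hb (ne (by omega))) (hp3 _ ha (ne (by omega)))
    (fun h => L.nadj ha hz (by omega) h.symm)


open Classical in
/-- the vertices of the second layer with private neighbours are dominated by four vertices -/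
theorem Lay.dom_two (hG : P6Free G) (L : Lay G D x d) :
    ∃ C1 ⊆ D, C1.card ≤ 4 ∧ (∀ c ∈ C1, Conn G (insert x C1) c x) ∧
      ∀ b ∈ D, d b = 2 → (∃ p, Priv G D b p) → Dom G C1 b := by
  obtain ⟨B, hB⟩ : ∃ B, B = D.filter fun b => d b = 2 ∧ ∃ p, Priv G D b p := ⟨_, rfl⟩
  have memB : ∀ b, b ∈ B ↔ b ∈ D ∧ d b = 2 ∧ ∃ p, Priv G D b p := fun b => by
    rw [hB, Finset.mem_filter]
  obtain ⟨N, hN⟩ : ∃ N : V → Finset V, N = fun b => D.filter fun a => d a = 1 ∧ G.Adj a b :=
    ⟨_, rfl⟩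
  have memN : ∀ a b, a ∈ N b ↔ a ∈ D ∧ d a = 1 ∧ G.Adj a b := fun a b => by
    rw [hN]; simp only [Finset.mem_filter]
  have hNne : ∀ b ∈ B, (N b).Nonempty := by
    intro b hb
    obtain ⟨h1, h2, -⟩ := (memB b).1 hb
    obtain ⟨a, ha, hadj, hd⟩ := L.h3 b h1 (by omega)
    exact ⟨a, (memN a b).2 ⟨ha, by omega, hadj.symm⟩⟩
  by_cases hBe : B = ∅
  · refine ⟨∅, Finset.empty_subset _, by simp, by simp, ?_⟩
    intro b hb h2 hp
    have : b ∈ B := (memB b).2 ⟨hb, h2, hp⟩
    rw [hBe] at this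
    exact absurd this (Finset.notMem_empty b)
  obtain ⟨b1, hb1, hmin⟩ := Finset.exists_min_image B (fun b => (N b).card)
    (Finset.nonempty_iff_ne_empty.2 hBe)
  obtain ⟨a1, ha1⟩ := hNne b1 hb1
  obtain ⟨hb1D, hb1d, p1, hp1⟩ := (memB b1).1 hb1
  obtain ⟨ha1D, ha1d, ha1b⟩ := (memN a1 b1).1 ha1
  -- a neighbour outside `N b1`
  have out : ∀ b ∈ B, ¬ G.Adj a1 b → ∃ a ∈ N b, ¬ G.Adj a b1 := by
    intro b hb hab
    by_contra hno
    push Not at hno
    have hsub : N b ⊆ N b1 := by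
      intro a ha
      obtain ⟨h1, h2, -⟩ := (memN a b).1 ha
      exact (memN a b1).2 ⟨h1, h2, hno a ha⟩
    have heq : N b = N b1 := Finset.eq_of_subset_of_card_le hsub (hmin b hb)
    rw [← heq] at ha1
    exact hab ((memN a1 b).1 ha1).2.2
  by_cases hB2 : ∀ b ∈ B, b = b1 ∨ G.Adj b1 b ∨ G.Adj a1 b
  · refine ⟨{a1, b1}, ?_, ?_, ?_, ?_⟩
    · intro c hc
      rw [Finset.mem_insert, Finset.mem_singleton] at hc
      rcases hc with rfl | rfl <;> assumption
    · exact (Finset.card_le_two).trans (by norm_num)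
    · intro c hc
      have c1 : Conn G (insert x {a1, b1}) a1 x := conn_single (L.one ha1D ha1d) (by simp)
      rw [Finset.mem_insert, Finset.mem_singleton] at hc
      rcases hc with rfl | rfl
      · exact c1
      · exact Relation.ReflTransGen.head ⟨ha1b.symm, by simp⟩ c1
    · intro b hb h2 hp
      rcases hB2 b ((memB b).2 ⟨hb, h2, hp⟩) with rfl | h | h
      · exact Or.inl (by simp)
      · exact Or.inr ⟨b1, by simp, h⟩
      · exact Or.inr ⟨a1, by simp, h⟩
  · push Not at hB2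
    obtain ⟨b2, hb2, hne2, hn2, hn2'⟩ := hB2
    obtain ⟨a2, ha2, ha2'⟩ := out b2 hb2 hn2'
    obtain ⟨hb2D, hb2d, p2, hp2⟩ := (memB b2).1 hb2
    obtain ⟨ha2D, ha2d, ha2b⟩ := (memN a2 b2).1 ha2
    refine ⟨{a1, b1, a2, b2}, ?_, ?_, ?_, ?_⟩
    · intro c hc
      simp only [Finset.mem_insert, Finset.mem_singleton] at hc
      rcases hc with rfl | rfl | rfl | rfl <;> assumption
    · exact Finset.card_le_four
    · intro c hc
      have c1 : Conn G (insert x {a1, b1, a2, b2}) a1 x := conn_single (L.one ha1D ha1d) (by simp)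
      have c2 : Conn G (insert x {a1, b1, a2, b2}) a2 x := conn_single (L.one ha2D ha2d) (by simp)
      simp only [Finset.mem_insert, Finset.mem_singleton] at hc
      rcases hc with rfl | rfl | rfl | rfl
      · exact c1
      · exact Relation.ReflTransGen.head ⟨ha1b.symm, by simp⟩ c1
      · exact c2
      · exact Relation.ReflTransGen.head ⟨ha2b.symm, by simp⟩ c2
    · intro b hb h2 hp
      by_contra hno
      unfold Dom at hno
      push Not at hno
      obtain ⟨hno1, hno2⟩ := hno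
      have m1 : ¬ G.Adj a1 b := hno2 a1 (by simp)
      have m2 : ¬ G.Adj b1 b := hno2 b1 (by simp)
      have m3 : ¬ G.Adj a2 b := hno2 a2 (by simp)
      have m4 : ¬ G.Adj b2 b := hno2 b2 (by simp)
      simp only [Finset.mem_insert, Finset.mem_singleton, not_or] at hno1
      obtain ⟨q1, q2, q3, q4⟩ := hno1
      obtain ⟨a, haN, ha'⟩ := out b ((memB b).2 ⟨hb, h2, hp⟩) m1
      obtain ⟨haD, had, hab⟩ := (memN a b).1 haN
      obtain ⟨p, hp⟩ := hp
      have e1 := L.two hG hb1D hb ha1D haD hb1d h2 ha1d had hp1 hp m2 (Ne.symm q2) ha1b m1 hab ha'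
      have e2 := L.two hG hb1D hb2D ha1D ha2D hb1d hb2d ha1d ha2d hp1 hp2 hn2 hne2.symm ha1b hn2'
        ha2b ha2'
      have ne : ∀ {w w' : V}, d w ≠ d w' → w ≠ w' := by
        rintro w w' h rfl
        exact h rfl
      exact p6 hG hp.2.1.symm e1.2.symm hp1.2.1 ha1b.symm e2.1
        (fun h => hp1.2.2 b hb q2 h.symm) (fun h => m2 h.symm) (fun h => m1 h.symm)
        (fun h => m3 h.symm) (hp.2.2 b1 hb1D (Ne.symm q2)) (hp.2.2 a1 ha1D (ne (by omega)))
        (hp.2.2 a2 ha2D (ne (by omega))) (hp1.2.2 a1 ha1D (ne (by omega)))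
        (hp1.2.2 a2 ha2D (ne (by omega))) (fun h => ha2' h.symm)

/-- a vertex of the second layer without private neighbour cuts off a vertex of the third layer -/
theorem Lay.cut (hD : MinCDS G D) (L : Lay G D x d) (h3 : ∀ z ∈ D, d z ≤ 3) {b : V} (hb : b ∈ D)
    (hb2 : d b = 2) (hp : ¬ ∃ p, Priv G D b p) :
    ∃ q ∈ D, d q = 3 ∧ (∀ b' ∈ D, d b' = 2 → G.Adj b' q → b' = b) ∧
      ¬ Conn G (D.erase b) q x := by
  have ne : ∀ {w w' : V}, d w ≠ d w' → w ≠ w' := by
    rintro w w' h rfl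
    exact h rfl
  have hx0 := L.h0
  obtain ⟨a, ha, hadj, hda⟩ := L.h3 b hb (by omega)
  have h1 : ¬ ∀ q ∈ D.erase b, Conn G (D.erase b) q x := by
    intro hall
    exact hp (exists_priv hD hb ⟨a, ha, ne (by omega), hadj.symm⟩ (conn_of_root hall))
  push Not at h1
  obtain ⟨q, hq, hqx⟩ := h1
  have hqD := Finset.mem_of_mem_erase hq
  have hqb := (Finset.mem_erase.1 hq).1
  have hxe : x ∈ D.erase b := Finset.mem_erase.2 ⟨ne (by omega), L.hx⟩
  have c1 : ∀ a ∈ D, d a = 1 → Conn G (D.erase b) a x := fun a ha hda =>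
    conn_single (L.one ha hda) hxe
  have c2 : ∀ b' ∈ D, d b' = 2 → b' ≠ b → Conn G (D.erase b) b' x := by
    intro b' hb' hd' _
    obtain ⟨a, ha, hadj, hda⟩ := L.h3 b' hb' (by omega)
    exact Relation.ReflTransGen.head ⟨hadj, Finset.mem_erase.2 ⟨ne (by omega), ha⟩⟩
      (c1 a ha (by omega))
  have hd3 : d q = 3 := by
    have hle := h3 q hqD
    by_contra hne
    rcases Nat.lt_or_ge (d q) 1 with h | h
    · rw [L.h1 q hqD (by omega)] at hqx
      exact hqx Relation.ReflTransGen.refl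
    · rcases Nat.lt_or_ge (d q) 2 with h' | h'
      · exact hqx (c1 q hqD (by omega))
      · exact hqx (c2 q hqD (by omega) hqb)
  refine ⟨q, hqD, hd3, ?_, hqx⟩
  intro b' hb' hd' hadj'
  by_contra hne
  exact hqx (Relation.ReflTransGen.head ⟨hadj'.symm, Finset.mem_erase.2 ⟨hne, hb'⟩⟩
    (c2 b' hb' hd' hne))

open Classical in
/-- **the core** -/
theorem p6_core (hG : P6Free G) (hD : MinCDS G D) :
    ∃ C ⊆ D, C.Nonempty ∧ C.card ≤ 8 ∧ (∀ a ∈ C, ∀ b ∈ C, Conn G C a b) ∧ ∀ v ∈ D, Dom G C v := by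
  obtain ⟨x, hx⟩ := hD.1.1
  obtain ⟨d, h0, h1, h2, h3⟩ := exists_dist hD.1.2.2 hx
  have L : Lay G D x d := ⟨hx, h0, h1, h2, h3⟩
  have ne : ∀ {w w' : V}, d w ≠ d w' → w ≠ w' := by
    rintro w w' h rfl
    exact h rfl
  obtain ⟨y, hy, hmax⟩ := Finset.exists_max_image D d ⟨x, hx⟩
  have hy3 := L.le_three hG hD hy hmax
  have hle : ∀ z ∈ D, d z ≤ 3 := fun z hz => (hmax z hz).trans hy3
  -- the farthest vertices have private neighbours
  have far : ∀ z ∈ D, d z = d y → d z ≠ 0 → ∃ p, Priv G D z p := by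
    intro z hz hzy hz0
    refine priv_of_max hD hx h1 h3 hz ?_ (fun w hw => by rw [hzy]; exact hmax w hw)
    rintro rfl
    exact hz0 h0
  obtain ⟨C1, hC1D, hC1c, hC1x, hC1⟩ := L.dom_two hG
  -- assembling
  have fin : ∀ E : Finset V, E ⊆ D → E.card ≤ 3 → (∀ c ∈ E, Conn G (insert x E) c x) →
      (∀ b ∈ D, d b = 2 → (¬ ∃ p, Priv G D b p) → Dom G E b) →
      (∀ z ∈ D, d z = 3 → Dom G E z) →
      ∃ C ⊆ D, C.Nonempty ∧ C.card ≤ 8 ∧ (∀ a ∈ C, ∀ b ∈ C, Conn G C a b) ∧
        ∀ v ∈ D, Dom G C v := by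
    intro E hED hEc hEx hE2 hE3
    refine ⟨insert x (C1 ∪ E), ?_, Finset.insert_nonempty _ _, ?_, ?_, ?_⟩
    · exact Finset.insert_subset hx (Finset.union_subset hC1D hED)
    · have e1 := Finset.card_insert_le x (C1 ∪ E)
      have e2 := Finset.card_union_le C1 E
      omega
    · refine conn_of_root (x := x) ?_
      intro c hc
      have s1 : insert x C1 ⊆ insert x (C1 ∪ E) :=
        Finset.insert_subset_insert _ Finset.subset_union_left
      have s2 : insert x E ⊆ insert x (C1 ∪ E) :=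
        Finset.insert_subset_insert _ Finset.subset_union_right
      rw [Finset.mem_insert, Finset.mem_union] at hc
      rcases hc with rfl | hc | hc
      · exact Relation.ReflTransGen.refl
      · exact conn_mono s1 (hC1x c hc)
      · exact conn_mono s2 (hEx c hc)
    · intro v hv
      have s1 : C1 ⊆ insert x (C1 ∪ E) :=
        Finset.subset_union_left.trans (Finset.subset_insert _ _)
      have s2 : E ⊆ insert x (C1 ∪ E) :=
        Finset.subset_union_right.trans (Finset.subset_insert _ _)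
      have hv3 := hle v hv
      rcases Nat.lt_or_ge (d v) 1 with h | h
      · exact Or.inl (by rw [h1 v hv (by omega)]; exact Finset.mem_insert_self _ _)
      · rcases Nat.lt_or_ge (d v) 2 with h' | h'
        · exact Or.inr ⟨x, Finset.mem_insert_self _ _, (L.one hv (by omega)).symm⟩
        · rcases Nat.lt_or_ge (d v) 3 with h'' | h''
          · by_cases hp : ∃ p, Priv G D v p
            · exact (hC1 v hv (by omega) hp).mono s1
            · exact (hE2 v hv (by omega) hp).mono s2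
          · exact (hE3 v hv (by omega)).mono s2
  by_cases hr : d y = 3
  · -- three layers
    have hZ : ∀ z ∈ D, d z = 3 → ∃ p, Priv G D z p := fun z hz hd =>
      far z hz (by omega) (by omega)
    -- finishing with `z0`, `b0`
    have fin2 : ∀ z0 ∈ D, ∀ b0 ∈ D, d z0 = 3 → d b0 = 2 → G.Adj b0 z0 →
        (∀ z ∈ D, d z = 3 → z ≠ z0 → ¬ G.Adj z0 z → ¬ G.Adj b0 z →
          ∃ b' ∈ D, d b' = 2 ∧ G.Adj b' z ∧ ¬ G.Adj b' z0) →
        (∀ b ∈ D, d b = 2 → (¬ ∃ p, Priv G D b p) → b = b0) →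
        ∃ C ⊆ D, C.Nonempty ∧ C.card ≤ 8 ∧ (∀ a ∈ C, ∀ b ∈ C, Conn G C a b) ∧
          ∀ v ∈ D, Dom G C v := by
      intro z0 hz0 b0 hb0 dz0 db0 hadj hinc huniq
      obtain ⟨a0, ha0, hadj0, hda0⟩ := h3 b0 hb0 (by omega)
      refine fin {a0, b0, z0} ?_ Finset.card_le_three ?_ ?_ ?_
      · intro c hc
        simp only [Finset.mem_insert, Finset.mem_singleton] at hc
        rcases hc with rfl | rfl | rfl <;> assumption
      · intro c hc
        have c1 : Conn G (insert x {a0, b0, z0}) a0 x := conn_single (L.one ha0 (by omega)) (by simp)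
        have c2 : Conn G (insert x {a0, b0, z0}) b0 x :=
          Relation.ReflTransGen.head ⟨hadj0, by simp⟩ c1
        simp only [Finset.mem_insert, Finset.mem_singleton] at hc
        rcases hc with rfl | rfl | rfl
        · exact c1
        · exact c2
        · exact Relation.ReflTransGen.head ⟨hadj.symm, by simp⟩ c2
      · intro b hb hb2 hp
        rw [huniq b hb hb2 hp]
        exact Or.inl (by simp)
      · intro z hz dz
        by_contra hno
        unfold Dom at hno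
        push Not at hno
        obtain ⟨hno1, hno2⟩ := hno
        simp only [Finset.mem_insert, Finset.mem_singleton, not_or] at hno1
        obtain ⟨q1, q2, q3⟩ := hno1
        have m1 : ¬ G.Adj z0 z := hno2 z0 (by simp)
        have m2 : ¬ G.Adj b0 z := hno2 b0 (by simp)
        obtain ⟨b', hb', db', hb'z, hb'z0⟩ := hinc z hz dz q3 m1 m2
        obtain ⟨p0, hp0⟩ := hZ z0 hz0 dz0
        obtain ⟨p, hp⟩ := hZ z hz dz
        exact L.three hG hz0 hz hb0 hb' dz0 dz db0 db' hp0 hp m1 (Ne.symm q3) hadj m2 hb'z hb'z0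
    by_cases hcut : ∃ b ∈ D, d b = 2 ∧ ¬ ∃ p, Priv G D b p
    · obtain ⟨b0, hb0, db0, hb0p⟩ := hcut
      obtain ⟨z0, hz0, dz0, huni, hnc⟩ := L.cut hD hle hb0 db0 hb0p
      obtain ⟨b'', hb'', hadj'', hd''⟩ := h3 z0 hz0 (by omega)
      have hadj : G.Adj b0 z0 := by
        have := huni b'' hb'' (by omega) hadj''.symm
        rw [← this]; exact hadj''.symm
      refine fin2 z0 hz0 b0 hb0 dz0 db0 hadj ?_ ?_
      · intro z hz dz hne hn1 hn2
        obtain ⟨b', hb', hadj', hd'⟩ := h3 z hz (by omega)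
        refine ⟨b', hb', by omega, hadj'.symm, fun h => ?_⟩
        rw [huni b' hb' (by omega) h] at hadj'
        exact hn2 hadj'.symm
      · intro b hb db hbp
        by_contra hne
        obtain ⟨q, hq, dq, huni', hnc'⟩ := L.cut hD hle hb db hbp
        obtain ⟨b3, hb3, hadj3, hd3⟩ := h3 q hq (by omega)
        have hbq : G.Adj b q := by
          have := huni' b3 hb3 (by omega) hadj3.symm
          rw [← this]; exact hadj3.symm
        have hb0q : ¬ G.Adj b0 q := fun h => hne (huni' b0 hb0 db0 h).symm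
        have hbz0 : ¬ G.Adj b z0 := fun h => hne (huni b hb db h)
        have hz0q : ¬ G.Adj z0 q := by
          intro h
          obtain ⟨a0, ha0, hadj0, hda0⟩ := h3 b0 hb0 (by omega)
          refine hnc' (Relation.ReflTransGen.head ⟨h.symm, ?_⟩ (Relation.ReflTransGen.head
            ⟨hadj.symm, ?_⟩ (Relation.ReflTransGen.head ⟨hadj0, ?_⟩
              (conn_single (L.one ha0 (by omega)) ?_))))
          · exact Finset.mem_erase.2 ⟨ne (by omega), hz0⟩
          · exact Finset.mem_erase.2 ⟨Ne.symm hne, hb0⟩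
          · exact Finset.mem_erase.2 ⟨ne (by omega), ha0⟩
          · exact Finset.mem_erase.2 ⟨ne (by omega), hx⟩
        have hz0neq : z0 ≠ q := by
          rintro rfl
          exact hb0q hadj
        obtain ⟨p0, hp0⟩ := hZ z0 hz0 dz0
        obtain ⟨p, hp⟩ := hZ q hq dq
        exact L.three hG hz0 hq hb0 hb dz0 dq db0 db hp0 hp hz0q hz0neq hadj hb0q hbq hbz0
    · push Not at hcut
      obtain ⟨Z, hZd⟩ : ∃ Z, Z = D.filter fun z => d z = 3 := ⟨_, rfl⟩
      have memZ : ∀ z, z ∈ Z ↔ z ∈ D ∧ d z = 3 := fun z => by rw [hZd, Finset.mem_filter]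
      obtain ⟨N, hN⟩ : ∃ N : V → Finset V, N = fun z => D.filter fun b => d b = 2 ∧ G.Adj b z :=
        ⟨_, rfl⟩
      have memN : ∀ b z, b ∈ N z ↔ b ∈ D ∧ d b = 2 ∧ G.Adj b z := fun b z => by
        rw [hN]; simp only [Finset.mem_filter]
      obtain ⟨z0, hz0, hmin⟩ := Finset.exists_min_image Z (fun z => (N z).card)
        ⟨y, (memZ y).2 ⟨hy, hr⟩⟩
      obtain ⟨hz0D, dz0⟩ := (memZ z0).1 hz0
      obtain ⟨b0, hb0, hadj0, hd0⟩ := h3 z0 hz0D (by omega)
      refine fin2 z0 hz0D b0 hb0 dz0 (by omega) hadj0.symm ?_ ?_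
      · intro z hz dz hne hn1 hn2
        by_contra hno
        push Not at hno
        have hsub : N z ⊆ N z0 := by
          intro b hb
          obtain ⟨e1, e2, e3⟩ := (memN b z).1 hb
          exact (memN b z0).2 ⟨e1, e2, hno b e1 e2 e3⟩
        have heq : N z = N z0 := Finset.eq_of_subset_of_card_le hsub (hmin z ((memZ z).2 ⟨hz, dz⟩))
        have hb0N : b0 ∈ N z0 := (memN b0 z0).2 ⟨hb0, by omega, hadj0.symm⟩
        rw [← heq] at hb0N
        exact hn2 ((memN b0 z).1 hb0N).2.2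
      · intro b hb hb2 hp
        exact absurd (hcut b hb hb2) hp
  · -- at most two layers
    refine fin ∅ (Finset.empty_subset _) (by simp) (by simp) ?_ ?_
    · intro b hb hb2 hp
      have h4 : d b = d y := by
        have := hmax b hb
        omega
      exact absurd (far b hb h4 (by omega)) hp
    · intro z hz hz3
      have := hmax z hz
      omega

end layers

end Pool.Agent.CDH
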