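import Mathlib
import Pool.Agent.Lib.PolyTime.FromTM2
import Pool.Agent.CDom.StmtDefs
import Pool.Agent.CDom.Final
import Pool.Agent.CDH.Stmt
import Pool.Agent.CDH.Prog
import Pool.Agent.CDH.Core
import Pool.Agent.CDH.P6
import Pool.Agent.CDH.Classes

/-!
# Assembly of the first theorem
-/

set_option autoImplicit false

namespace Pool.Agent.CDH

open Finset Pool.Agent.Lib.PT Pool.Agent.CDom Pool.Agent.CDom.Prog

theorem suffRed_core (k : ℕ) (P : ∀ n : ℕ, SimpleGraph (Fin n) → Prop)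
    (hP : ∀ (n : ℕ) (G : SimpleGraph (Fin n)), P n G → ∀ D, IsMinCDS G D →
      ∃ C ⊆ D, OkC G C ∧ C.card ≤ k ∧ ∀ v ∈ D, Dom G C v) : SuffRed P := by
  refine ⟨mapF k, mapG k, (Polynomial.X + 1) ^ k, (polyTime_iff_TM2 _).1 (pt_mapF k),
    (polyTime_iff_TM2 _).1 (pt_mapG k), ?_⟩
  intro n G hG
  obtain ⟨m, H, h1, h2, h3, h4, h5⟩ := reduction k G
  have hev : ((Polynomial.X + 1 : Polynomial ℕ) ^ k).eval n = (n + 1) ^ k := by
    rw [Polynomial.eval_pow, Polynomial.eval_add, Polynomial.eval_X, Polynomial.eval_one]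
  refine ⟨m, H, h1, fun T _ => h2 T, fun D hD => ⟨?_, ?_⟩, ?_⟩
  · obtain ⟨T, hT⟩ := h3 D hD (hP n G hG D hD)
    rw [Nat.one_le_iff_ne_zero]
    intro h0
    rw [Set.ncard_eq_zero (Set.toFinite _)] at h0
    have h6 : T ∈ (∅ : Set (Finset (Fin m))) := by
      rw [← h0]
      exact hT
    exact h6
  · rw [hev]
    exact h4 D
  · rw [hev]
    refine h5.trans ?_
    exact Nat.one_le_pow _ _ (Nat.succ_pos n)

theorem mainA (k : ℕ) : SuffRed fun n G =>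
    IsEmpty (SimpleGraph.pathGraph 6 ↪g G) ∨ G.indepNum ≤ k ∨
      ∀ D, IsMinCDS G D → ∃ C ⊆ D, C.card ≤ k ∧ (G.induce (C : Set (Fin n))).Connected ∧
        ∀ v ∈ D, v ∉ C → ∃ u ∈ C, G.Adj u v := by
  refine suffRed_core (8 + 3 * k) _ ?_
  rintro n G (h | h | h) D hD
  · have hD' := (isMinCDS_iff G D).1 hD
    obtain ⟨C, h1, h2, h3, h4, h5⟩ := p6_core (G := G) h hD'
    exact ⟨C, h1, ⟨h2, h4⟩, by omega, h5⟩
  · have hD' := (isMinCDS_iff G D).1 hD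
    obtain ⟨C, h1, h2, h3, h4⟩ := core_of_indep h hD'
    exact ⟨C, h1, h2, by omega, h4⟩
  · obtain ⟨C, h1, h2, h3, h4⟩ := h D hD
    refine ⟨C, h1, okC_of_connected h3, by omega, fun v hv => ?_⟩
    by_cases hvC : v ∈ C
    · exact Or.inl hvC
    · exact Or.inr (h4 v hv hvC)

end Pool.Agent.CDH
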